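import Pool.Agent.Lib.MP_c37a72_al.LB.Spec
import Pool.Agent.Lib.MP_c37a72_al.CNJ
import Pool.Agent.Lib.MP_c37a72_al.PTP

/-!
# MP_c37a72_al, block LP (labels, part 2): definitions

Text: `/team-store/MP_c37a72_labels.md`, (1.4) - (3.4). `F ⊇ Z` algebraically closed, algebraic over `Z`;
`g = gZ k Z F`, `G0 = G0 F Z D W`; `Ω` algebraically closed, algebraic over `F2`, `ξ : F2 → Ω` the inclusion
`IsScalarTower.toAlgHom k F2 Ω`; `xt yt : F →ₐ[k] Ω`, `ξ` lies over `(rZ xt, rZ yt)`.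

* `rZ wt`: the point `wt|Z` of `Z`; `kF κ`: the restriction of `κ : K →ₐ[k] Ω` to `F2`;
* `Lb`: the results of part 1 (block LB) in abstract form; `KPk`: the input from constancy;
* `Eqv w w'` (text: `w ~ w'`): `w' = wt ∘ τ|Z`, `τ ∈ G0`, `wt` a lift of `w`; `Cls κ κ'`: the same for points
  of `K`;
* `GGt`: the group of the triples `(t, a, b)`, `t ∈ Aut(Ω/k)`, `t xt = xt a`, `t yt = yt b`, `a, b ∈ G0`;
* `GD`: the group data of (1.4) - (1.6); `Lam`: additive functions `G0 → ℤ`, `0` on `g`;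
* `Hgt lam w' w n`: `w' = wt ∘ τ|Z` with `lam τ = n`; `Top lam κ w`: `w` is a highest point of `*κ`.
-/

set_option autoImplicit false

open scoped TensorProduct
open Coalgebra HopfAlgebra

namespace Pool.Agent.Lib.MP_c37a72_al.LP

open Pool.Agent.Lib.MP_c37a72_al.LB

universe u v w

section Points

variable {k : Type u} {Z F Ω : Type v} [Field k] [Field Z] [Algebra k Z] [Field F] [Algebra k F]
  [Algebra Z F] [IsScalarTower k Z F] [Field Ω] [Algebra k Ω]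

/-- `wt|Z`. -/
noncomputable def rZ (Z : Type v) [Field Z] [Algebra k Z] [Algebra Z F] [IsScalarTower k Z F]
    (wt : F →ₐ[k] Ω) : Z →ₐ[k] Ω :=
  wt.comp (IsScalarTower.toAlgHom k Z F)

@[simp] theorem rZ_apply (wt : F →ₐ[k] Ω) (z : Z) : rZ Z wt z = wt (algebraMap Z F z) := rfl

/-- `wt ∘ τ`. -/
def cmp (wt : F →ₐ[k] Ω) (τ : F ≃ₐ[k] F) : F →ₐ[k] Ω := wt.comp (τ : F →ₐ[k] F)

@[simp] theorem cmp_apply (wt : F →ₐ[k] Ω) (τ : F ≃ₐ[k] F) (f : F) : cmp wt τ f = wt (τ f) := rfl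

/-- `t ∘ φ`. -/
def tc {A : Type v} [Semiring A] [Algebra k A] (t : Ω ≃ₐ[k] Ω) (φ : A →ₐ[k] Ω) : A →ₐ[k] Ω :=
  (t : Ω →ₐ[k] Ω).comp φ

@[simp] theorem tc_apply {A : Type v} [Semiring A] [Algebra k A] (t : Ω ≃ₐ[k] Ω) (φ : A →ₐ[k] Ω)
    (a : A) : tc t φ a = t (φ a) := rfl

/-- text: `GG`, the triples `(t, a, b)` with `t xt = xt a`, `t yt = yt b`, `a, b ∈ G`. -/
def GGt (G : Subgroup (F ≃ₐ[k] F)) (xt yt : F →ₐ[k] Ω) :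
    Subgroup ((Ω ≃ₐ[k] Ω) × (F ≃ₐ[k] F) × (F ≃ₐ[k] F)) where
  carrier := {s | s.2.1 ∈ G ∧ s.2.2 ∈ G ∧ (∀ f, s.1 (xt f) = xt (s.2.1 f)) ∧
    ∀ f, s.1 (yt f) = yt (s.2.2 f)}
  mul_mem' := fun {a b} ha hb => ⟨mul_mem ha.1 hb.1, mul_mem ha.2.1 hb.2.1, fun f => by
    show a.1 (b.1 (xt f)) = xt (a.2.1 (b.2.1 f))
    rw [hb.2.2.1, ha.2.2.1], fun f => by
    show a.1 (b.1 (yt f)) = yt (a.2.2 (b.2.2 f))
    rw [hb.2.2.2, ha.2.2.2]⟩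
  one_mem' := ⟨one_mem _, one_mem _, fun _ => rfl, fun _ => rfl⟩
  inv_mem' := fun {a} ha => ⟨inv_mem ha.1, inv_mem ha.2.1, fun f => by
    show a.1.symm (xt f) = xt (a.2.1.symm f)
    rw [AlgEquiv.symm_apply_eq, ha.2.2.1, AlgEquiv.apply_symm_apply], fun f => by
    show a.1.symm (yt f) = yt (a.2.2.symm f)
    rw [AlgEquiv.symm_apply_eq, ha.2.2.2, AlgEquiv.apply_symm_apply]⟩

variable {G : Subgroup (F ≃ₐ[k] F)} {xt yt : F →ₐ[k] Ω}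

theorem mem_GGt {s : (Ω ≃ₐ[k] Ω) × (F ≃ₐ[k] F) × (F ≃ₐ[k] F)} :
    s ∈ GGt G xt yt ↔ s.2.1 ∈ G ∧ s.2.2 ∈ G ∧ (∀ f, s.1 (xt f) = xt (s.2.1 f)) ∧
      ∀ f, s.1 (yt f) = yt (s.2.2 f) := Iff.rfl

/-- `(t, a, b) ↦ t`. -/
def pt (G : Subgroup (F ≃ₐ[k] F)) (xt yt : F →ₐ[k] Ω) : GGt G xt yt →* (Ω ≃ₐ[k] Ω) :=
  (MonoidHom.fst _ _).comp (GGt G xt yt).subtype

/-- `(t, a, b) ↦ a`. -/
def pa (G : Subgroup (F ≃ₐ[k] F)) (xt yt : F →ₐ[k] Ω) : GGt G xt yt →* (F ≃ₐ[k] F) :=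
  ((MonoidHom.fst _ _).comp (MonoidHom.snd _ _)).comp (GGt G xt yt).subtype

/-- `(t, a, b) ↦ b`. -/
def pb (G : Subgroup (F ≃ₐ[k] F)) (xt yt : F →ₐ[k] Ω) : GGt G xt yt →* (F ≃ₐ[k] F) :=
  ((MonoidHom.snd _ _).comp (MonoidHom.snd _ _)).comp (GGt G xt yt).subtype

theorem pt_xt (s : GGt G xt yt) (f : F) : pt G xt yt s (xt f) = xt (pa G xt yt s f) := s.2.2.2.1 f

theorem pt_yt (s : GGt G xt yt) (f : F) : pt G xt yt s (yt f) = yt (pb G xt yt s f) := s.2.2.2.2 f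

theorem pa_mem (s : GGt G xt yt) : pa G xt yt s ∈ G := s.2.1

theorem pb_mem (s : GGt G xt yt) : pb G xt yt s ∈ G := s.2.2.1

end Points

section Group

/-- GROUP DATA. `g ≤ G0 ≤ G`, `GG → G0 × G0` onto (`p1`, `p2`), `Stb ≤ GG` contains the kernel,
`ch : Stb → G0`; see (1.4) - (1.6). -/
structure GD {G GG : Type v} [Group G] [Group GG] (G0 g : Subgroup G) (p1 p2 : GG →* G)
    (Stb : Subgroup GG) (ch : Stb →* G) : Prop where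
  gle : g ≤ G0
  fg : ∃ S : Finset G, (∀ s ∈ S, s ∈ G0) ∧ G0 ≤ Subgroup.closure ((S : Set G) ∪ (g : Set G))
  mem1 : ∀ t, p1 t ∈ G0
  mem2 : ∀ t, p2 t ∈ G0
  surj : ∀ a ∈ G0, ∀ b ∈ G0, ∃ t, p1 t = a ∧ p2 t = b
  ker : ∀ t, p1 t = 1 → p2 t = 1 → t ∈ Stb
  tr1 : ∀ t, ∃ s, p1 s ∈ g ∧ p2 s = 1 ∧ s * t ∈ Stb
  tr2 : ∀ t, ∃ s, p1 s = 1 ∧ p2 s ∈ g ∧ s * t ∈ Stb
  ch_mem : ∀ t, ch t ∈ G0
  ch_fin : ∃ Φ : Finset G, ∀ t : Stb, p1 t = 1 → p2 t = 1 → ∃ φ ∈ Φ, ∃ σ ∈ g, ch t = φ * σ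
  pl1 : ∀ t : Stb, p2 t = 1 → ∃ s : Stb, p1 s = 1 ∧ p2 s = 1 ∧ ch t = p1 t * ch s
  pl2 : ∃ ρ ∈ G0, ∀ t : Stb, p1 t = 1 →
    ∃ s : Stb, p1 s = 1 ∧ p2 s = 1 ∧ ch t = ρ * p2 t * ρ⁻¹ * ch s
  red : ∀ σ ∈ g, ∃ σ₁ ∈ g, ∃ σ₂ ∈ g, σ = σ₁ * σ₂ ∧ (∀ t, p1 t = σ₁ → p2 t = 1 → t ∈ Stb) ∧
    ∀ t, p1 t = 1 → p2 t = σ₂ → t ∈ Stb

/-- `lam` is additive on `G0` and `0` on `g`. -/
structure Lam {G : Type v} [Group G] (G0 g : Subgroup G) (lam : G → ℤ) : Prop where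
  gle : g ≤ G0
  mul : ∀ a ∈ G0, ∀ b ∈ G0, lam (a * b) = lam a + lam b
  gz : ∀ a ∈ g, lam a = 0

end Group

section Defs

variable {k : Type u} {Z Q F2 R2 : Type v} [Field k] [Field Z] [Algebra k Z] [DivisionRing Q]
  [Algebra k Q] [Algebra Z Q] [IsScalarTower k Z Q] [Field F2] [Algebra k F2] [Ring R2]
  [Algebra k R2] [Algebra F2 R2] [IsScalarTower k F2 R2]

/-- `κ|F2`. -/
noncomputable def kF {Ω : Type v} [Field Ω] [Algebra k Ω] {K : Subalgebra F2 R2}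
    (κ : K →ₐ[k] Ω) : F2 →ₐ[k] Ω :=
  κ.comp (IsScalarTower.toAlgHom k F2 K)

@[simp] theorem kF_apply {Ω : Type v} [Field Ω] [Algebra k Ω] {K : Subalgebra F2 R2}
    (κ : K →ₐ[k] Ω) (a : F2) : kF κ a = κ (algebraMap F2 K a) := rfl

/-- The results of block LB: `M, K` as in `IsMK`; `W ⊆ M` (text: `E_0 ⊗ 1`) finite-dimensional, contains
`1`, generates `M`; the relation `Rel D W` is symmetric; (1.3) on both sides. -/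
structure Lb (jF : Z ⊗[k] Z →ₐ[k] F2) (D : Q →ₐ[k] R2) (M K : Subalgebra F2 R2)
    (W : Submodule k R2) : Prop where
  imk : IsMK D M K
  bf : Bif D W
  le : ∀ r ∈ W, r ∈ M
  gen : Submodule.span F2 (WD D W : Set R2) = Subalgebra.toSubmodule M
  one : (1 : R2) ∈ W
  symm : ∀ (Ω : Type v) [Field Ω] [Algebra k Ω] (z x : Z →ₐ[k] Ω), Rel D W z x → Rel D W x z
  r1l : ∀ (Ω : Type v) [Field Ω] [IsAlgClosed Ω] [Algebra k Ω] (x y z : Z →ₐ[k] Ω)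
    (ξ ξ' : F2 →ₐ[k] Ω), Pr jF ξ x y → Pr jF ξ' z y → Rel D W z x → ∀ w : Z →ₐ[k] Ω, Mul D ξ' w →
    ∃ w₀ : Z →ₐ[k] Ω, Mul D ξ w₀ ∧ Rel D W w w₀
  r1r : ∀ (Ω : Type v) [Field Ω] [IsAlgClosed Ω] [Algebra k Ω] (x y z : Z →ₐ[k] Ω)
    (ξ ξ' : F2 →ₐ[k] Ω), Pr jF ξ x y → Pr jF ξ' x z → Rel D W z y → ∀ w : Z →ₐ[k] Ω, Mul D ξ' w →
    ∃ w₀ : Z →ₐ[k] Ω, Mul D ξ w₀ ∧ Rel D W w w₀

/-- THE INPUT FROM CONSTANCY. `fix`: the points `κ` of `K` over `(xt|Z, yt|Z)` have values in the compositum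
`xt(F) yt(F)` (in Galois form); `tr1`, `tr2`: `g ⊗ 1` and `1 ⊗ g` are transitive on these points; `red`
(REDUCED CASE): `g = g_x g_y`. -/
structure KPk (F : Type v) [Field F] [Algebra k F] [Algebra Z F] [IsScalarTower k Z F]
    (jF : Z ⊗[k] Z →ₐ[k] F2) (K : Subalgebra F2 R2) : Prop where
  fix : ∀ (Ω : Type v) [Field Ω] [IsAlgClosed Ω] [Algebra k Ω] (xt yt : F →ₐ[k] Ω) (κ : K →ₐ[k] Ω),
    Pr jF (kF κ) (rZ Z xt) (rZ Z yt) → ∀ t : Ω ≃ₐ[k] Ω, (∀ f, t (xt f) = xt f) →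
      (∀ f, t (yt f) = yt f) → ∀ c, t (κ c) = κ c
  tr1 : ∀ (Ω : Type v) [Field Ω] [IsAlgClosed Ω] [Algebra k Ω] (xt yt : F →ₐ[k] Ω)
    (κ κ' : K →ₐ[k] Ω), Pr jF (kF κ) (rZ Z xt) (rZ Z yt) → Pr jF (kF κ') (rZ Z xt) (rZ Z yt) →
      ∃ σ ∈ gZ k Z F, ∀ t : Ω ≃ₐ[k] Ω, (∀ f, t (xt f) = xt (σ f)) → (∀ f, t (yt f) = yt f) →
        ∀ c, t (κ c) = κ' c
  tr2 : ∀ (Ω : Type v) [Field Ω] [IsAlgClosed Ω] [Algebra k Ω] (xt yt : F →ₐ[k] Ω)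
    (κ κ' : K →ₐ[k] Ω), Pr jF (kF κ) (rZ Z xt) (rZ Z yt) → Pr jF (kF κ') (rZ Z xt) (rZ Z yt) →
      ∃ σ ∈ gZ k Z F, ∀ t : Ω ≃ₐ[k] Ω, (∀ f, t (xt f) = xt f) → (∀ f, t (yt f) = yt (σ f)) →
        ∀ c, t (κ c) = κ' c
  red : ∀ σ ∈ gZ k Z F, ∃ σ₁ ∈ gZ k Z F, ∃ σ₂ ∈ gZ k Z F, σ = σ₁ * σ₂ ∧
    ∀ (Ω : Type v) [Field Ω] [IsAlgClosed Ω] [Algebra k Ω] (xt yt : F →ₐ[k] Ω) (κ : K →ₐ[k] Ω),
    Pr jF (kF κ) (rZ Z xt) (rZ Z yt) → ∀ t : Ω ≃ₐ[k] Ω,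
      ((∀ f, t (xt f) = xt (σ₁ f)) → (∀ f, t (yt f) = yt f) → ∀ c, t (κ c) = κ c) ∧
      ((∀ f, t (xt f) = xt f) → (∀ f, t (yt f) = yt (σ₂ f)) → ∀ c, t (κ c) = κ c)

end Defs

section FF

variable {k : Type u} {Q R2 F2 : Type v} [Field k] [DivisionRing Q] [Algebra k Q] [Ring R2]
  [Algebra k R2] [Field F2] [Algebra k F2] [Algebra F2 R2] [IsScalarTower k F2 R2] {Ω : Type v}
  [Field Ω] [Algebra k Ω]

/-- text: `w ~ w'`. -/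
def Eqv (F Z : Type v) [Field F] [Algebra k F] [Field Z] [Algebra k Z] [Algebra Z F]
    [IsScalarTower k Z F] [Algebra Z Q] [IsScalarTower k Z Q] (D : Q →ₐ[k] R2)
    (W : Submodule k R2) (w w' : Z →ₐ[k] Ω) : Prop :=
  ∃ wt : F →ₐ[k] Ω, (∀ a, wt (algebraMap Z F a) = w a) ∧
    ∃ τ ∈ G0 F Z D W, ∀ a, w' a = wt (τ (algebraMap Z F a))

/-- text: `κ ~ κ'`. -/
def Cls (F Z : Type v) [Field F] [Algebra k F] [Field Z] [Algebra k Z] [Algebra Z F]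
    [IsScalarTower k Z F] [Algebra Z Q] [IsScalarTower k Z Q] (D : Q →ₐ[k] R2)
    (W : Submodule k R2) {K : Subalgebra F2 R2} (κ κ' : K →ₐ[k] Ω) : Prop :=
  ∃ w w' : Z →ₐ[k] Ω, Star D K κ w ∧ Star D K κ' w' ∧ Eqv F Z D W w w'

/-- `w'` is equivalent to `w`, with height `n` above `w`. -/
def Hgt (F Z : Type v) [Field F] [Algebra k F] [Field Z] [Algebra k Z] [Algebra Z F]
    [IsScalarTower k Z F] [Algebra Z Q] [IsScalarTower k Z Q] (D : Q →ₐ[k] R2)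
    (W : Submodule k R2) (lam : (F ≃ₐ[k] F) → ℤ) (w' w : Z →ₐ[k] Ω) (n : ℤ) : Prop :=
  ∃ wt : F →ₐ[k] Ω, (∀ a, wt (algebraMap Z F a) = w a) ∧
    ∃ τ ∈ G0 F Z D W, (∀ a, w' a = wt (τ (algebraMap Z F a))) ∧ lam τ = n

/-- `w` is a highest point of `*κ`. -/
def Top (F Z : Type v) [Field F] [Algebra k F] [Field Z] [Algebra k Z] [Algebra Z F]
    [IsScalarTower k Z F] [Algebra Z Q] [IsScalarTower k Z Q] (D : Q →ₐ[k] R2)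
    (W : Submodule k R2) (lam : (F ≃ₐ[k] F) → ℤ) {K : Subalgebra F2 R2} (κ : K →ₐ[k] Ω)
    (w : Z →ₐ[k] Ω) : Prop :=
  Star D K κ w ∧ ∀ (v : Z →ₐ[k] Ω) (n : ℤ), Star D K κ v → Hgt F Z D W lam v w n → n ≤ 0

end FF

end Pool.Agent.Lib.MP_c37a72_al.LP
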