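import Pool.Agent.Lib.MP_c37a72_al.LP.Spec

/-!
# MP_c37a72_al, block LP, module EFN: the fixed field `E = Z^G` for `[G : g] < ∞`
-/

set_option autoImplicit false

open scoped TensorProduct
open Coalgebra HopfAlgebra

namespace Pool.Agent.Lib.MP_c37a72_al.LP

open Pool.Agent.Lib.MP_c37a72_al.LB

universe u v w

namespace EFNM

section

variable {k : Type u} {Z F : Type v} [Field k] [CharZero k] [Field Z] [Algebra k Z] [Field F]
  [IsAlgClosed F] [Algebra k F] [Algebra Z F] [IsScalarTower k Z F] [Algebra.IsAlgebraic Z F]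

/-- The fixed field. -/
def EE (k : Type u) (Z : Type v) {F : Type v} [Field k] [Field Z] [Algebra k Z] [Field F]
    [Algebra k F] [Algebra Z F] [IsScalarTower k Z F] (G : Subgroup (F ≃ₐ[k] F)) :
    IntermediateField k Z where
  carrier := {f | ∀ τ ∈ G, τ (algebraMap Z F f) = algebraMap Z F f}
  mul_mem' := by
    intro a b ha hb τ hτ
    rw [map_mul, map_mul, ha τ hτ, hb τ hτ]
  one_mem' := by
    intro τ _
    rw [map_one, map_one]
  add_mem' := by
    intro a b ha hb τ hτ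
    rw [map_add, map_add, ha τ hτ, hb τ hτ]
  zero_mem' := by
    intro τ _
    rw [map_zero, map_zero]
  algebraMap_mem' := by
    intro r τ _
    rw [← IsScalarTower.algebraMap_apply k Z F, AlgEquiv.commutes]
  inv_mem' := by
    intro a ha τ hτ
    rw [map_inv₀, map_inv₀, ha τ hτ]

theorem mem_EE {G : Subgroup (F ≃ₐ[k] F)} {f : Z} :
    f ∈ EE k Z G ↔ ∀ τ ∈ G, τ (algebraMap Z F f) = algebraMap Z F f := Iff.rfl

/-- An element of `F` fixed by `g` is in `Z`. -/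
theorem fix_mem (x : F) (h : ∀ σ ∈ gZ k Z F, σ x = x) : ∃ z : Z, algebraMap Z F z = x := by
  have : CharZero Z := charZero_of_injective_algebraMap (algebraMap k Z).injective
  have : IsAlgClosure Z F := ⟨inferInstance, inferInstance⟩
  have : IsGalois Z F := IsAlgClosure.isGalois Z F
  have h2 := (InfiniteGalois.mem_range_algebraMap_iff_fixed (k := Z) (K := F) x).mpr ?_
  · exact h2
  · intro f
    have h3 := h (f.restrictScalars k) (fun z => by
      show f (algebraMap Z F z) = _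
      exact f.commutes z)
    exact h3

variable (G : Subgroup (F ≃ₐ[k] F)) (Φ : Finset (F ≃ₐ[k] F))

open Classical in
/-- The orbit. -/
noncomputable def O (x : F) : Finset F :=
  (Φ.image (fun φ => φ x)).filter (fun o => ∃ τ ∈ G, o = τ x)

open Classical in
theorem mem_O (hΦ : ∀ z ∈ G, ∃ φ ∈ Φ, ∃ σ ∈ gZ k Z F, z = φ * σ) (z : Z) (o : F) :
    o ∈ O G Φ (algebraMap Z F z) ↔ ∃ τ ∈ G, o = τ (algebraMap Z F z) := by
  unfold O
  rw [Finset.mem_filter]
  constructor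
  · exact fun h => h.2
  · rintro ⟨τ, hτ, h⟩
    refine ⟨?_, τ, hτ, h⟩
    obtain ⟨φ, hφ, σ, hσ, e⟩ := hΦ τ hτ
    rw [Finset.mem_image]
    refine ⟨φ, hφ, ?_⟩
    rw [h, e]
    show φ _ = φ (σ (algebraMap Z F z))
    rw [hσ z]

/-- The orbit polynomial. -/
noncomputable def P (x : F) : Polynomial F :=
  ∏ o ∈ O G Φ x, (Polynomial.X - Polynomial.C o)

theorem P_monic (x : F) : (P G Φ x).Monic :=
  Polynomial.monic_prod_of_monic _ _ (fun o _ => Polynomial.monic_X_sub_C o)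

theorem P_deg (x : F) : (P G Φ x).natDegree ≤ Φ.card := by
  classical
  unfold P
  rw [Polynomial.natDegree_prod_of_monic _ _ (fun o _ => Polynomial.monic_X_sub_C o)]
  simp only [Polynomial.natDegree_X_sub_C, Finset.sum_const, smul_eq_mul, mul_one]
  unfold O
  exact (Finset.card_filter_le _ _).trans Finset.card_image_le

theorem P_root (hΦ : ∀ z ∈ G, ∃ φ ∈ Φ, ∃ σ ∈ gZ k Z F, z = φ * σ) (z : Z) :
    (P G Φ (algebraMap Z F z)).eval (algebraMap Z F z) = 0 := by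
  unfold P
  rw [Polynomial.eval_prod]
  refine Finset.prod_eq_zero (i := algebraMap Z F z) ?_ ?_
  · rw [mem_O G Φ hΦ]
    exact ⟨1, G.one_mem, rfl⟩
  · simp

theorem P_map (hΦ : ∀ z ∈ G, ∃ φ ∈ Φ, ∃ σ ∈ gZ k Z F, z = φ * σ) (z : Z) (τ : F ≃ₐ[k] F)
    (hτ : τ ∈ G) : (P G Φ (algebraMap Z F z)).map (τ : F →+* F) = P G Φ (algebraMap Z F z) := by
  unfold P
  rw [Polynomial.map_prod]
  simp only [Polynomial.map_sub, Polynomial.map_X, Polynomial.map_C]
  refine Finset.prod_bij (fun o _ => τ o) ?_ ?_ ?_ ?_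
  · intro o ho
    rw [mem_O G Φ hΦ] at ho ⊢
    obtain ⟨ρ, hρ, e⟩ := ho
    refine ⟨τ * ρ, G.mul_mem hτ hρ, ?_⟩
    rw [e]
    rfl
  · intro a _ b _ hab
    exact τ.injective hab
  · intro o ho
    rw [mem_O G Φ hΦ] at ho
    obtain ⟨ρ, hρ, e⟩ := ho
    refine ⟨(τ⁻¹ * ρ) (algebraMap Z F z), ?_, ?_⟩
    · rw [mem_O G Φ hΦ]
      exact ⟨τ⁻¹ * ρ, G.mul_mem (G.inv_mem hτ) hρ, rfl⟩
    · rw [e]
      show τ (τ.symm (ρ (algebraMap Z F z))) = _
      rw [AlgEquiv.apply_symm_apply]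
  · intro a _
    rfl

theorem coeff_mem (hg : gZ k Z F ≤ G) (hΦ : ∀ z ∈ G, ∃ φ ∈ Φ, ∃ σ ∈ gZ k Z F, z = φ * σ) (z : Z)
    (n : ℕ) : ∃ e : EE k Z G, algebraMap Z F e = (P G Φ (algebraMap Z F z)).coeff n := by
  have h1 : ∀ τ ∈ G, τ ((P G Φ (algebraMap Z F z)).coeff n) =
      (P G Φ (algebraMap Z F z)).coeff n := by
    intro τ hτ
    have h := P_map G Φ hΦ z τ hτ
    have h2 := congrArg (fun q => Polynomial.coeff q n) h
    simp only [Polynomial.coeff_map] at h2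
    exact h2
  obtain ⟨c, hc⟩ := fix_mem (k := k) (Z := Z) _ (fun σ hσ => h1 σ (hg hσ))
  refine ⟨⟨c, ?_⟩, hc⟩
  intro τ hτ
  rw [hc, h1 τ hτ]

theorem main (hg : gZ k Z F ≤ G) (hΦ : ∀ z ∈ G, ∃ φ ∈ Φ, ∃ σ ∈ gZ k Z F, z = φ * σ) (z : Z) :
    ∃ p : Polynomial (EE k Z G), p.Monic ∧ p.natDegree ≤ Φ.card ∧ Polynomial.aeval z p = 0 := by
  have hl : P G Φ (algebraMap Z F z) ∈
      Polynomial.lifts ((algebraMap Z F).comp (algebraMap (EE k Z G) Z)) := by
    rw [Polynomial.lifts_iff_coeff_lifts]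
    intro n
    obtain ⟨e, he⟩ := coeff_mem G Φ hg hΦ z n
    exact ⟨e, he⟩
  obtain ⟨q, hq, hd, hm⟩ := Polynomial.lifts_and_natDegree_eq_and_monic hl (P_monic G Φ _)
  refine ⟨q, hm, hd.trans_le (P_deg G Φ _), ?_⟩
  apply (algebraMap Z F).injective
  rw [map_zero, Polynomial.aeval_def, Polynomial.hom_eval₂, Polynomial.eval₂_eq_eval_map, hq]
  exact P_root G Φ hΦ z

end

end EFNM

/-- The fixed field `E = Z^G`, `[G : g] < ∞`. -/
theorem specEFN (hBDG : SpecBDG.{v}) : SpecEFN.{u, v} := by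
  intro k Z F _ _ _ _ _ _ _ _ _ _ G hg hΦ
  obtain ⟨Φ, hΦ⟩ := hΦ
  have : CharZero Z := charZero_of_injective_algebraMap (algebraMap k Z).injective
  refine ⟨(EFNM.EE k Z G).toSubalgebra, ?_, ?_, ?_⟩
  · exact Field.toIsField (EFNM.EE k Z G)
  · have h := hBDG (EFNM.EE k Z G) Z Φ.card (EFNM.main G Φ hg hΦ)
    exact h
  · intro f
    exact Iff.rfl

end Pool.Agent.Lib.MP_c37a72_al.LP
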