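import Pool.Agent.Lib.MP_c37a72_al.LP.Spec

/-!
# MP_c37a72_al, block LP, module GRP (helper60)

Group theory of (1.4) - (1.6).
-/

set_option autoImplicit false

open scoped TensorProduct
open Coalgebra HopfAlgebra

namespace Pool.Agent.Lib.MP_c37a72_al.LP

open Pool.Agent.Lib.MP_c37a72_al.LB

universe u v w

namespace GRPM

section

variable {G GG : Type v} [Group G] [Group GG] {G0 g : Subgroup G} {p1 p2 : GG →* G}
  {Stb : Subgroup GG} {ch : Stb →* G}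

/-- `AAx` -/
def X (h : GD G0 g p1 p2 Stb ch) : Subgroup G where
  carrier := {a | a ∈ G0 ∧ ∀ t, p1 t = a → p2 t = 1 → t ∈ Stb}
  mul_mem' := by
    rintro a b ⟨ha, ha'⟩ ⟨hb, hb'⟩
    refine ⟨mul_mem ha hb, fun t h1 h2 => ?_⟩
    obtain ⟨u, hu1, hu2⟩ := h.surj a ha 1 (one_mem _)
    have h3 := ha' u hu1 hu2
    have h4 := hb' (u⁻¹ * t) (by rw [map_mul, map_inv, hu1, h1]; group)
      (by rw [map_mul, map_inv, hu2, h2]; group)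
    have h5 := mul_mem h3 h4
    rwa [mul_inv_cancel_left] at h5
  one_mem' := ⟨one_mem _, fun t h1 h2 => h.ker t h1 h2⟩
  inv_mem' := by
    rintro a ⟨ha, ha'⟩
    refine ⟨inv_mem ha, fun t h1 h2 => ?_⟩
    have h3 := ha' t⁻¹ (by rw [map_inv, h1, inv_inv]) (by rw [map_inv, h2, inv_one])
    exact inv_mem_iff.1 h3

/-- `AAy` -/
def Y (h : GD G0 g p1 p2 Stb ch) : Subgroup G where
  carrier := {a | a ∈ G0 ∧ ∀ t, p1 t = 1 → p2 t = a → t ∈ Stb}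
  mul_mem' := by
    rintro a b ⟨ha, ha'⟩ ⟨hb, hb'⟩
    refine ⟨mul_mem ha hb, fun t h1 h2 => ?_⟩
    obtain ⟨u, hu1, hu2⟩ := h.surj 1 (one_mem _) a ha
    have h3 := ha' u hu1 hu2
    have h4 := hb' (u⁻¹ * t) (by rw [map_mul, map_inv, hu1, h1]; group)
      (by rw [map_mul, map_inv, hu2, h2]; group)
    have h5 := mul_mem h3 h4
    rwa [mul_inv_cancel_left] at h5
  one_mem' := ⟨one_mem _, fun t h1 h2 => h.ker t h1 h2⟩
  inv_mem' := by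
    rintro a ⟨ha, ha'⟩
    refine ⟨inv_mem ha, fun t h1 h2 => ?_⟩
    have h3 := ha' t⁻¹ (by rw [map_inv, h1, inv_one]) (by rw [map_inv, h2, inv_inv])
    exact inv_mem_iff.1 h3

variable (h : GD G0 g p1 p2 Stb ch)

include h in
theorem ker_mul {t u : GG} (h1 : p1 t = p1 u) (h2 : p2 t = p2 u) (hu : u ∈ Stb) : t ∈ Stb := by
  have h3 := h.ker (t * u⁻¹) (by rw [map_mul, map_inv, h1, mul_inv_cancel])
    (by rw [map_mul, map_inv, h2, mul_inv_cancel])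
  have h4 := mul_mem h3 hu
  rwa [inv_mul_cancel_right] at h4

theorem X_wit {a : G} {t : GG} (h1 : p1 t = a) (h2 : p2 t = 1) (ht : t ∈ Stb) : a ∈ X h :=
  ⟨h1 ▸ h.mem1 t, fun _ hu1 hu2 => ker_mul h (hu1.trans h1.symm) (hu2.trans h2.symm) ht⟩

theorem Y_wit {a : G} {t : GG} (h1 : p1 t = 1) (h2 : p2 t = a) (ht : t ∈ Stb) : a ∈ Y h :=
  ⟨h2 ▸ h.mem2 t, fun _ hu1 hu2 => ker_mul h (hu1.trans h1.symm) (hu2.trans h2.symm) ht⟩

theorem X_conj {a b : G} (ha : a ∈ X h) (hb : b ∈ G0) : b * a * b⁻¹ ∈ X h := by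
  obtain ⟨u, hu1, hu2⟩ := h.surj b hb 1 (one_mem _)
  obtain ⟨t, ht1, ht2⟩ := h.surj a ha.1 1 (one_mem _)
  obtain ⟨s, hs1, -, hs3⟩ := h.tr2 u⁻¹
  have h1 : s * t * s⁻¹ ∈ Stb := ha.2 _ (by rw [map_mul, map_mul, map_inv, hs1, ht1]; group)
    (by rw [map_mul, map_mul, map_inv, ht2]; group)
  have h2 : (s * u⁻¹)⁻¹ * (s * t * s⁻¹) * (s * u⁻¹) ∈ Stb :=
    mul_mem (mul_mem (inv_mem hs3) h1) hs3
  have h3 : (s * u⁻¹)⁻¹ * (s * t * s⁻¹) * (s * u⁻¹) = u * t * u⁻¹ := by group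
  rw [h3] at h2
  exact X_wit h (by rw [map_mul, map_mul, map_inv, hu1, ht1])
    (by rw [map_mul, map_mul, map_inv, hu2, ht2]; group) h2

theorem Y_conj {a b : G} (ha : a ∈ Y h) (hb : b ∈ G0) : b * a * b⁻¹ ∈ Y h := by
  obtain ⟨u, hu1, hu2⟩ := h.surj 1 (one_mem _) b hb
  obtain ⟨t, ht1, ht2⟩ := h.surj 1 (one_mem _) a ha.1
  obtain ⟨s, -, hs2, hs3⟩ := h.tr1 u⁻¹
  have h1 : s * t * s⁻¹ ∈ Stb := ha.2 _ (by rw [map_mul, map_mul, map_inv, ht1]; group)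
    (by rw [map_mul, map_mul, map_inv, hs2, ht2]; group)
  have h2 : (s * u⁻¹)⁻¹ * (s * t * s⁻¹) * (s * u⁻¹) ∈ Stb :=
    mul_mem (mul_mem (inv_mem hs3) h1) hs3
  have h3 : (s * u⁻¹)⁻¹ * (s * t * s⁻¹) * (s * u⁻¹) = u * t * u⁻¹ := by group
  rw [h3] at h2
  exact Y_wit h (by rw [map_mul, map_mul, map_inv, hu1, ht1]; group)
    (by rw [map_mul, map_mul, map_inv, hu2, ht2]) h2

theorem X_g {z : G} (hz : z ∈ G0) : ∃ a ∈ X h, ∃ σ ∈ g, z = a * σ := by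
  obtain ⟨t, ht1, ht2⟩ := h.surj z hz 1 (one_mem _)
  obtain ⟨s, hs1, hs2, hs3⟩ := h.tr1 t⁻¹
  have h1 : t * s⁻¹ ∈ Stb := by
    have h2 := inv_mem hs3
    rwa [mul_inv_rev, inv_inv] at h2
  refine ⟨z * (p1 s)⁻¹, X_wit h (t := t * s⁻¹) (by rw [map_mul, map_inv, ht1])
    (by rw [map_mul, map_inv, ht2, hs2]; group) h1, p1 s, hs1, by group⟩

theorem Y_g {z : G} (hz : z ∈ G0) : ∃ a ∈ Y h, ∃ σ ∈ g, z = a * σ := by
  obtain ⟨t, ht1, ht2⟩ := h.surj 1 (one_mem _) z hz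
  obtain ⟨s, hs1, hs2, hs3⟩ := h.tr2 t⁻¹
  have h1 : t * s⁻¹ ∈ Stb := by
    have h2 := inv_mem hs3
    rwa [mul_inv_rev, inv_inv] at h2
  refine ⟨z * (p2 s)⁻¹, Y_wit h (t := t * s⁻¹) (by rw [map_mul, map_inv, ht1, hs1]; group)
    (by rw [map_mul, map_inv, ht2]) h1, p2 s, hs2, by group⟩

theorem red' {σ : G} (hσ : σ ∈ g) :
    ∃ σ₁ σ₂, σ = σ₁ * σ₂ ∧ σ₁ ∈ g ∧ σ₂ ∈ g ∧ σ₁ ∈ X h ∧ σ₂ ∈ Y h := by
  obtain ⟨σ₁, h1, σ₂, h2, h3, h4, h5⟩ := h.red σ hσ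
  exact ⟨σ₁, σ₂, h3, h1, h2, ⟨h.gle h1, h4⟩, ⟨h.gle h2, h5⟩⟩

/-- `G0 = AA g` -/
theorem A_g {z : G} (hz : z ∈ G0) : ∃ a, a ∈ X h ∧ a ∈ Y h ∧ ∃ σ ∈ g, z = a * σ := by
  obtain ⟨a, ha, σ, hσ, hza⟩ := X_g h hz
  obtain ⟨b, hb, τ, hτ, hzb⟩ := Y_g h hz
  obtain ⟨σ₁, σ₂, rfl, hσ1, hσ2, hσX, hσY⟩ := red' h hσ
  obtain ⟨τ₁, τ₂, rfl, hτ1, hτ2, hτX, hτY⟩ := red' h hτ
  refine ⟨z * (τ₁ * σ₂)⁻¹, ?_, ?_, τ₁ * σ₂, mul_mem hτ1 hσ2, by group⟩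
  · have h1 : z * (τ₁ * σ₂)⁻¹ = a * σ₁ * τ₁⁻¹ := by rw [hza]; group
    rw [h1]
    exact mul_mem (mul_mem ha hσX) (inv_mem hτX)
  · have h1 : z * (τ₁ * σ₂)⁻¹ = b * (τ₁ * (τ₂ * σ₂⁻¹) * τ₁⁻¹) := by rw [hzb]; group
    rw [h1]
    exact mul_mem hb (Y_conj h (mul_mem hτY (inv_mem hσY)) (h.gle hτ1))

variable (p1 p2 ch) in
/-- `ff = ch(Ker)` -/
def ff : Subgroup G :=
  ((p1.comp Stb.subtype).ker ⊓ (p2.comp Stb.subtype).ker).map ch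

theorem mem_ff {x : G} :
    x ∈ ff p1 p2 ch ↔ ∃ s : Stb, p1 s = 1 ∧ p2 s = 1 ∧ ch s = x := by
  constructor
  · rintro ⟨s, ⟨h1, h2⟩, h3⟩
    exact ⟨s, h1, h2, h3⟩
  · rintro ⟨s, h1, h2, h3⟩
    exact ⟨s, ⟨h1, h2⟩, h3⟩

theorem conj_ff (t : Stb) {x : G} (hx : x ∈ ff p1 p2 ch) : ch t * x * (ch t)⁻¹ ∈ ff p1 p2 ch := by
  obtain ⟨s, h1, h2, rfl⟩ := mem_ff.1 hx
  refine mem_ff.2 ⟨t * s * t⁻¹, ?_, ?_, by rw [map_mul, map_mul, map_inv]⟩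
  · rw [Subgroup.coe_mul, Subgroup.coe_mul, map_mul, map_mul, h1, mul_one, ← map_mul,
      ← Subgroup.coe_mul, mul_inv_cancel, Subgroup.coe_one, map_one]
  · rw [Subgroup.coe_mul, Subgroup.coe_mul, map_mul, map_mul, h2, mul_one, ← map_mul,
      ← Subgroup.coe_mul, mul_inv_cancel, Subgroup.coe_one, map_one]

theorem X_ch {a : G} (ha : a ∈ X h) : ∃ t : Stb, p2 t = 1 ∧ ch t = a := by
  obtain ⟨t, ht1, ht2⟩ := h.surj a ha.1 1 (one_mem _)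
  have ht := ha.2 t ht1 ht2
  obtain ⟨s, hs1, hs2, hs3⟩ := h.pl1 ⟨t, ht⟩ ht2
  refine ⟨⟨t, ht⟩ * s⁻¹, ?_, ?_⟩
  · rw [Subgroup.coe_mul, map_mul, ht2, Subgroup.coe_inv, map_inv, hs2]
    group
  · rw [map_mul, map_inv, hs3, mul_inv_cancel_right]
    exact ht1

theorem Y_ch {b : G} (hb : b ∈ Y h) : ∃ t : Stb, p1 t = 1 ∧ ch t = b := by
  obtain ⟨ρ, hρ, hpl⟩ := h.pl2
  have hb' : ρ⁻¹ * b * ρ⁻¹⁻¹ ∈ Y h := Y_conj h hb (inv_mem hρ)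
  rw [inv_inv] at hb'
  obtain ⟨t, ht1, ht2⟩ := h.surj 1 (one_mem _) _ hb'.1
  have ht := hb'.2 t ht1 ht2
  obtain ⟨s, hs1, hs2, hs3⟩ := hpl ⟨t, ht⟩ ht1
  refine ⟨⟨t, ht⟩ * s⁻¹, ?_, ?_⟩
  · rw [Subgroup.coe_mul, map_mul, ht1, Subgroup.coe_inv, map_inv, hs1]
    group
  · rw [map_mul, map_inv, hs3, mul_inv_cancel_right]
    show ρ * p2 t * ρ⁻¹ = b
    rw [ht2]
    group

theorem comm_ff {a b : G} (ha : a ∈ X h) (hb : b ∈ Y h) :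
    a * b * a⁻¹ * b⁻¹ ∈ ff p1 p2 ch := by
  obtain ⟨t, ht2, rfl⟩ := X_ch h ha
  obtain ⟨u, hu1, rfl⟩ := Y_ch h hb
  refine mem_ff.2 ⟨t * u * t⁻¹ * u⁻¹, ?_, ?_, by simp only [map_mul, map_inv]⟩
  · simp only [Subgroup.coe_mul, Subgroup.coe_inv, map_mul, map_inv, hu1]
    group
  · simp only [Subgroup.coe_mul, Subgroup.coe_inv, map_mul, map_inv, ht2]
    group

/-- `ff ⊓ AA` -/
def N0 (h : GD G0 g p1 p2 Stb ch) : Subgroup G := ff p1 p2 ch ⊓ (X h ⊓ Y h)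

theorem X_le {a : G} (ha : a ∈ X h) : a ∈ G0 := ha.1

theorem N0_A {x : G} (hx : x ∈ N0 h) : x ∈ X h ⊓ Y h := hx.2

theorem N0_ff {x : G} (hx : x ∈ N0 h) : x ∈ ff p1 p2 ch := hx.1

theorem N0_conj {a x : G} (ha : a ∈ X h) (hx : x ∈ N0 h) : a * x * a⁻¹ ∈ N0 h := by
  obtain ⟨h1, h2, h3⟩ := hx
  refine ⟨?_, X_conj h h2 (X_le h ha), Y_conj h h3 (X_le h ha)⟩
  obtain ⟨t, -, rfl⟩ := X_ch h ha
  exact conj_ff t h1

theorem N0_mk {x : G} (h1 : x ∈ ff p1 p2 ch) (h2 : x ∈ X h) (h3 : x ∈ Y h) : x ∈ N0 h :=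
  ⟨h1, h2, h3⟩

theorem N0_comm {a b : G} (ha : a ∈ X h ⊓ Y h) (hb : b ∈ X h ⊓ Y h) :
    a * b * a⁻¹ * b⁻¹ ∈ N0 h := by
  obtain ⟨ha1, ha2⟩ := Subgroup.mem_inf.1 ha
  obtain ⟨hb1, hb2⟩ := Subgroup.mem_inf.1 hb
  exact N0_mk h (comm_ff h ha1 hb2) (mul_mem (mul_mem (mul_mem ha1 hb1) (inv_mem ha1))
    (inv_mem hb1)) (mul_mem (mul_mem (mul_mem ha2 hb2) (inv_mem ha2)) (inv_mem hb2))

theorem N0_g {σ a : G} (hσ : σ ∈ g) (ha : a ∈ X h ⊓ Y h) : σ * a * σ⁻¹ * a⁻¹ ∈ N0 h := by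
  obtain ⟨ha1, ha2⟩ := Subgroup.mem_inf.1 ha
  refine N0_mk h ?_ (mul_mem (X_conj h ha1 (h.gle hσ)) (inv_mem ha1))
    (mul_mem (Y_conj h ha2 (h.gle hσ)) (inv_mem ha2))
  obtain ⟨σ₁, σ₂, rfl, hσ1, hσ2, hσX, hσY⟩ := red' h hσ
  have h1 : σ₁ * σ₂ * a * (σ₁ * σ₂)⁻¹ * a⁻¹ =
      (σ₁ * (a * σ₂ * a⁻¹ * σ₂⁻¹)⁻¹ * σ₁⁻¹) * (σ₁ * a * σ₁⁻¹ * a⁻¹) := by group
  rw [h1]
  refine mul_mem ?_ (comm_ff h hσX ha2)
  obtain ⟨t, -, ht⟩ := X_ch h hσX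
  rw [← ht]
  exact conj_ff t (inv_mem (comm_ff h ha1 hσY))

/-- `(ff ⊓ AA) g`, as a subgroup of `G0` -/
def P (h : GD G0 g p1 p2 Stb ch) : Subgroup G0 where
  carrier := {z | ∃ x ∈ N0 h, ∃ σ ∈ g, (z : G) = x * σ}
  mul_mem' := by
    rintro z z' ⟨x, hx, σ, hσ, hz⟩ ⟨x', hx', σ', hσ', hz'⟩
    refine ⟨x * (σ * x' * σ⁻¹ * x'⁻¹) * x', mul_mem (mul_mem hx (N0_g h hσ (N0_A h hx'))) hx',
      σ * σ', mul_mem hσ hσ', ?_⟩
    rw [Subgroup.coe_mul, hz, hz']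
    group
  one_mem' := ⟨1, one_mem _, 1, one_mem _, by rw [mul_one]; rfl⟩
  inv_mem' := by
    rintro z ⟨x, hx, σ, hσ, hz⟩
    refine ⟨(σ⁻¹ * x⁻¹ * σ⁻¹⁻¹ * x⁻¹⁻¹) * x⁻¹,
      mul_mem (N0_g h (inv_mem hσ) (inv_mem (N0_A h hx))) (inv_mem hx), σ⁻¹, inv_mem hσ, ?_⟩
    rw [Subgroup.coe_inv, hz]
    group

theorem mem_P {z : G0} : z ∈ P h ↔ ∃ x ∈ N0 h, ∃ σ ∈ g, (z : G) = x * σ := Iff.rfl

theorem comm_P (z z' : G0) : z * z' * z⁻¹ * z'⁻¹ ∈ P h := by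
  obtain ⟨a, haX, haY, σ, hσ, hz⟩ := A_g h z.2
  obtain ⟨a', haX', haY', σ', hσ', hz'⟩ := A_g h z'.2
  have ha : a ∈ X h ⊓ Y h := ⟨haX, haY⟩
  have ha' : a' ∈ X h ⊓ Y h := ⟨haX', haY'⟩
  obtain ⟨c, hc⟩ : ∃ c, c = σ * a' * σ⁻¹ * a'⁻¹ := ⟨_, rfl⟩
  obtain ⟨d, hd⟩ : ∃ d, d = σ' * a * σ'⁻¹ * a⁻¹ := ⟨_, rfl⟩
  have hcN : c ∈ N0 h := hc ▸ N0_g h hσ ha'
  have hdN : d ∈ N0 h := hd ▸ N0_g h hσ' ha
  obtain ⟨τ, hτ⟩ : ∃ τ, τ = σ * σ' * σ⁻¹ * σ'⁻¹ := ⟨_, rfl⟩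
  have hτg : τ ∈ g := hτ ▸ mul_mem (mul_mem (mul_mem hσ hσ') (inv_mem hσ)) (inv_mem hσ')
  have hy : a⁻¹ * d⁻¹ * a'⁻¹ ∈ X h ⊓ Y h :=
    mul_mem (mul_mem (inv_mem ha) (inv_mem (N0_A h hdN))) (inv_mem ha')
  obtain ⟨e, he⟩ : ∃ e, e = τ * (a⁻¹ * d⁻¹ * a'⁻¹) * τ⁻¹ * (a⁻¹ * d⁻¹ * a'⁻¹)⁻¹ := ⟨_, rfl⟩
  have heN : e ∈ N0 h := he ▸ N0_g h hτg hy
  refine ⟨(a * c * a⁻¹) * ((a * a') * e * (a * a')⁻¹) * (a * a' * a⁻¹ * a'⁻¹) *
    (a' * d⁻¹ * a'⁻¹), mul_mem (mul_mem (mul_mem (N0_conj h haX hcN)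
      (N0_conj h (mul_mem haX haX') heN)) (N0_comm h ha ha')) (N0_conj h haX' (inv_mem hdN)),
    τ, hτg, ?_⟩
  simp only [Subgroup.coe_mul, Subgroup.coe_inv, hz, hz']
  rw [he, hc, hd, hτ]
  group

theorem P_normal : (P h).Normal := by
  constructor
  intro n hn z
  have h1 : z * n * z⁻¹ = (z * n * z⁻¹ * n⁻¹) * n := by group
  rw [h1]
  exact mul_mem (comm_P h z n) hn

theorem N0_le {x : G} (hx : x ∈ N0 h) : x ∈ G0 := hx.2.1.1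

end

end GRPM

open GRPM in
/-- **GRP**. -/
theorem specGRP : SpecGRP.{v} := by
  classical
  intro G GG _ _ G0 g p1 p2 Stb ch h
  have := P_normal h
  let _ : CommGroup (G0 ⧸ P h) :=
    { (inferInstance : Group (G0 ⧸ P h)) with
      mul_comm := by
        intro x y
        induction x using QuotientGroup.induction_on with
        | H z =>
          induction y using QuotientGroup.induction_on with
          | H z' =>
            rw [← QuotientGroup.mk_mul, ← QuotientGroup.mk_mul, QuotientGroup.eq]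
            have h1 : (z * z')⁻¹ * (z' * z) = z'⁻¹ * z⁻¹ * z'⁻¹⁻¹ * z⁻¹⁻¹ := by group
            rw [h1]
            exact comm_P h _ _ }
  -- finite generation
  have hfg : Group.FG (G0 ⧸ P h) := by
    obtain ⟨S, hS, hSg⟩ := h.fg
    rw [Group.fg_iff]
    refine ⟨{x | ∃ z : G0, (z : G) ∈ S ∧ (z : G0 ⧸ P h) = x}, ?_, ?_⟩
    · rw [eq_top_iff]
      rintro x -
      induction x using QuotientGroup.induction_on with
      | H z =>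
        have h1 : ∀ y ∈ Subgroup.closure ((S : Set G) ∪ (g : Set G)), ∃ hy : y ∈ G0,
            ((⟨y, hy⟩ : G0) : G0 ⧸ P h) ∈
              Subgroup.closure {x | ∃ z : G0, (z : G) ∈ S ∧ (z : G0 ⧸ P h) = x} := by
          intro y hy
          induction hy using Subgroup.closure_induction with
          | mem y hy =>
            rcases hy with hy | hy
            · exact ⟨hS y hy, Subgroup.subset_closure ⟨⟨y, hS y hy⟩, hy, rfl⟩⟩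
            · refine ⟨h.gle hy, ?_⟩
              have h2 : ((⟨y, h.gle hy⟩ : G0) : G0 ⧸ P h) = 1 := by
                rw [QuotientGroup.eq_one_iff]
                exact ⟨1, one_mem _, y, hy, (one_mul y).symm⟩
              rw [h2]
              exact one_mem _
          | one => exact ⟨one_mem _, one_mem _⟩
          | mul y y' _ _ hy hy' =>
            obtain ⟨h2, h3⟩ := hy
            obtain ⟨h4, h5⟩ := hy'
            exact ⟨mul_mem h2 h4, mul_mem h3 h5⟩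
          | inv y _ hy =>
            obtain ⟨h2, h3⟩ := hy
            exact ⟨inv_mem h2, inv_mem h3⟩
        obtain ⟨_, h2⟩ := h1 z (hSg z.2)
        exact h2
    · have h1 : ((S : Set G) ∩ (G0 : Set G)).Finite := S.finite_toSet.subset Set.inter_subset_left
      have h2 : ({x | ∃ z : G0, (z : G) ∈ S ∧ (z : G0 ⧸ P h) = x} : Set (G0 ⧸ P h)) ⊆
          (fun y : G => if hy : y ∈ G0 then ((⟨y, hy⟩ : G0) : G0 ⧸ P h) else 1) '' (S : Set G) := by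
        rintro x ⟨z, hz, rfl⟩
        refine ⟨z, hz, ?_⟩
        show (if hy : (z : G) ∈ G0 then ((⟨z, hy⟩ : G0) : G0 ⧸ P h) else 1) = _
        rw [dif_pos z.2]
      exact (S.finite_toSet.image _).subset h2
  obtain ⟨ι, j, _, _, p, hp, e, ⟨E⟩⟩ := CommGroup.equiv_free_prod_prod_multiplicative_zmod (G0 ⧸ P h)
  rcases isEmpty_or_nonempty j with hj | ⟨⟨j0⟩⟩
  · -- the quotient is finite
    left
    have : ∀ i, NeZero (p i ^ e i) := fun i => ⟨(pow_pos (hp i).pos _).ne'⟩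
    have : Finite (G0 ⧸ P h) := by
      have : ∀ i, Finite (Multiplicative (ZMod (p i ^ e i))) := fun i =>
        inferInstanceAs (Finite (ZMod (p i ^ e i)))
      exact Finite.of_equiv _ E.symm.toEquiv
    have := Fintype.ofFinite (G0 ⧸ P h)
    obtain ⟨Φ, hΦ⟩ := h.ch_fin
    let R : Finset G := Finset.univ.image fun x : G0 ⧸ P h => ((Quotient.out x : G0) : G)
    refine ⟨(R ×ˢ Φ).image fun x => x.1 * x.2, fun z hz => ?_⟩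
    let r : G0 := Quotient.out ((⟨z, hz⟩ : G0) : G0 ⧸ P h)
    have h1 : ((r : G0) : G0 ⧸ P h) = ((⟨z, hz⟩ : G0) : G0 ⧸ P h) := Quotient.out_eq _
    rw [QuotientGroup.eq] at h1
    obtain ⟨x, hx, σ, hσ, h2⟩ := h1
    obtain ⟨s, hs1, hs2, hs3⟩ := mem_ff.1 (N0_ff h hx)
    obtain ⟨φ, hφ, σ', hσ', h3⟩ := hΦ s hs1 hs2
    refine ⟨(r : G) * φ, ?_, σ' * σ, mul_mem hσ' hσ, ?_⟩
    · rw [Finset.mem_image]
      refine ⟨((r : G), φ), ?_, rfl⟩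
      rw [Finset.mem_product]
      refine ⟨?_, hφ⟩
      rw [Finset.mem_image]
      exact ⟨_, Finset.mem_univ _, rfl⟩
    · have h4 : (r : G)⁻¹ * z = x * σ := h2
      have h5 : z = r * (x * σ) := by rw [← h4]; group
      rw [h5, ← hs3, h3]
      group
  · -- a nonzero homomorphism to the integers
    right
    let f : G0 ⧸ P h →* Multiplicative ℤ :=
      (Pi.evalMonoidHom (fun _ : j => Multiplicative ℤ) j0).comp
        ((MonoidHom.fst _ _).comp E.toMonoidHom)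
    let F : G0 →* Multiplicative ℤ := f.comp (QuotientGroup.mk' (P h))
    let lam : G → ℤ := fun z => if hz : z ∈ G0 then Multiplicative.toAdd (F ⟨z, hz⟩) else 0
    have hlam : ∀ (z : G) (hz : z ∈ G0), lam z = Multiplicative.toAdd (F ⟨z, hz⟩) := fun z hz =>
      dif_pos hz
    have hmul : ∀ a ∈ G0, ∀ b ∈ G0, lam (a * b) = lam a + lam b := by
      intro a ha b hb
      rw [hlam a ha, hlam b hb, hlam (a * b) (mul_mem ha hb), ← toAdd_mul, ← map_mul]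
      rfl
    have hg : ∀ a ∈ g, lam a = 0 := by
      intro a ha
      rw [hlam a (h.gle ha)]
      have h1 : F ⟨a, h.gle ha⟩ = 1 := by
        show f ((⟨a, h.gle ha⟩ : G0) : G0 ⧸ P h) = 1
        have h2 : ((⟨a, h.gle ha⟩ : G0) : G0 ⧸ P h) = 1 := by
          rw [QuotientGroup.eq_one_iff]
          exact ⟨1, one_mem _, a, ha, (one_mul a).symm⟩
        rw [h2, map_one]
      rw [h1]
      rfl
    have hff : ∀ x ∈ ff p1 p2 ch, lam x = 0 := by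
      obtain ⟨Φ, hΦ⟩ := h.ch_fin
      have hG : ∀ x ∈ ff p1 p2 ch, x ∈ G0 := by
        intro x hx
        obtain ⟨s, -, -, rfl⟩ := mem_ff.1 hx
        exact h.ch_mem s
      have hval : ∀ x ∈ ff p1 p2 ch, lam x ∈ Φ.image lam := by
        intro x hx
        obtain ⟨s, hs1, hs2, hs3⟩ := mem_ff.1 hx
        obtain ⟨φ, hφ, σ, hσ, h3⟩ := hΦ s hs1 hs2
        rw [Finset.mem_image]
        refine ⟨φ, hφ, ?_⟩
        have h4 : φ = x * σ⁻¹ := by rw [← hs3, h3]; group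
        rw [h4, hmul x (hG x hx) _ (inv_mem (h.gle hσ)), hg _ (inv_mem hσ), add_zero]
      intro x hx
      have hpow : ∀ n : ℕ, lam (x ^ n) = n * lam x := by
        intro n
        induction n with
        | zero =>
          rw [pow_zero, hg 1 (one_mem _)]
          simp
        | succ n ih =>
          rw [pow_succ, hmul _ (pow_mem (hG x hx) n) _ (hG x hx), ih]
          push_cast
          ring
      by_contra hne
      have hinj : Function.Injective fun n : ℕ => lam (x ^ n) := by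
        intro n m hnm
        simp only [hpow] at hnm
        exact_mod_cast mul_right_cancel₀ hne hnm
      exact (Set.infinite_range_of_injective hinj) ((Φ.image lam).finite_toSet.subset (by
        rintro _ ⟨n, rfl⟩
        exact hval _ (pow_mem hx n)))
    refine ⟨lam, ⟨h.gle, hmul, hg⟩, ?_, ?_⟩
    · obtain ⟨x, hx⟩ := E.surjective (fun _ => Multiplicative.ofAdd 1, 1)
      obtain ⟨z, rfl⟩ := QuotientGroup.mk_surjective x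
      refine ⟨z, z.2, ?_⟩
      rw [hlam z z.2]
      have h1 : F ⟨z, z.2⟩ = Multiplicative.ofAdd 1 := by
        show (E (z : G0 ⧸ P h)).1 j0 = _
        rw [hx]
      rw [h1, toAdd_ofAdd]
      exact one_ne_zero
    · intro t ht
      obtain ⟨s, hs1, hs2, hs3⟩ := h.pl1 t ht
      rw [hs3, hmul _ (h.mem1 _) _ (h.ch_mem _), hff _ (mem_ff.2 ⟨s, hs1, hs2, rfl⟩), add_zero]

end Pool.Agent.Lib.MP_c37a72_al.LP
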