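import Pool.Agent.Lib.MP_c37a72_al.LP.SpecB

section
/-!
# MP_c37a72_al, block LP: `H2X`, from `P21` for one field to `PU.H21`
-/
set_option autoImplicit false
set_option linter.unusedSectionVars false

open scoped TensorProduct
open Coalgebra HopfAlgebra

namespace Pool.Agent.Lib.MP_c37a72_al.LP

open Pool.Agent.Lib.MP_c37a72_al.LB

universe u v w

namespace H2XM

section

variable {k : Type u} {Ω Ω' : Type v} [Field k] [Field Ω] [Algebra k Ω] [Field Ω'] [Algebra k Ω']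

theorem desc {A : Type v} [Ring A] [Algebra k A] (φ : Ω →ₐ[k] Ω') (ψ : A →ₐ[k] Ω')
    (h : ∀ a, ∃ b, φ b = ψ a) : ∃ ψ₁ : A →ₐ[k] Ω, ψ = φ.comp ψ₁ := by
  have hi : Function.Injective φ := (φ : Ω →+* Ω').injective
  let e := AlgEquiv.ofInjective φ hi
  have hc : ∀ a, ψ a ∈ φ.range := fun a => by
    obtain ⟨b, hb⟩ := h a
    exact ⟨b, hb⟩
  refine ⟨(e.symm : φ.range →ₐ[k] Ω).comp (ψ.codRestrict φ.range hc), ?_⟩
  apply AlgHom.ext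
  intro a
  have h1 := congrArg Subtype.val (e.apply_symm_apply (ψ.codRestrict φ.range hc a))
  exact h1.symm

theorem root_mem [IsAlgClosed Ω] (φ : Ω →ₐ[k] Ω') (p : Polynomial Ω) (hp : p.Monic) (t : Ω')
    (ht : p.eval₂ (φ : Ω →+* Ω') t = 0) : ∃ r, φ r = t := by
  letI : Algebra Ω Ω' := (φ : Ω →+* Ω').toAlgebra
  have hint : IsIntegral Ω t := ⟨p, hp, ht⟩
  have h1 : (minpoly Ω t).degree = 1 :=
    IsAlgClosed.degree_eq_one_of_irreducible Ω (minpoly.irreducible hint)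
  obtain ⟨r, hr⟩ := minpoly.mem_range_of_degree_eq_one Ω t h1
  exact ⟨r, hr⟩

/-- points of a finite `F2`-algebra descend, if they do on `F2` -/
theorem desc_fin [IsAlgClosed Ω] {F2 A : Type v} [Field F2] [Algebra k F2] [Ring A] [Algebra k A]
    [Algebra F2 A] [Module.Finite F2 A] (φ : Ω →ₐ[k] Ω') (ξ₁ : F2 →ₐ[k] Ω) (κ : A →ₐ[k] Ω')
    (h : ∀ c, κ (algebraMap F2 A c) = φ (ξ₁ c)) (a : A) : ∃ b, φ b = κ a := by
  obtain ⟨p, hp, hp0⟩ := IsIntegral.of_finite F2 a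
  refine root_mem φ (p.map (ξ₁ : F2 →+* Ω)) (hp.map _) _ ?_
  have h1 : (κ : A →+* Ω').comp (algebraMap F2 A) = (φ : Ω →+* Ω').comp (ξ₁ : F2 →+* Ω) :=
    RingHom.ext h
  have h2 := congrArg (κ : A →+* Ω') hp0
  rw [Polynomial.hom_eval₂, map_zero, h1] at h2
  rw [Polynomial.eval₂_map]
  exact h2

end

end H2XM

open H2XM in
theorem specH2X (hEQV : SpecEQV.{u, v}) (hHGT : SpecHGT.{u, v}) (hTPX : SpecTPX.{u, v})
    (hALF : PU.SpecALF.{u, v}) (hINV : PU.SpecINV.{u, v}) : SpecH2X.{u, v} := by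
  intro k Z Q F2 R2 _ _ _ _ _ _ _ _ _ _ _ _ _ _ _ _ jF D M K W hF hLb F _ _ _ _ _ _ lam hlam
    Ω _ _ _ _ _ _ xt yt hξ0 h21
  intro Ω' _ _ _ x y z ξ ξ' hξ hξ' κ κ' hκ hκ' a ha hz w hw v b hb hbv hv
  have halgfin : Module.Finite F2 K := inferInstance
  -- the embedding
  obtain ⟨φ, hφ⟩ : ∃ φ : Ω →ₐ[k] Ω', ∀ c : F2, φ (algebraMap F2 Ω c) = ξ c := by
    letI : Algebra F2 Ω' := (ξ : F2 →+* Ω').toAlgebra
    let φ0 : Ω →ₐ[F2] Ω' := IsAlgClosed.lift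
    refine ⟨{ φ0.toRingHom with
      commutes' := fun c => ?_ }, fun c => φ0.commutes c⟩
    show φ0 (algebraMap k Ω c) = algebraMap k Ω' c
    rw [IsScalarTower.algebraMap_apply k F2 Ω, φ0.commutes]
    exact ξ.commutes c
  -- `x`, `y`
  have hx : ∀ c, x c = φ (rZ Z xt c) := fun c => by
    have h1 := hξ c 1
    have h2 := hξ0 c 1
    rw [map_one, mul_one] at h1 h2
    rw [← h1, ← hφ, ← h2]
    rfl
  have hy : ∀ c, y c = φ (rZ Z yt c) := fun c => by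
    have h1 := hξ 1 c
    have h2 := hξ0 1 c
    rw [map_one, one_mul] at h1 h2
    rw [← h1, ← hφ, ← h2]
    rfl
  -- `κ`
  obtain ⟨κ₁, hκ₁⟩ := desc φ κ (desc_fin φ (IsScalarTower.toAlgHom k F2 Ω) κ (fun c => by
    rw [hκ]; exact (hφ c).symm))
  have hκ₁F : ∀ c, kF κ₁ c = algebraMap F2 Ω c := fun c => by
    apply (φ : Ω →+* Ω').injective
    show φ (κ₁ (algebraMap F2 K c)) = φ (algebraMap F2 Ω c)
    rw [hφ, ← hκ c, hκ₁]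
    rfl
  -- `z`
  obtain ⟨xt', hxt', hza⟩ := hz
  obtain ⟨xt₁, hxt₁, hxt₁'⟩ := hALF.1 k Z F Ω Ω' φ (rZ Z xt) xt' (fun c => by rw [hxt', hx])
  -- `ξ'`
  have hξ'r : ∀ f, ∃ g, φ g = ξ' f := by
    have h1 : ∀ t : Z ⊗[k] Z, ∃ g, φ g = ξ' (jF t) := by
      intro t
      induction t using TensorProduct.induction_on with
      | zero => exact ⟨0, by rw [map_zero, map_zero, map_zero]⟩
      | add s t hs ht =>
        obtain ⟨g, hg⟩ := hs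
        obtain ⟨g', hg'⟩ := ht
        exact ⟨g + g', by rw [map_add, map_add, map_add, hg, hg']⟩
      | tmul c d =>
        refine ⟨xt₁ (a (algebraMap Z F c)) * rZ Z yt d, ?_⟩
        rw [map_mul, ← hy, ← hxt₁', hξ', hza]
    intro f
    obtain ⟨p, q, hq, he⟩ := hF.surj f
    obtain ⟨gp, hgp⟩ := h1 p
    obtain ⟨gq, hgq⟩ := h1 q
    have hq0 : jF q ≠ 0 := hF.ne' hq
    refine ⟨gp / gq, ?_⟩
    have h2 : ξ' f * ξ' (jF q) = ξ' (jF p) := by rw [← map_mul, he]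
    have h3 : ξ' (jF q) ≠ 0 := (map_ne_zero_iff ξ' (ξ' : F2 →+* Ω').injective).2 hq0
    rw [map_div₀, hgp, hgq, ← h2, mul_div_cancel_right₀ _ h3]
  obtain ⟨ξ₁, hξ₁⟩ := desc φ ξ' hξ'r
  obtain ⟨κ'₁, hκ'₁⟩ := desc φ κ' (desc_fin φ ξ₁ κ' (fun c => by rw [hκ', hξ₁]; rfl))
  have hκ'₁F : ∀ c, kF κ'₁ c = ξ₁ c := fun c => by
    apply (φ : Ω →+* Ω').injective
    show φ (κ'₁ (algebraMap F2 K c)) = φ (ξ₁ c)
    have h1 := hκ' c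
    rw [hκ'₁, hξ₁] at h1
    exact h1
  -- `w`, `v`
  subst hκ₁ hκ'₁
  obtain ⟨w₁, hw₁s, hw₁⟩ := hALF.2.1 k Z Q F2 R2 Ω Ω' D K φ κ₁ w hw.1
  obtain ⟨v₁, hv₁s, hv₁⟩ := hALF.2.1 k Z Q F2 R2 Ω Ω' D K φ κ'₁ v hv
  have hw₁' : w = φ.comp w₁ := AlgHom.ext hw₁
  have hv₁' : v = φ.comp v₁ := AlgHom.ext hv₁
  subst hw₁' hv₁'
  obtain ⟨hI1, hI2⟩ := hINV k Z Q F2 R2 F D K (Lab F Z D W) (G0 F Z D W) lam 0 Ω Ω' φ
  have hw' := (hI2 κ₁ w₁).1.2 hw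
  have hbv' := ((hI1 v₁ w₁).1 b).2 hbv
  -- in `Ω`
  obtain ⟨hEa, hEb, hEc, hEd, hEe, hEf, hEg, hEh, hEi⟩ := hEQV k Z Q F2 R2 jF D M K W hLb F Ω
  obtain ⟨hH1, hH2, hH3, hH4, hH5, hH6, hH7⟩ := hHGT k Z Q F2 R2 jF D M K W hLb F lam hlam Ω
  obtain ⟨hT1, hT2, hT3⟩ := hTPX k Z Q F2 R2 jF D M K W hF hLb F lam hlam Ω
  have hLG : ∀ τ ∈ Lab F Z D W, τ ∈ G0 F Z D W := fun τ hτ =>
    Subgroup.subset_closure (Or.inl hτ)
  obtain ⟨σ, hσ, hσxt⟩ := hEi xt xt₁ (fun c => (hxt₁ c).symm)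
  have hσG : σ ∈ G0 F Z D W := hlam.gle hσ
  have haG := hLG a ha
  have hbG := hLG b hb
  have htop : Top F Z D W lam κ₁ w₁ := ⟨hw'.1, fun u n hu ⟨wt, hwt, τ, hτ, hτ', hn⟩ => by
    rw [← hn]
    exact hw'.2 u hu τ hτ ⟨wt, hwt, hτ'⟩⟩
  obtain ⟨v', hv'⟩ := hT1 κ'₁
  obtain ⟨wt, hwt, hwtb⟩ := hbv'
  have hHb : Hgt F Z D W lam v₁ w₁ (lam b) := ⟨wt, hwt, b, hbG, hwtb, rfl⟩
  have hE1 : Eqv F Z D W w₁ v₁ := ⟨wt, hwt, b, hbG, hwtb⟩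
  have hE2 : Eqv F Z D W v₁ v' := hEf κ'₁ v₁ v' hv₁s hv'.1
  have hP1 : Pr jF (kF κ₁) (rZ Z xt) (rZ Z yt) := fun c d => by
    rw [hκ₁F]
    exact hξ0 c d
  have hP2 : Pr jF (kF κ'₁) (rZ Z (cmp xt (σ * a))) (rZ Z yt) := fun c d => by
    apply (φ : Ω →+* Ω').injective
    show φ (kF κ'₁ (jF (c ⊗ₜ[k] d))) = φ (xt (σ (a (algebraMap Z F c))) * rZ Z yt d)
    have h1 : φ (ξ₁ (jF (c ⊗ₜ[k] d))) = ξ' (jF (c ⊗ₜ[k] d)) := by rw [hξ₁]; rfl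
    rw [hκ'₁F, h1, hξ', hza, hy, map_mul, hxt₁', hσxt]
  have hH := h21 (σ * a) (mul_mem hσG haG) κ₁ κ'₁ w₁ v' hP1 hP2 htop hv' (hEd _ _ _ hE1 hE2)
  rw [hlam.mul σ hσG a haG, hlam.gz σ hσ, zero_add] at hH
  obtain ⟨m, hm⟩ := (hH6 v' v₁).1 (hEc _ _ hE2)
  have hm0 := hv'.2 v₁ m hv₁s hm
  have hfin := hH2 v₁ w₁ _ _ hHb (hH4 w₁ v' v₁ _ _ hH hm)
  rw [hfin]
  linarith

end Pool.Agent.Lib.MP_c37a72_al.LP
end

section
/-!
# MP_c37a72_al, block LP, module LBY: the abstract data from `H`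
-/
set_option autoImplicit false

open scoped TensorProduct
open Coalgebra HopfAlgebra

namespace Pool.Agent.Lib.MP_c37a72_al.LP

open Pool.Agent.Lib.MP_c37a72_al.LB

universe u v w

theorem specLBY (hR2S : SpecR2S.{u, v}) (hE0X : SpecE0X.{u, v}) (hMK : SpecMK.{u, v})
    (hBIF : SpecBIF.{u, v}) (hM2D : SpecM2D.{u, v}) (hSYM : SpecSYM.{u, v})
    (hR1L : SpecR1L.{u, v}) (hR1R : SpecR1R.{u, v}) : SpecLBY.{u, v} := by
  intro k H Z Q F2 R2 _ _ _ _ _ _ _ _ _ _ _ _ _ _ _ _ ι jF j D hQ hR hS hK2 hC2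
  obtain ⟨hfin, -, -⟩ := hR2S k H Z Q F2 R2 ι jF j D hQ hR
  have hfinZ : Module.Finite Z Q := hQ.fin
  obtain ⟨El, Er, hEl, hEr⟩ := hE0X k H Z Q ι hQ
  have hmk := hMK k H Z Q F2 R2 ι jF j D hQ hR hK2 hC2
  obtain ⟨hbl, hbr⟩ := hBIF k H Z Q F2 R2 ι jF j D hQ hR hS El Er hEl hEr
  obtain ⟨hsl, hsr⟩ := hM2D k H Z Q F2 R2 ι jF j D hQ hR hS El Er hEl hEr
  have hMl : ∀ r ∈ embL j El, r ∈ M2 Z F2 ι j D := by
    rintro _ ⟨q, hq, rfl⟩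
    exact Algebra.subset_adjoin (Or.inl ⟨q, hEl.sub q hq, rfl⟩)
  have hMr : ∀ r ∈ embR j Er, r ∈ M2 Z F2 ι j D := by
    intro r hr
    have h1 : r ∈ Submodule.span F2 (WD D (embR j Er) : Set R2) :=
      Submodule.subset_span (Submodule.subset_span ⟨r, hr, 1, by rw [map_one, mul_one]⟩)
    rw [hsr] at h1
    exact h1
  refine ⟨El, hEl, hmk, hbl, hMl, hsl, ⟨1, hEl.one, map_one j⟩, ?_, ?_, ?_⟩
  · intro Ω _ _ z x h
    exact (hSYM k Z Q F2 R2 D _ _ hmk (embL j El) (embL j El) hMl hbl hsl Ω z x h).2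
  · intro Ω _ _ _ x y z ξ ξ' h1 h2 h3 w hw
    exact hR1L k H Z Q F2 R2 ι jF j D hQ hR hS El hEl Ω x y z ξ ξ' h1 h2 h3 w hw
  · intro Ω _ _ _ x y z ξ ξ' h1 h2 h3 w hw
    have h4 := (hSYM k Z Q F2 R2 D _ _ hmk (embL j El) (embR j Er) hMl hbl hsr Ω z y h3).1
    obtain ⟨w₀, hw₀, h5⟩ := hR1R k H Z Q F2 R2 ι jF j D hQ hR hS Er hEr Ω x y z ξ ξ' h1 h2 h4 w hw
    exact ⟨w₀, hw₀,
      (hSYM k Z Q F2 R2 D _ _ hmk (embR j Er) (embL j El) hMr hbr hsl Ω w w₀ h5).1⟩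

end Pool.Agent.Lib.MP_c37a72_al.LP
end

section
/-!
# MP_c37a72_al, block LP: assembly of labels part 2
-/
set_option autoImplicit false
set_option linter.unusedSectionVars false

open scoped TensorProduct
open Coalgebra HopfAlgebra

namespace Pool.Agent.Lib.MP_c37a72_al.LP

open Pool.Agent.Lib.MP_c37a72_al.LB

universe u v w

namespace LPM

/-- `lam = 0` on the labels implies `lam = 0` on `G0`. -/
theorem zero_of_lab {G : Type v} [Group G] (L : Set G) (g : Subgroup G) (lam : G → ℤ)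
    (hl : Lam (Subgroup.closure (L ∪ (g : Set G))) g lam) (h : ∀ a ∈ L, lam a = 0) :
    ∀ a ∈ Subgroup.closure (L ∪ (g : Set G)), lam a = 0 := by
  have h1 : lam 1 = 0 := hl.gz 1 (one_mem _)
  intro a ha
  induction ha using Subgroup.closure_induction with
  | mem x hx =>
    rcases hx with hx | hx
    · exact h x hx
    · exact hl.gz x hx
  | one => exact h1
  | mul x y hx hy hx' hy' => rw [hl.mul x hx y hy, hx', hy', add_zero]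
  | inv x hx hx' =>
    have h2 := hl.mul x hx x⁻¹ (inv_mem hx)
    rw [mul_inv_cancel, h1, hx', zero_add] at h2
    exact h2.symm

end LPM

theorem specLP (hLBY : SpecLBY.{u, v}) (hEQV : SpecEQV.{u, v}) (hLAM : SpecLAM.{u, v})
    (hEFN : SpecEFN.{u, v}) (hDEL : SpecDEL.{u, v}) (hTOP : SpecTOP.{u, v})
    (hH2X : SpecH2X.{u, v}) (hPUF : PU.SpecPUF.{u, v}) : SpecLP.{u, v} := by
  intro k H Z Q F2 R2 _ _ _ _ _ _ _ _ _ _ _ _ _ _ _ _ _ _ ι jF j D hQ h2 hS hK hC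
    ⟨F, iF1, iF2, iF3, iF4, iF5, hFalg, hKP⟩
  have hfin := hQ.fin
  have hfin2 : Module.Finite F2 R2 := h2.cl.finite_iZ h2.frc
  obtain ⟨E, hE, hLb⟩ := hLBY k H Z Q F2 R2 ι jF j D hQ h2 hS hK hC
  let Ω := AlgebraicClosure F2
  obtain ⟨-, -, -, -, -, -, -, hlift, -⟩ := hEQV k Z Q F2 R2 jF D _ _ _ hLb F Ω
  let ξ : F2 →ₐ[k] Ω := IsScalarTower.toAlgHom k F2 Ω
  obtain ⟨xt, hxt⟩ := hlift (ξ.comp (jF.comp
    (Algebra.TensorProduct.includeLeft : Z →ₐ[k] Z ⊗[k] Z)))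
  obtain ⟨yt, hyt⟩ := hlift (ξ.comp (jF.comp
    (Algebra.TensorProduct.includeRight : Z →ₐ[k] Z ⊗[k] Z)))
  have hPr : Pr jF (IsScalarTower.toAlgHom k F2 Ω) (rZ Z xt) (rZ Z yt) := fun a b => by
    have h1 : a ⊗ₜ[k] b = (a ⊗ₜ[k] (1 : Z)) * ((1 : Z) ⊗ₜ[k] b) := by
      rw [Algebra.TensorProduct.tmul_mul_tmul, mul_one, one_mul]
    rw [rZ_apply, rZ_apply, hxt, hyt, h1, map_mul, map_mul]
    rfl
  rcases hLAM k H Z Q F2 R2 ι jF j D _ _ _ hQ h2 hLb F hKP Ω xt yt hPr with hΦ | hlam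
  · have hg : gZ k Z F ≤ G0 F Z D (embL j E) := fun σ hσ => Subgroup.subset_closure (Or.inr hσ)
    obtain ⟨E', hE1, hE2, hE3⟩ := hEFN k Z F (G0 F Z D (embL j E)) hg hΦ
    obtain ⟨δ, hδ⟩ := hDEL k Z Q F2 R2 jF D _ _ _ h2.frc hLb F E' fun f hf => (hE3 f).1 hf
    exact ⟨E', hE1, hE2, δ, hδ⟩
  · exfalso
    obtain ⟨lam, κ₀, wt, hl, ⟨a, ha, ha0⟩, hκ₀, hst, hpl⟩ := hlam
    have h21 := hTOP k Z Q F2 R2 jF D _ _ _ h2.frc hLb F hKP lam hl Ω xt yt hPr κ₀ wt hκ₀ hst hpl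
    have hH21 := hH2X k Z Q F2 R2 jF D _ _ _ h2.frc hLb F lam hl Ω xt yt hPr h21
    have h0 := hPUF k H Z Q F2 R2 F ι jF j D hQ h2 hS (K2 Z F2 ι j D) hLb.imk E hE lam
      ⟨hl.mul, hl.gz⟩ hH21
    exact ha0 (LPM.zero_of_lab _ _ lam hl h0 a ha)

end Pool.Agent.Lib.MP_c37a72_al.LP
end
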