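import Pool.Agent.Lib.MP_c37a72_al.LP.Spec
import Pool.Agent.Lib.MP_c37a72_al.LB.TAL
import Mathlib.FieldTheory.Galois.Infinite
import Mathlib.FieldTheory.IsAlgClosed.AlgebraicClosure

section
/-!
# MP_c37a72_al, block LP, module BDG (helper60)

Bounded degree implies finite, characteristic `0`.
-/
set_option autoImplicit false

open scoped TensorProduct IntermediateField
open Coalgebra HopfAlgebra

namespace Pool.Agent.Lib.MP_c37a72_al.LP

open Pool.Agent.Lib.MP_c37a72_al.LB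

universe u v w

/-- **BDG**. -/
theorem specBDG : SpecBDG.{v} := by
  intro E Z _ _ _ _ B h
  have hint : ∀ z : Z, IsIntegral E z := by
    intro z
    obtain ⟨p, hp, -, hz⟩ := h z
    exact ⟨p, hp, hz⟩
  have hdeg : ∀ z : Z, (minpoly E z).natDegree ≤ B := by
    intro z
    obtain ⟨p, hp, hB, hz⟩ := h z
    exact (Polynomial.natDegree_le_natDegree (minpoly.min E z hp hz)).trans hB
  -- an element of maximal degree
  obtain ⟨d, ⟨z₀, hz₀⟩, hmax⟩ : ∃ d, (∃ z : Z, (minpoly E z).natDegree = d) ∧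
      ∀ z : Z, (minpoly E z).natDegree ≤ d := by
    have hne : ({d | ∃ z : Z, (minpoly E z).natDegree = d} : Set ℕ).Nonempty := ⟨_, 0, rfl⟩
    have hbd : BddAbove ({d | ∃ z : Z, (minpoly E z).natDegree = d} : Set ℕ) :=
      ⟨B, by rintro _ ⟨z, rfl⟩; exact hdeg z⟩
    exact ⟨_, Nat.sSup_mem hne hbd, fun z => le_csSup hbd ⟨z, rfl⟩⟩
  have htop : ∀ z : Z, z ∈ E⟮z₀⟯ := by
    intro z
    let K : IntermediateField E Z := IntermediateField.adjoin E {z₀, z}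
    have hfin : FiniteDimensional E K :=
      IntermediateField.finiteDimensional_adjoin fun x _ => hint x
    have hle : E⟮z₀⟯ ≤ K := by
      apply IntermediateField.adjoin.mono
      intro x hx
      rw [Set.mem_singleton_iff.1 hx]
      exact Set.mem_insert _ _
    have hzK : z ∈ K := IntermediateField.subset_adjoin E _ (by simp)
    obtain ⟨α, hα⟩ := Field.exists_primitive_element E K
    have h1 : (minpoly E α).natDegree = Module.finrank E K :=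
      (Field.primitive_element_iff_minpoly_natDegree_eq E α).1 hα
    have h2 : minpoly E α = minpoly E (α : Z) :=
      (minpoly.algebraMap_eq (algebraMap K Z).injective α).symm
    have h3 : Module.finrank E K ≤ Module.finrank E E⟮z₀⟯ := by
      rw [← h1, h2, IntermediateField.adjoin.finrank (hint z₀), hz₀]
      exact hmax _
    rw [IntermediateField.eq_of_le_of_finrank_le hle h3]
    exact hzK
  have hfin : FiniteDimensional E E⟮z₀⟯ := IntermediateField.adjoin.finiteDimensional (hint z₀)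
  have hsurj : Function.Surjective (E⟮z₀⟯).val.toLinearMap := fun z => ⟨⟨z, htop z⟩, rfl⟩
  exact Module.Finite.of_surjective _ hsurj

end Pool.Agent.Lib.MP_c37a72_al.LP
end

section
/-!
# MP_c37a72_al, block LP, module CKE: the relation `~` on the points of `K`
-/
set_option autoImplicit false

open scoped TensorProduct
open Coalgebra HopfAlgebra

namespace Pool.Agent.Lib.MP_c37a72_al.LP

open Pool.Agent.Lib.MP_c37a72_al.LB

universe u v w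

namespace CKEM

theorem mu_comp {k : Type u} {A B Ω : Type*} [Field k] [Ring A] [Algebra k A] [Ring B]
    [Algebra k B] [Field Ω] [Algebra k Ω] (t : Ω ≃ₐ[k] Ω) (f : A →ₐ[k] Ω) (g : B →ₐ[k] Ω)
    (x : A ⊗[k] B) :
    mu k ((t : Ω →ₐ[k] Ω).comp f) ((t : Ω →ₐ[k] Ω).comp g) x = t (mu k f g x) := by
  induction x using TensorProduct.induction_on with
  | zero => simp
  | tmul a b => simp
  | add x y hx hy => rw [map_add, map_add, map_add, hx, hy]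

theorem star_tc {k : Type u} {Z Q F2 R2 : Type v} [Field k] [Field Z] [Algebra k Z]
    [DivisionRing Q] [Algebra k Q] [Algebra Z Q] [IsScalarTower k Z Q] [Field F2] [Algebra k F2]
    [Ring R2] [Algebra k R2] [Algebra F2 R2] [IsScalarTower k F2 R2] {Ω : Type v} [Field Ω]
    [Algebra k Ω] (D : Q →ₐ[k] R2) (K : Subalgebra F2 R2) (κ : K →ₐ[k] Ω) (w : Z →ₐ[k] Ω)
    (t : Ω ≃ₐ[k] Ω) (h : Star D K κ w) : Star D K (tc t κ) (tc t w) := by
  intro x hx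
  have h1 := h x hx
  rw [tc, tc, mu_comp, h1, map_zero]

end CKEM

open CKEM in
theorem specCKE (hEQV : SpecEQV.{u, v}) (hCLS : SpecCLS.{u, v}) (hSTM : LB.SpecSTM.{u, v}) :
    SpecCKE.{u, v} := by
  intro k Z Q F2 R2 _ _ _ _ _ _ _ _ _ _ _ _ _ _ _ _ jF D M K W hfrc hLb F _ _ _ _ _ _ Ω _ _ _
  obtain ⟨ea, eb, ec, ed, ee, ef, eg, eh, ei⟩ := hEQV k Z Q F2 R2 jF D M K W hLb F Ω
  obtain ⟨s1, s2, s3, s4⟩ := hSTM k Z Q F2 R2 D M K hLb.imk Ω
  have h4 : ∀ (κ κ' : K →ₐ[k] Ω) (w w' : Z →ₐ[k] Ω), Star D K κ w → Star D K κ' w' →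
      (Cls F Z D W κ κ' ↔ Eqv F Z D W w w') := by
    intro κ κ' w w' hw hw'
    constructor
    · rintro ⟨v, v', hv, hv', hvv⟩
      exact ed w v w' (ef κ w v hw hv) (ed v v' w' hvv (ef κ' v' w' hv' hw'))
    · intro h
      exact ⟨w, w', hw, hw', h⟩
  refine ⟨?_, ?_, ?_, h4, ?_, ?_, ?_⟩
  · intro κ
    obtain ⟨w, hw⟩ := s3 κ
    exact ⟨w, w, hw, hw, eb w⟩
  · rintro κ κ' ⟨w, w', hw, hw', h⟩
    exact ⟨w', w, hw', hw, ec w w' h⟩
  · rintro κ κ' κ'' ⟨w, w', hw, hw', h⟩ ⟨v, v', hv, hv', h'⟩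
    exact ⟨w, v', hw, hv', ed w w' v' h (ed w' v v' (ef κ' w' v hw' hv) h')⟩
  · intro κ w t hw
    exact star_tc D K κ w t hw
  · rintro κ κ' t ⟨w, w', hw, hw', h⟩
    exact ⟨tc t w, tc t w', star_tc D K κ w t hw, star_tc D K κ' w' t hw', eg w w' t h⟩
  · intro xt yt ξ hξ a ha b hb κ' hκ'
    obtain ⟨v, hv⟩ := s3 κ'
    have h1 := s1 κ' v hv
    obtain ⟨w, hw, hwv⟩ := hCLS k Z Q F2 R2 jF D M K W hfrc hLb F Ω xt yt ξ hξ a ha b hb
      (kF κ') hκ' v h1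
    obtain ⟨κ, hκ, hs⟩ := s2 ξ w hw
    exact ⟨κ, hκ, w, v, hs, hv, hwv⟩

end Pool.Agent.Lib.MP_c37a72_al.LP
end

section
/-!
# MP_c37a72_al, block LP, module CLS: (1.3) iterated
-/
set_option autoImplicit false

open scoped TensorProduct

namespace Pool.Agent.Lib.MP_c37a72_al.LP

open Pool.Agent.Lib.MP_c37a72_al.LB

universe u v w

namespace CLSM

variable {k : Type u} {Z F Q F2 R2 Ω : Type v} [Field k] [Field Z] [Algebra k Z] [DivisionRing Q]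
  [Algebra k Q] [Algebra Z Q] [IsScalarTower k Z Q] [Field F2] [Algebra k F2] [Ring R2]
  [Algebra k R2] [Algebra F2 R2] [IsScalarTower k F2 R2] [Field F]
  [Algebra k F] [Algebra Z F] [IsScalarTower k Z F] [Field Ω] [Algebra k Ω]

/-- Points over the same pair are equal. -/
theorem pr_uniq {jF : Z ⊗[k] Z →ₐ[k] F2} (hj : IsFrc jF) {ξ ξ' : F2 →ₐ[k] Ω}
    {x y : Z →ₐ[k] Ω} (h : Pr jF ξ x y) (h' : Pr jF ξ' x y) : ξ = ξ' := by
  have h1 : ∀ t, ξ (jF t) = ξ' (jF t) := by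
    intro t
    induction t using TensorProduct.induction_on with
    | zero => simp
    | tmul a b => rw [h a b, h' a b]
    | add a b ha hb => rw [map_add, map_add, map_add, ha, hb]
  ext c
  obtain ⟨a, b, hb, hab⟩ := hj.surj c
  have h2 : ξ (c * jF b) = ξ' (c * jF b) := by rw [hab, h1]
  rw [map_mul, map_mul, h1] at h2
  refine mul_right_cancel₀ ?_ h2
  intro h0
  have h3 : jF b = 0 := ξ'.toRingHom.injective (by
    change ξ' (jF b) = ξ' 0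
    rw [h0, map_zero])
  exact hb (hj.inj (by rw [h3, map_zero]))

/-- One step: `τ` a label, an element of `g`, or the inverse of one. -/
theorem step {D : Q →ₐ[k] R2} {W : Submodule k R2}
    (hs : ∀ (Ω : Type v) [Field Ω] [Algebra k Ω] (z x : Z →ₐ[k] Ω), Rel D W z x → Rel D W x z)
    (ut : F →ₐ[k] Ω) (c τ : F ≃ₐ[k] F)
    (hτ : τ ∈ Lab F Z D W ∪ (gZ k Z F : Set (F ≃ₐ[k] F))) :
    (rZ Z (cmp ut (c * τ)) = rZ Z (cmp ut c) ∨
      Rel D W (rZ Z (cmp ut (c * τ))) (rZ Z (cmp ut c))) ∧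
    (rZ Z (cmp ut (c * τ⁻¹)) = rZ Z (cmp ut c) ∨
      Rel D W (rZ Z (cmp ut (c * τ⁻¹))) (rZ Z (cmp ut c))) := by
  have key : ∀ c : F ≃ₐ[k] F, τ ∈ Lab F Z D W →
      Rel D W (rZ Z (cmp ut (c * τ))) (rZ Z (cmp ut c)) := by
    intro c hτ t ht
    have h1 := hτ t ht
    rw [LABM.mu_comp (cmp ut c) (rs Z τ) (rs Z 1) _ _ (fun a => rfl) (fun a => rfl), h1, map_zero]
  rcases hτ with hτ | hτ
  · refine ⟨Or.inr (key c hτ), Or.inr ?_⟩
    have h1 := key (c * τ⁻¹) hτ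
    rw [inv_mul_cancel_right] at h1
    exact hs Ω _ _ h1
  · have h1 : ∀ σ ∈ gZ k Z F, rZ Z (cmp ut (c * σ)) = rZ Z (cmp ut c) := by
      intro σ hσ
      ext a
      change ut (c (σ (algebraMap Z F a))) = ut (c (algebraMap Z F a))
      rw [hσ a]
    exact ⟨Or.inl (h1 τ hτ), Or.inl (h1 τ⁻¹ (inv_mem hτ))⟩

end CLSM

open CLSM in
theorem specCLS (hEQV : SpecEQV.{u, v}) (hXIP : LB.SpecXIP.{u, v}) : SpecCLS.{u, v} := by
  intro k Z Q F2 R2 _ _ _ _ _ _ _ _ _ _ _ _ _ _ _ _ jF D M K W hj hL F _ _ _ _ _ _ Ω _ _ _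
    xt yt ξ hξ
  obtain ⟨-, hrefl, -, htrans, hrel, -, -, -, -⟩ := hEQV k Z Q F2 R2 jF D M K W hL F Ω
  have hex : ∀ a b : F ≃ₐ[k] F, ∃ ξ' : F2 →ₐ[k] Ω,
      Pr jF ξ' (rZ Z (cmp xt a)) (rZ Z (cmp yt b)) := by
    intro a b
    obtain ⟨ξ', h⟩ := (hXIP k Z F2 jF hj F Ω ξ xt yt hξ).2 a b
    exact ⟨ξ', h⟩
  -- one step on the left
  have hl : ∀ (a c b : F ≃ₐ[k] F), (rZ Z (cmp xt (a * c)) = rZ Z (cmp xt a) ∨
      Rel D W (rZ Z (cmp xt (a * c))) (rZ Z (cmp xt a))) →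
      (∀ ξ' : F2 →ₐ[k] Ω, Pr jF ξ' (rZ Z (cmp xt a)) (rZ Z (cmp yt b)) →
        ∀ v : Z →ₐ[k] Ω, Mul D ξ' v → ∃ w : Z →ₐ[k] Ω, Mul D ξ w ∧ Eqv F Z D W w v) →
      (∀ ξ' : F2 →ₐ[k] Ω, Pr jF ξ' (rZ Z (cmp xt (a * c))) (rZ Z (cmp yt b)) →
        ∀ v : Z →ₐ[k] Ω, Mul D ξ' v → ∃ w : Z →ₐ[k] Ω, Mul D ξ w ∧ Eqv F Z D W w v) := by
    intro a c b h ih ξ' hξ' v hv
    rcases h with h | h
    · rw [h] at hξ'
      exact ih ξ' hξ' v hv
    · obtain ⟨ξ'', hξ''⟩ := hex a b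
      obtain ⟨w₀, hw₀, hr⟩ := hL.r1l Ω _ _ _ ξ'' ξ' hξ'' hξ' h v hv
      obtain ⟨w, hw, he⟩ := ih ξ'' hξ'' w₀ hw₀
      exact ⟨w, hw, htrans _ _ _ he (hrel _ _ hr)⟩
  have hr : ∀ (a b c : F ≃ₐ[k] F), (rZ Z (cmp yt (b * c)) = rZ Z (cmp yt b) ∨
      Rel D W (rZ Z (cmp yt (b * c))) (rZ Z (cmp yt b))) →
      (∀ ξ' : F2 →ₐ[k] Ω, Pr jF ξ' (rZ Z (cmp xt a)) (rZ Z (cmp yt b)) →
        ∀ v : Z →ₐ[k] Ω, Mul D ξ' v → ∃ w : Z →ₐ[k] Ω, Mul D ξ w ∧ Eqv F Z D W w v) →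
      (∀ ξ' : F2 →ₐ[k] Ω, Pr jF ξ' (rZ Z (cmp xt a)) (rZ Z (cmp yt (b * c))) →
        ∀ v : Z →ₐ[k] Ω, Mul D ξ' v → ∃ w : Z →ₐ[k] Ω, Mul D ξ w ∧ Eqv F Z D W w v) := by
    intro a b c h ih ξ' hξ' v hv
    rcases h with h | h
    · rw [h] at hξ'
      exact ih ξ' hξ' v hv
    · obtain ⟨ξ'', hξ''⟩ := hex a b
      obtain ⟨w₀, hw₀, hr⟩ := hL.r1r Ω _ _ _ ξ'' ξ' hξ'' hξ' h v hv
      obtain ⟨w, hw, he⟩ := ih ξ'' hξ'' w₀ hw₀
      exact ⟨w, hw, htrans _ _ _ he (hrel _ _ hr)⟩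
  -- induction on a
  have hA : ∀ a ∈ G0 F Z D W, ∀ ξ' : F2 →ₐ[k] Ω,
      Pr jF ξ' (rZ Z (cmp xt a)) (rZ Z (cmp yt 1)) →
        ∀ v : Z →ₐ[k] Ω, Mul D ξ' v → ∃ w : Z →ₐ[k] Ω, Mul D ξ w ∧ Eqv F Z D W w v := by
    intro a ha
    refine Subgroup.closure_induction_right (p := fun a _ => ∀ ξ' : F2 →ₐ[k] Ω,
      Pr jF ξ' (rZ Z (cmp xt a)) (rZ Z (cmp yt 1)) →
        ∀ v : Z →ₐ[k] Ω, Mul D ξ' v → ∃ w : Z →ₐ[k] Ω, Mul D ξ w ∧ Eqv F Z D W w v) ?_ ?_ ?_ ha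
    · intro ξ' hξ' v hv
      have h1 : ξ' = ξ := pr_uniq hj hξ' hξ
      rw [h1] at hv
      exact ⟨v, hv, hrefl v⟩
    · intro x _ y hy ih
      exact hl x y 1 (step hL.symm xt x y hy).1 ih
    · intro x _ y hy ih
      exact hl x y⁻¹ 1 (step hL.symm xt x y hy).2 ih
  intro a ha b hb
  refine Subgroup.closure_induction_right (p := fun b _ => ∀ ξ' : F2 →ₐ[k] Ω,
      Pr jF ξ' (rZ Z (cmp xt a)) (rZ Z (cmp yt b)) →
        ∀ v : Z →ₐ[k] Ω, Mul D ξ' v → ∃ w : Z →ₐ[k] Ω, Mul D ξ w ∧ Eqv F Z D W w v) ?_ ?_ ?_ hb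
  · exact hA a ha
  · intro x _ y hy ih
    exact hr a x y (step hL.symm yt x y hy).1 ih
  · intro x _ y hy ih
    exact hr a x y⁻¹ (step hL.symm yt x y hy).2 ih

end Pool.Agent.Lib.MP_c37a72_al.LP
end

section
/-!
# MP_c37a72_al, block LP, module DEL: `δ : E → K` with `D f - δ f` nilpotent
-/
set_option autoImplicit false

open scoped TensorProduct
open Coalgebra HopfAlgebra

namespace Pool.Agent.Lib.MP_c37a72_al.LP

open Pool.Agent.Lib.MP_c37a72_al.LB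

universe u v w

namespace DELM

/-- Composition of `mu` with a homomorphism. -/
theorem mu_comp {k : Type u} {A B R S : Type*} [Field k] [Ring A] [Algebra k A] [Ring B]
    [Algebra k B] [Ring R] [Algebra k R] [Ring S] [Algebra k S] (f : A →ₐ[k] R) (g : B →ₐ[k] R)
    (h : R →ₐ[k] S) (t : A ⊗[k] B) : mu k (h.comp f) (h.comp g) t = h (mu k f g t) := by
  induction t using TensorProduct.induction_on with
  | zero => simp
  | tmul a b => simp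
  | add x y hx hy => rw [map_add, map_add, map_add, hx, hy]

/-- Two embeddings of a field into an algebraic closure differ by an automorphism. -/
theorem emb_ext {F2 Ω K : Type*} [Field F2] [Field Ω] [IsAlgClosed Ω] [Algebra F2 Ω]
    [Algebra.IsAlgebraic F2 Ω] [Field K] [Algebra F2 K] (a b : K →ₐ[F2] Ω) :
    ∃ s : Ω ≃ₐ[F2] Ω, ∀ c, s (a c) = b c := by
  let L := a.fieldRange
  let e : K ≃ₐ[F2] L := AlgEquiv.ofInjectiveField a
  have hinj : Algebra.IsAlgebraic L Ω := Algebra.IsAlgebraic.tower_top (K := F2) L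
  let f : L →ₐ[F2] Ω := b.comp e.symm.toAlgHom
  obtain ⟨φ, hφ⟩ : ∃ φ : Ω →ₐ[F2] Ω, φ.comp (IsScalarTower.toAlgHom F2 L Ω) = f := by
    let : Algebra L Ω := inferInstance
    exact IntermediateField.exists_algHom_of_splits (E := Ω) (fun s =>
      ⟨(Algebra.IsAlgebraic.isAlgebraic s).isIntegral, IsAlgClosed.splits _⟩) f
  have hb := Algebra.IsAlgebraic.algHom_bijective φ
  refine ⟨AlgEquiv.ofBijective φ hb, fun c => ?_⟩
  have h1 := DFunLike.congr_fun hφ (e c)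
  have h2 : f (e c) = b c := by
    show b (e.symm (e c)) = b c
    rw [e.symm_apply_apply]
  rw [h2] at h1
  exact h1

/-- The same for a commutative ring which is a field. -/
theorem emb_ext' {F2 Ω K : Type*} [Field F2] [Field Ω] [IsAlgClosed Ω] [Algebra F2 Ω]
    [Algebra.IsAlgebraic F2 Ω] [Ring K] [Algebra F2 K] (hK : IsField K) (a b : K →ₐ[F2] Ω) :
    ∃ s : Ω ≃ₐ[F2] Ω, ∀ c, s (a c) = b c := by
  let : Field K := hK.toField
  exact emb_ext a b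

theorem inj_of_isField {F2 Ω K : Type*} [CommSemiring F2] [Field Ω] [Algebra F2 Ω] [Ring K]
    [Algebra F2 K] (hK : IsField K) (a : K →ₐ[F2] Ω) : Function.Injective a := by
  let : Field K := hK.toField
  exact a.toRingHom.injective

/-- Elements fixed by all automorphisms over the image of `K` are in the image of `K`. -/
theorem fixed_mem {F2 Ω K : Type*} [Field F2] [CharZero F2] [Field Ω] [IsAlgClosed Ω] [Algebra F2 Ω]
    [Algebra.IsAlgebraic F2 Ω] [Ring K] [Algebra F2 K] (a : K →ₐ[F2] Ω) (x : Ω)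
    (h : ∀ s : Ω ≃ₐ[F2] Ω, (∀ c, s (a c) = a c) → s x = x) : ∃ c, a c = x := by
  let L : IntermediateField F2 Ω := a.range.toIntermediateField fun y hy =>
    Subalgebra.inv_mem_of_algebraic a.range (x := ⟨y, hy⟩) (Algebra.IsAlgebraic.isAlgebraic _)
  have hL : ∀ y, y ∈ L ↔ ∃ c, a c = y := fun y => Iff.rfl
  have h1 : Algebra.IsAlgebraic L Ω := Algebra.IsAlgebraic.tower_top (K := F2) L
  have h0 : CharZero L := charZero_of_injective_algebraMap (algebraMap F2 L).injective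
  have hn : Normal L Ω := normal_iff.2 fun y =>
    ⟨(Algebra.IsAlgebraic.isAlgebraic y).isIntegral, IsAlgClosed.splits _⟩
  have h2 : IsGalois L Ω := isGalois_iff.2 ⟨inferInstance, hn⟩
  have h3 : x ∈ (⊥ : IntermediateField L Ω) := by
    rw [InfiniteGalois.mem_bot_iff_fixed]
    intro f
    refine h (f.restrictScalars F2) fun c => ?_
    exact f.commutes ⟨a c, (hL _).2 ⟨c, rfl⟩⟩
  obtain ⟨y, hy⟩ := IntermediateField.mem_bot.1 h3
  obtain ⟨c, hc⟩ := (hL _).1 y.2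
  exact ⟨c, hc.trans hy⟩

end DELM

theorem specDEL (hIDM : SpecIDM.{v}) (hCKE : SpecCKE.{u, v}) (hSTM : LB.SpecSTM.{u, v}) :
    SpecDEL.{u, v} := by
  intro k Z Q F2 R2 _ _ _ _ _ _ _ _ _ _ _ _ _ _ _ _ _ jF D M K W hfrc hLb F _ _ _ _ _ _ E hE
  have hMK := hLb.imk
  have hKf : IsField K := hMK.fieldK
  have : CharZero F2 := charZero_of_injective_algebraMap (algebraMap k F2).injective
  let Ω := AlgebraicClosure F2
  let ξ : F2 →ₐ[k] Ω := IsScalarTower.toAlgHom k F2 Ω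
  obtain ⟨hM1, hM2, hM3, hM4⟩ := hSTM k Z Q F2 R2 D M K hMK Ω
  obtain ⟨κ₀, hκ₀⟩ := hM4 ξ
  obtain ⟨w₀, hw₀⟩ := hM3 κ₀
  obtain ⟨hC1, hC2, hC3, hC4, hC5, hC6, hC7⟩ := hCKE k Z Q F2 R2 jF D M K W hfrc hLb F Ω
  -- equal values on `E`
  have hEq : ∀ (κ : K →ₐ[k] Ω) (w w' : Z →ₐ[k] Ω), Star D K κ w → Star D K κ w' → ∀ f ∈ E,
      w f = w' f := by
    intro κ w w' h1 h2 f hf
    obtain ⟨wt, hwt, τ, hτ, h3⟩ := (hC4 κ κ w w' h1 h2).1 (hC1 κ)
    rw [h3, hE f hf τ hτ, hwt]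
  -- `κ₀` over `F2`
  let κ₁ : K →ₐ[F2] Ω := { κ₀ with commutes' := fun c => hκ₀ c }
  have hκ₁ : ∀ c, κ₁ c = κ₀ c := fun c => rfl
  have hinj : Function.Injective κ₀ := DELM.inj_of_isField hKf κ₁
  have hval : ∀ f : E, w₀ f ∈ κ₀.range := by
    intro f
    obtain ⟨c, hc⟩ := DELM.fixed_mem κ₁ (w₀ f) (fun s hs => by
      have h1 : tc (s.restrictScalars k) κ₀ = κ₀ := by
        ext c
        exact hs c
      have h2 := hC5 κ₀ w₀ (s.restrictScalars k) hw₀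
      rw [h1] at h2
      exact (hEq κ₀ _ _ h2 hw₀ f f.2))
    exact ⟨c, hc⟩
  let δ : E →ₐ[k] K := (AlgEquiv.ofInjective κ₀ hinj).symm.toAlgHom.comp
    ((w₀.comp E.val).codRestrict κ₀.range hval)
  have hδ : ∀ f : E, κ₀ (δ f) = w₀ f := by
    intro f
    have h1 : (AlgEquiv.ofInjective κ₀ hinj) (δ f) =
        ((w₀.comp E.val).codRestrict κ₀.range hval) f :=
      (AlgEquiv.ofInjective κ₀ hinj).apply_symm_apply _
    exact congrArg Subtype.val h1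
  refine ⟨δ, fun f => ?_⟩
  -- the commutative algebra `P`
  let S : Set R2 := (K : Set R2) ∪ Set.range (DZ D Z)
  let P : Subalgebra F2 R2 := Algebra.adjoin F2 S
  have hS : ∀ x ∈ S, ∀ y ∈ S, x * y = y * x := by
    rintro x (hx | ⟨z, rfl⟩) y (hy | ⟨z', rfl⟩)
    · exact hMK.comm x hx y (hMK.le hy)
    · exact hMK.comm x hx _ (hMK.D_mem _)
    · exact (hMK.comm y hy _ (hMK.D_mem _)).symm
    · rw [← map_mul, ← map_mul, mul_comm]
  have hP : ∀ x ∈ P, ∀ y ∈ P, x * y = y * x := by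
    intro x hx y hy
    have h1 : P ≤ Subalgebra.centralizer F2 S := Algebra.adjoin_le fun y hy => by
      rw [SetLike.mem_coe, Subalgebra.mem_centralizer_iff]
      exact fun x hx => hS x hx y hy
    have h2 : P ≤ Subalgebra.centralizer F2 (P : Set R2) := Algebra.adjoin_le fun y hy => by
      rw [SetLike.mem_coe, Subalgebra.mem_centralizer_iff]
      intro x hx
      exact ((Subalgebra.mem_centralizer_iff F2).1 (h1 hx) y hy).symm
    exact (Subalgebra.mem_centralizer_iff F2).1 (h2 hy) x hx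
  have hKP : K ≤ P := fun c hc => Algebra.subset_adjoin (Or.inl hc)
  have hDP : ∀ z, DZ D Z z ∈ P := fun z => Algebra.subset_adjoin (Or.inr ⟨z, rfl⟩)
  let iK : K →ₐ[F2] P := Subalgebra.inclusion hKP
  let iZ : Z →ₐ[k] P.restrictScalars k := (DZ D Z).codRestrict (P.restrictScalars k) hDP
  let iZ' : Z →ₐ[k] P := iZ
  have hx : D (algebraMap Z Q f) - (δ f : R2) ∈ P := sub_mem (hDP f) (hKP (δ f).2)
  have key := (hIDM F2 R2 Ω P hP).2 ⟨_, hx⟩ ?_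
  · exact key.map P.val
  intro φ
  let κ' : K →ₐ[F2] Ω := φ.comp iK
  let κ : K →ₐ[k] Ω := κ'.restrictScalars k
  let w : Z →ₐ[k] Ω := (φ.restrictScalars k).comp iZ'
  have hst : Star D K κ w := by
    intro t ht
    have h1 : mu k (iK.restrictScalars k) iZ' t = 0 := by
      apply Subtype.ext
      have h2 := DELM.mu_comp (iK.restrictScalars k) iZ' (P.val.restrictScalars k) t
      have h3 : (P.val.restrictScalars k).comp (iK.restrictScalars k) = K.val.restrictScalars k := by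
        ext c
        rfl
      have h4 : (P.val.restrictScalars k).comp iZ' = DZ D Z := by
        ext c
        rfl
      rw [h3, h4, ht] at h2
      exact h2.symm
    have h5 := DELM.mu_comp (iK.restrictScalars k) iZ' (φ.restrictScalars k) t
    rw [h1, map_zero] at h5
    exact h5
  obtain ⟨s, hs⟩ := DELM.emb_ext' hKf κ₁ κ'
  have h1 : tc (s.restrictScalars k) κ₀ = κ := by
    ext c
    exact hs c
  have h2 := hC5 κ₀ w₀ (s.restrictScalars k) hw₀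
  rw [h1] at h2
  have h3 := hEq κ _ _ hst h2 f f.2
  have h4 : κ (δ f) = s (w₀ f) := by
    rw [← hδ, ← h1]
    rfl
  have h5 : φ ⟨_, hx⟩ = w f - κ (δ f) := by
    have : (⟨_, hx⟩ : P) = iZ' f - iK (δ f) := rfl
    rw [this, map_sub]
    rfl
  rw [h5, h3, h4]
  exact sub_self _

end Pool.Agent.Lib.MP_c37a72_al.LP
end

section
/-!
# MP_c37a72_al, block LP, module EQV: the relation on points
-/
set_option autoImplicit false

open scoped TensorProduct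

namespace Pool.Agent.Lib.MP_c37a72_al.LP

open Pool.Agent.Lib.MP_c37a72_al.LB

universe u v w

namespace EQVM

variable {k : Type u} {Z F Ω : Type v} [Field k] [Field Z] [Algebra k Z] [Field F] [IsAlgClosed F]
  [Algebra k F] [Algebra Z F] [IsScalarTower k Z F] [Algebra.IsAlgebraic Z F] [Field Ω]
  [Algebra k Ω]

/-- (h). -/
theorem lift [IsAlgClosed Ω] (w : Z →ₐ[k] Ω) :
    ∃ wt : F →ₐ[k] Ω, ∀ a, wt (algebraMap Z F a) = w a := by
  let _ : Algebra Z Ω := w.toRingHom.toAlgebra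
  have _ : IsScalarTower k Z Ω := IsScalarTower.of_algebraMap_eq fun c => (w.commutes c).symm
  let φ : F →ₐ[Z] Ω := IsAlgClosed.lift
  exact ⟨φ.restrictScalars k, fun a => φ.commutes a⟩

/-- (i). -/
theorem unique_lift (wt wt' : F →ₐ[k] Ω)
    (h : ∀ a : Z, wt (algebraMap Z F a) = wt' (algebraMap Z F a)) :
    ∃ σ ∈ gZ k Z F, ∀ f, wt' f = wt (σ f) := by
  have hinj : Function.Injective wt := wt.toRingHom.injective
  have hr : ∀ f, ∃ b, wt b = wt' f := by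
    intro f
    obtain ⟨p, hp, h0⟩ := Algebra.IsIntegral.isIntegral (R := Z) f
    refine LABM.mem_range (wt : F →+* Ω) (wt' f) (p.map (algebraMap Z F)) (hp.map _) ?_
    rw [Polynomial.eval₂_map]
    have h1 : (wt : F →+* Ω).comp (algebraMap Z F) = (wt' : F →+* Ω).comp (algebraMap Z F) :=
      RingHom.ext h
    rw [h1]
    have h2 := Polynomial.hom_eval₂ p (algebraMap Z F) (wt' : F →+* Ω) f
    rw [h0, map_zero] at h2
    exact h2.symm
  choose s hs using hr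
  let φ : F →ₐ[Z] F :=
    { toFun := s
      map_one' := hinj (by rw [hs, map_one, map_one])
      map_mul' := fun x y => hinj (by rw [hs, map_mul, map_mul, hs, hs])
      map_zero' := hinj (by rw [hs, map_zero, map_zero])
      map_add' := fun x y => hinj (by rw [hs, map_add, map_add, hs, hs])
      commutes' := fun a => hinj (by
        change wt (s (algebraMap Z F a)) = _
        rw [hs, h]) }
  have hb : Function.Bijective φ := Algebra.IsAlgebraic.algHom_bijective φ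
  refine ⟨(AlgEquiv.ofBijective φ hb).restrictScalars k, ?_, ?_⟩
  · intro a
    exact φ.commutes a
  · intro f
    exact (hs f).symm

end EQVM

open EQVM in
theorem specEQV (hLAB : LB.SpecLAB.{u, v}) (hR11 : LB.SpecR11.{u, v}) : SpecEQV.{u, v} := by
  intro k Z Q F2 R2 _ _ _ _ _ _ _ _ _ _ _ _ _ _ _ jF D M K W hL F _ _ _ _ _ _ Ω _ _ _
  have hg : ∀ σ ∈ gZ k Z F, σ ∈ G0 F Z D W := fun σ hσ =>
    Subgroup.subset_closure (Or.inr hσ)
  have hlab : ∀ τ ∈ Lab F Z D W, τ ∈ G0 F Z D W := fun τ hτ =>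
    Subgroup.subset_closure (Or.inl hτ)
  have ha : ∀ w w' : Z →ₐ[k] Ω, Eqv F Z D W w w' → ∀ wt : F →ₐ[k] Ω,
      (∀ a, wt (algebraMap Z F a) = w a) →
      ∃ τ ∈ G0 F Z D W, ∀ a, w' a = wt (τ (algebraMap Z F a)) := by
    rintro w w' ⟨wt₀, h0, τ₀, hτ₀, h1⟩ wt hwt
    obtain ⟨σ, hσ, h2⟩ := unique_lift (Z := Z) wt wt₀ (fun a => by rw [hwt, h0])
    refine ⟨σ * τ₀, mul_mem (hg σ hσ) hτ₀, fun a => ?_⟩
    rw [h1, h2]
    rfl
  have he : ∀ w w' : Z →ₐ[k] Ω, Rel D W w' w → Eqv F Z D W w w' := by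
    intro w w' h
    obtain ⟨wt, hwt⟩ := lift (F := F) w
    obtain ⟨τ, hτ, h1⟩ := (hLAB k Z Q F2 R2 D W hL.bf F Ω w' w wt hwt).1 h
    exact ⟨wt, hwt, τ, hlab τ hτ, h1⟩
  refine ⟨ha, ?_, ?_, ?_, he, ?_, ?_, fun w => lift w, fun wt wt' h => unique_lift wt wt' h⟩
  · intro w
    obtain ⟨wt, hwt⟩ := lift (F := F) w
    exact ⟨wt, hwt, 1, one_mem _, fun a => (hwt a).symm⟩
  · rintro w w' ⟨wt, hwt, τ, hτ, h1⟩
    refine ⟨cmp wt τ, fun a => (h1 a).symm, τ⁻¹, inv_mem hτ, fun a => ?_⟩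
    rw [cmp_apply, ← hwt a]
    change _ = wt ((τ * τ⁻¹) (algebraMap Z F a))
    rw [mul_inv_cancel]
    rfl
  · rintro w w' w'' ⟨wt, hwt, τ, hτ, h1⟩ h2
    obtain ⟨τ', hτ', h3⟩ := ha w' w'' h2 (cmp wt τ) (fun a => (h1 a).symm)
    exact ⟨wt, hwt, τ * τ', mul_mem hτ hτ', fun a => h3 a⟩
  · intro κ w w' h h'
    exact he w w' (hR11 k Z Q F2 R2 D M K hL.imk W hL.gen Ω κ w w' h h')
  · rintro w w' t ⟨wt, hwt, τ, hτ, h1⟩
    refine ⟨tc t wt, fun a => ?_, τ, hτ, fun a => ?_⟩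
    · rw [tc_apply, hwt, tc_apply]
    · rw [tc_apply, h1, tc_apply]

end Pool.Agent.Lib.MP_c37a72_al.LP
end

section
/-!
# MP_c37a72_al, block LP, module HGT (helper41)
-/
set_option autoImplicit false

open scoped TensorProduct
open Coalgebra HopfAlgebra

namespace Pool.Agent.Lib.MP_c37a72_al.LP

open Pool.Agent.Lib.MP_c37a72_al.LB

universe u v w

/-- **HGT**. -/
theorem specHGT (hEQV : SpecEQV.{u, v}) : SpecHGT.{u, v} := by
  intro k Z Q F2 R2 _ _ _ _ _ _ _ _ _ _ _ _ _ _ _ jF D M K W hLb F _ _ _ _ _ _ lam hlam Ω _ _ _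
  obtain ⟨-, -, -, -, -, -, -, hh, hi⟩ := hEQV k Z Q F2 R2 jF D M K W hLb F Ω
  have hone : lam 1 = 0 := hlam.gz 1 (one_mem _)
  have hinv : ∀ τ ∈ G0 F Z D W, lam τ⁻¹ = -lam τ := by
    intro τ hτ
    have h1 := hlam.mul τ hτ τ⁻¹ (inv_mem hτ)
    rw [mul_inv_cancel, hone] at h1
    omega
  have h1 : ∀ (w' w : Z →ₐ[k] Ω) (n : ℤ), Hgt F Z D W lam w' w n → ∀ wt : F →ₐ[k] Ω,
      (∀ a, wt (algebraMap Z F a) = w a) →
      ∃ τ ∈ G0 F Z D W, (∀ a, w' a = wt (τ (algebraMap Z F a))) ∧ lam τ = n := by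
    rintro w' w n ⟨wt0, hwt0, τ0, hτ0, hw', rfl⟩ wt hwt
    obtain ⟨σ, hσ, hσ2⟩ := hi wt wt0 (fun a => by rw [hwt, hwt0])
    refine ⟨σ * τ0, mul_mem (hlam.gle hσ) hτ0, fun a => ?_, ?_⟩
    · rw [hw', hσ2]
      rfl
    · rw [hlam.mul σ (hlam.gle hσ) τ0 hτ0, hlam.gz σ hσ, zero_add]
  have h2 : ∀ (w' w : Z →ₐ[k] Ω) (n m : ℤ), Hgt F Z D W lam w' w n →
      Hgt F Z D W lam w' w m → n = m := by
    rintro w' w n m ⟨wt, hwt, τ, hτ, hw', rfl⟩ hm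
    obtain ⟨τ', hτ', hw'', rfl⟩ := h1 w' w m hm wt hwt
    have h3 : τ⁻¹ * τ' ∈ gZ k Z F := by
      intro z
      have h4 : τ (algebraMap Z F z) = τ' (algebraMap Z F z) := by
        apply wt.toRingHom.injective
        have := (hw' z).symm.trans (hw'' z)
        exact this
      show τ.symm (τ' (algebraMap Z F z)) = _
      rw [← h4, AlgEquiv.symm_apply_apply]
    have h5 : τ' = τ * (τ⁻¹ * τ') := by rw [mul_inv_cancel_left]
    rw [h5, hlam.mul τ hτ _ (hlam.gle h3), hlam.gz _ h3, add_zero]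
  refine ⟨h1, h2, ?_, ?_, ?_, ?_, ?_⟩
  · intro w
    obtain ⟨wt, hwt⟩ := hh w
    exact ⟨wt, hwt, 1, one_mem _, fun a => (hwt a).symm, hone⟩
  · rintro w w' w'' n m ⟨wt, hwt, τ, hτ, hw', rfl⟩ hm
    obtain ⟨τ', hτ', hw'', rfl⟩ := h1 w'' w' m hm (cmp wt τ) (fun a => (hw' a).symm)
    exact ⟨wt, hwt, τ * τ', mul_mem hτ hτ', fun a => hw'' a, hlam.mul τ hτ τ' hτ'⟩
  · rintro w w' n ⟨wt, hwt, τ, hτ, hw', rfl⟩
    refine ⟨cmp wt τ, fun a => (hw' a).symm, τ⁻¹, inv_mem hτ, fun a => ?_, hinv τ hτ⟩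
    rw [← hwt]
    show _ = wt (τ (τ.symm (algebraMap Z F a)))
    rw [AlgEquiv.apply_symm_apply]
  · intro w w'
    constructor
    · rintro ⟨wt, hwt, τ, hτ, hw'⟩
      exact ⟨lam τ, wt, hwt, τ, hτ, hw', rfl⟩
    · rintro ⟨n, wt, hwt, τ, hτ, hw', -⟩
      exact ⟨wt, hwt, τ, hτ, hw'⟩
  · rintro w w' n t ⟨wt, hwt, τ, hτ, hw', hn⟩
    exact ⟨tc t wt, fun a => congrArg t (hwt a), τ, hτ, fun a => congrArg t (hw' a), hn⟩

end Pool.Agent.Lib.MP_c37a72_al.LP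
end

section
/-!
# MP_c37a72_al, block LP, module IDM: idempotents with prescribed values
-/
set_option autoImplicit false

namespace Pool.Agent.Lib.MP_c37a72_al.LP

universe u v w

namespace IDMM

variable {E P Ω : Type v} [Field E] [CommRing P] [Algebra E P] [Module.Finite E P] [Field Ω]
  [IsAlgClosed Ω] [Algebra E Ω] [Algebra.IsAlgebraic E Ω]

/-- Two points with the same kernel are conjugate. -/
theorem conj (φ φ' : P →ₐ[E] Ω) (h : RingHom.ker φ.toRingHom = RingHom.ker φ'.toRingHom) :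
    ∃ s : Ω ≃ₐ[E] Ω, φ = (s : Ω →ₐ[E] Ω).comp φ' := by
  have hart : IsArtinianRing P := IsArtinianRing.of_finite E P
  have hp : (RingHom.ker φ'.toRingHom).IsPrime := RingHom.ker_isPrime _
  have hm : (RingHom.ker φ'.toRingHom).IsMaximal := IsArtinianRing.isMaximal_of_isPrime _
  let L := P ⧸ RingHom.ker φ'.toRingHom
  let _ : Field L := Ideal.Quotient.field _
  let ψ' : L →ₐ[E] Ω := Ideal.Quotient.liftₐ _ φ' (fun a ha => ha)
  let ψ : L →ₐ[E] Ω := Ideal.Quotient.liftₐ _ φ (fun a ha => by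
    rw [← h] at ha
    exact ha)
  let _ : Algebra L Ω := ψ'.toRingHom.toAlgebra
  have : IsScalarTower E L Ω := IsScalarTower.of_algebraMap_eq fun x => (ψ'.commutes x).symm
  have : Algebra.IsAlgebraic L Ω := Algebra.IsAlgebraic.tower_top (K := E) L
  obtain ⟨Φ, hΦ⟩ := IsAlgClosed.surjective_domRestrict_of_isAlgebraic (K := E) (L := L) (E := Ω)
    (M := Ω) ψ
  have hb : Function.Bijective Φ := Algebra.IsAlgebraic.algHom_bijective Φ
  refine ⟨AlgEquiv.ofBijective Φ hb, ?_⟩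
  ext a
  have h1 := DFunLike.congr_fun hΦ (Ideal.Quotient.mk _ a)
  exact h1.symm

theorem val01 {e : P} (he : IsIdempotentElem e) (φ : P →ₐ[E] Ω) : φ e = 0 ∨ φ e = 1 := by
  have h1 : φ e * φ e = φ e := by rw [← map_mul, he.eq]
  by_cases h0 : φ e = 0
  · exact Or.inl h0
  · exact Or.inr (mul_left_cancel₀ h0 (by rw [h1, mul_one]))

theorem idem (S : Set (P →ₐ[E] Ω))
    (hS : ∀ φ ∈ S, ∀ s : Ω ≃ₐ[E] Ω, (s : Ω →ₐ[E] Ω).comp φ ∈ S) :
    ∃ e : P, e * e = e ∧ (∀ φ ∈ S, φ e = 1) ∧ ∀ φ, φ ∉ S → φ e = 0 := by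
  have hart : IsArtinianRing P := IsArtinianRing.of_finite E P
  let 𝒮 : Set (PrimeSpectrum P) := {m | ∃ φ ∈ S, RingHom.ker (φ : P →ₐ[E] Ω).toRingHom = m.asIdeal}
  obtain ⟨e, he, he2⟩ := PrimeSpectrum.exists_idempotent_basicOpen_eq_of_isClopen
    (isClopen_discrete 𝒮)
  have h3 : ∀ φ : P →ₐ[E] Ω, (⟨RingHom.ker φ.toRingHom, RingHom.ker_isPrime _⟩ :
      PrimeSpectrum P) ∈ 𝒮 ↔ φ e ≠ 0 := by
    intro φ
    rw [he2, PrimeSpectrum.basicOpen_eq_zeroLocus_compl]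
    simp only [Set.mem_compl_iff, PrimeSpectrum.mem_zeroLocus, Set.singleton_subset_iff]
    exact Iff.rfl
  refine ⟨e, he.eq, ?_, ?_⟩
  · intro φ hφ
    have h4 := (h3 φ).1 ⟨φ, hφ, rfl⟩
    exact (val01 he φ).resolve_left h4
  · intro φ hφ
    by_contra hcon
    obtain ⟨φ', hφ', hk⟩ := (h3 φ).2 hcon
    obtain ⟨s, hs⟩ := conj φ φ' hk.symm
    exact hφ (hs ▸ hS φ' hφ' s)

theorem nil (x : P) (hx : ∀ φ : P →ₐ[E] Ω, φ x = 0) : IsNilpotent x := by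
  have hart : IsArtinianRing P := IsArtinianRing.of_finite E P
  rw [nilpotent_iff_mem_prime]
  intro J hJ
  have hm : J.IsMaximal := IsArtinianRing.isMaximal_of_isPrime _
  let L := P ⧸ J
  let _ : Field L := Ideal.Quotient.field _
  have hfin : Module.Finite E L := inferInstance
  have halg : Algebra.IsAlgebraic E L := inferInstance
  let ψ : L →ₐ[E] Ω := IsAlgClosed.lift
  have h1 := hx (ψ.comp (Ideal.Quotient.mkₐ E J))
  have h2 : (Ideal.Quotient.mk J x) = 0 := by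
    apply ψ.toRingHom.injective
    rw [map_zero]
    exact h1
  exact Ideal.Quotient.eq_zero_iff_mem.1 h2

end IDMM

open IDMM in
theorem specIDM : SpecIDM.{v} := by
  intro E R Ω _ _ _ _ _ _ _ _ P hP
  let _ : CommRing P := { (inferInstance : Ring P) with
    mul_comm := fun a b => Subtype.ext (hP a a.2 b b.2) }
  have hfin : Module.Finite E P := by
    have : IsNoetherian E R := isNoetherian_of_isNoetherianRing_of_finite E R
    exact Module.Finite.of_injective (P.val.toLinearMap) Subtype.val_injective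
  exact ⟨fun S hS => idem S hS, fun x hx => nil x hx⟩

end Pool.Agent.Lib.MP_c37a72_al.LP
end

section
/-!
# MP_c37a72_al, block LP, module LAM: finite index, or the function `lam`
-/
set_option autoImplicit false

open scoped TensorProduct
open Coalgebra HopfAlgebra

namespace Pool.Agent.Lib.MP_c37a72_al.LP

open Pool.Agent.Lib.MP_c37a72_al.LB

universe u v w

namespace LAMM

section Basic

variable {k : Type u} {Z Q F2 R2 F Ω : Type v} [Field k] [Field Z] [Algebra k Z] [DivisionRing Q]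
  [Algebra k Q] [Algebra Z Q] [IsScalarTower k Z Q] [Field F2] [Algebra k F2] [Ring R2]
  [Algebra k R2] [Algebra F2 R2] [IsScalarTower k F2 R2] [Field F] [Algebra k F] [Algebra Z F]
  [IsScalarTower k Z F] [Field Ω] [Algebra k Ω]

theorem gZ_le (D : Q →ₐ[k] R2) (W : Submodule k R2) : gZ k Z F ≤ G0 F Z D W := fun _ hσ =>
  Subgroup.subset_closure (Or.inr hσ)

theorem lab_le (D : Q →ₐ[k] R2) (W : Submodule k R2) {τ : F ≃ₐ[k] F} (h : τ ∈ Lab F Z D W) :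
    τ ∈ G0 F Z D W :=
  Subgroup.subset_closure (Or.inl h)

theorem pr_tc (jF : Z ⊗[k] Z →ₐ[k] F2) {K : Subalgebra F2 R2} (κ : K →ₐ[k] Ω) (xt yt : F →ₐ[k] Ω)
    (h : Pr jF (kF κ) (rZ Z xt) (rZ Z yt)) (t : Ω ≃ₐ[k] Ω) (a b : F ≃ₐ[k] F)
    (ha : ∀ f, t (xt f) = xt (a f)) (hb : ∀ f, t (yt f) = yt (b f)) :
    Pr jF (kF (tc t κ)) (rZ Z (cmp xt a)) (rZ Z (cmp yt b)) := by
  intro x y
  have h1 := h x y
  simp only [kF_apply, rZ_apply] at h1
  simp only [kF_apply, tc_apply, rZ_apply, cmp_apply]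
  rw [h1, map_mul, ha, hb]

end Basic

end LAMM

theorem specLAM (hGRP : SpecGRP.{v}) (hTEX : SpecTEX.{u, v}) (hCKE : SpecCKE.{u, v})
    (hSCH : SpecSCH.{u, v}) (hPL2 : SpecPL2.{u, v}) (hLCL : LB.SpecLCL.{u, v}) :
    SpecLAM.{u, v} := by
  intro k H Z Q F2 R2 _ _ _ _ _ _ _ _ _ _ _ _ _ _ _ _ _ _ _ _ ι jF j D M K W hcq hr2 hLb F _ _ _ _
    _ _ hK Ω _ _ _ _ _ _ xt yt hpr
  obtain ⟨κ₀, wt, hκ, hst, hP1, ρ, hρ, hP2⟩ := hPL2 k H Z Q F2 R2 ι jF j D M K W hcq hr2 hLb F hK Ω xt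
    yt hpr
  have hfrc := hr2.frc
  have hpr0 : Pr jF (kF κ₀) (rZ Z xt) (rZ Z yt) := by
    intro a b
    rw [hκ]
    exact hpr a b
  obtain ⟨hC1, hC2, hC3, hC4, hC5, hC6, hC7⟩ := hCKE k Z Q F2 R2 jF D M K W hfrc hLb F Ω
  obtain ⟨Stb, ch, hS1, hS2, hS3, hS4⟩ := hSCH k Z Q F2 R2 jF D M K W hfrc hLb F hK Ω xt yt κ₀ wt hpr0
    hst
  obtain ⟨-, -, -, -, hT⟩ := hTEX k Z F2 jF hfrc F Ω xt yt hpr
  obtain ⟨-, ⟨S, hSl, hSf⟩, -⟩ := hLCL k Z Q F2 R2 D W hLb.bf F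
  have hwt : Function.Injective wt := wt.toRingHom.injective
  -- the kernel
  have hker : ∀ t : GGt (G0 F Z D W) xt yt, (∀ c, pt (G0 F Z D W) xt yt t (κ₀ c) = κ₀ c) → t ∈ Stb := by
    intro t ht
    rw [hS1]
    have : tc (pt (G0 F Z D W) xt yt t) κ₀ = κ₀ := by
      ext c
      exact ht c
    rw [this]
    exact hC1 κ₀
  have hker' : ∀ t : GGt (G0 F Z D W) xt yt, pa (G0 F Z D W) xt yt t = 1 →
      pb (G0 F Z D W) xt yt t = 1 → t ∈ Stb := by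
    intro t h1 h2
    apply hker
    apply hK.fix Ω xt yt κ₀ hpr0
    · intro f
      rw [pt_xt, h1]
      rfl
    · intro f
      rw [pt_yt, h2]
      rfl
  -- `ch` is determined by `wt`
  have hch : ∀ (t : Stb) (n : F ≃ₐ[k] F), (∀ f, pt (G0 F Z D W) xt yt t (wt f) = wt (n f)) →
      ch t = n := by
    intro t n hn
    ext f
    apply hwt
    rw [← hS3, hn]
  have hGD : GD (G0 F Z D W) (gZ k Z F) (pa (G0 F Z D W) xt yt) (pb (G0 F Z D W) xt yt) Stb ch := by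
    refine ⟨LAMM.gZ_le D W, ?_, pa_mem, pb_mem, ?_, hker', ?_, ?_, hS2, hS4, ?_, ?_, ?_⟩
    · refine ⟨S, fun s hs => LAMM.lab_le D W (hSl s hs), ?_⟩
      apply (Subgroup.closure_le _).2
      rintro τ (hτ | hτ)
      · obtain ⟨s, hs, σ, hσ, rfl⟩ := hSf τ hτ
        exact mul_mem (Subgroup.subset_closure (Or.inl hs)) (Subgroup.subset_closure (Or.inr hσ))
      · exact Subgroup.subset_closure (Or.inr hτ)
    · intro a ha b hb
      obtain ⟨t, h1, h2⟩ := hT a b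
      exact ⟨⟨(t, a, b), ha, hb, h1, h2⟩, rfl, rfl⟩
    · intro t
      obtain ⟨κ, hκ1, hκ2⟩ := hC7 xt yt (IsScalarTower.toAlgHom k F2 Ω) hpr _ (pa_mem t) _ (pb_mem t)
        (tc (pt (G0 F Z D W) xt yt t) κ₀)
        (LAMM.pr_tc jF κ₀ xt yt hpr0 _ _ _ (pt_xt t) (pt_yt t))
      have hprκ : Pr jF (kF κ) (rZ Z xt) (rZ Z yt) := by
        intro a b
        rw [hκ1]
        exact hpr a b
      obtain ⟨σ, hσ, hσ'⟩ := hK.tr1 Ω xt yt κ κ₀ hprκ hpr0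
      obtain ⟨t₁, h1, h2⟩ := hT σ 1
      have h3 := hσ' t₁ h1 h2
      refine ⟨⟨(t₁, σ, 1), LAMM.gZ_le D W hσ, one_mem _, h1, h2⟩, hσ, rfl, ?_⟩
      rw [hS1]
      have h4 := hC6 _ _ t₁ hκ2
      have h5 : tc t₁ κ = κ₀ := by
        ext c
        exact h3 c
      rw [h5] at h4
      exact hC2 _ _ h4
    · intro t
      obtain ⟨κ, hκ1, hκ2⟩ := hC7 xt yt (IsScalarTower.toAlgHom k F2 Ω) hpr _ (pa_mem t) _ (pb_mem t)
        (tc (pt (G0 F Z D W) xt yt t) κ₀)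
        (LAMM.pr_tc jF κ₀ xt yt hpr0 _ _ _ (pt_xt t) (pt_yt t))
      have hprκ : Pr jF (kF κ) (rZ Z xt) (rZ Z yt) := by
        intro a b
        rw [hκ1]
        exact hpr a b
      obtain ⟨σ, hσ, hσ'⟩ := hK.tr2 Ω xt yt κ κ₀ hprκ hpr0
      obtain ⟨t₁, h1, h2⟩ := hT 1 σ
      have h3 := hσ' t₁ h1 h2
      refine ⟨⟨(t₁, 1, σ), one_mem _, LAMM.gZ_le D W hσ, h1, h2⟩, rfl, hσ, ?_⟩
      rw [hS1]
      have h4 := hC6 _ _ t₁ hκ2
      have h5 : tc t₁ κ = κ₀ := by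
        ext c
        exact h3 c
      rw [h5] at h4
      exact hC2 _ _ h4
    · intro t ht
      obtain ⟨s, n, h1, h2, h3, h4⟩ := hP1 (pt (G0 F Z D W) xt yt t) (pa (G0 F Z D W) xt yt t) (ch t)
        (pt_xt _) (fun f => by rw [pt_yt, ht]; rfl) (hS3 t)
      let s' : GGt (G0 F Z D W) xt yt := ⟨(s, 1, 1), one_mem _, one_mem _, h1, h2⟩
      have hs' : s' ∈ Stb := hker' s' rfl rfl
      refine ⟨⟨s', hs'⟩, rfl, rfl, ?_⟩
      rw [hch ⟨s', hs'⟩ n h3]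
      exact h4
    · refine ⟨ρ, hρ, fun t ht => ?_⟩
      obtain ⟨s, n, h1, h2, h3, h4⟩ := hP2 (pt (G0 F Z D W) xt yt t) (pb (G0 F Z D W) xt yt t) (ch t)
        (fun f => by rw [pt_xt, ht]; rfl) (pt_yt _) (hS3 t)
      let s' : GGt (G0 F Z D W) xt yt := ⟨(s, 1, 1), one_mem _, one_mem _, h1, h2⟩
      have hs' : s' ∈ Stb := hker' s' rfl rfl
      refine ⟨⟨s', hs'⟩, rfl, rfl, ?_⟩
      rw [hch ⟨s', hs'⟩ n h3]
      exact h4
    · intro σ hσ
      obtain ⟨σ₁, hσ₁, σ₂, hσ₂, rfl, h⟩ := hK.red σ hσ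
      refine ⟨σ₁, hσ₁, σ₂, hσ₂, rfl, fun t h1 h2 => ?_, fun t h1 h2 => ?_⟩
      · apply hker
        apply (h Ω xt yt κ₀ hpr0 _).1
        · intro f
          rw [pt_xt, h1]
        · intro f
          rw [pt_yt, h2]
          rfl
      · apply hker
        apply (h Ω xt yt κ₀ hpr0 _).2
        · intro f
          rw [pt_xt, h1]
          rfl
        · intro f
          rw [pt_yt, h2]
  rcases hGRP (F ≃ₐ[k] F) (GGt (G0 F Z D W) xt yt) (G0 F Z D W) (gZ k Z F) _ _ Stb ch hGD with h | h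
  · exact Or.inl h
  · obtain ⟨lam, hlam, hne, hl⟩ := h
    refine Or.inr ⟨lam, κ₀, wt, hlam, hne, hκ, hst, ?_⟩
    intro t a ha χ hχ h1 h2 h3
    let T : GGt (G0 F Z D W) xt yt := ⟨(t, a, 1), ha, one_mem _, h1, h2⟩
    have hTS : T ∈ Stb := by
      rw [hS1]
      refine (hC4 _ _ _ _ (hC5 _ _ t hst) hst).2 ?_
      refine ⟨cmp wt χ, fun z => (h3 _).symm, χ⁻¹, inv_mem hχ, fun z => ?_⟩
      show wt (algebraMap Z F z) = wt (χ (χ⁻¹ (algebraMap Z F z)))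
      have : χ (χ⁻¹ (algebraMap Z F z)) = algebraMap Z F z := χ.apply_symm_apply _
      rw [this]
    have h4 := hl ⟨T, hTS⟩ rfl
    rw [hch ⟨T, hTS⟩ χ h3] at h4
    exact h4

end Pool.Agent.Lib.MP_c37a72_al.LP
end

section
/-!
# MP_c37a72_al, block LP, module PL1: (1.6), `χ_w(t)` for `t = (a, 1)` and a point `w` with a place
-/
set_option autoImplicit false

open scoped TensorProduct

namespace Pool.Agent.Lib.MP_c37a72_al.LP

open Pool.Agent.Lib.MP_c37a72_al.LB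

universe u v

namespace PL1M

/-- `mu` and composition -/
theorem mu_comp {k : Type u} {A B Ω : Type v} [Field k] [Ring A] [Algebra k A] [Ring B]
    [Algebra k B] [Field Ω] [Algebra k Ω] (f : A →ₐ[k] Ω) (g : B →ₐ[k] Ω) (s : Ω →ₐ[k] Ω)
    (t : A ⊗[k] B) : mu k (s.comp f) (s.comp g) t = s (mu k f g t) := by
  have h : mu k (s.comp f) (s.comp g) = s.toLinearMap.comp (mu k f g) := by
    apply TensorProduct.ext'
    intro a b
    show mu k (s.comp f) (s.comp g) (a ⊗ₜ b) = s (mu k f g (a ⊗ₜ b))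
    rw [mu_tmul, mu_tmul, map_mul]
    rfl
  exact congrArg (fun φ : A ⊗[k] B →ₗ[k] Ω => φ t) h

variable {k : Type u} {Z Q F2 R2 : Type v} [Field k] [Field Z] [Algebra k Z] [DivisionRing Q]
    [Algebra k Q] [Algebra Z Q] [IsScalarTower k Z Q] [Field F2] [Algebra k F2] [Ring R2]
    [Algebra k R2] [Algebra F2 R2] [IsScalarTower k F2 R2] {D : Q →ₐ[k] R2} {K : Subalgebra F2 R2}
    {Ω : Type v} [Field Ω] [Algebra k Ω]

/-- `*κ` is compatible with automorphisms of `Ω` -/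
theorem star_tc {κ : K →ₐ[k] Ω} {w : Z →ₐ[k] Ω} (h : Star D K κ w) (t : Ω ≃ₐ[k] Ω) :
    Star D K (tc t κ) (tc t w) := by
  intro x hx
  have h1 := h x hx
  have h2 := mu_comp κ w (t : Ω →ₐ[k] Ω) x
  rw [h1, map_zero] at h2
  exact h2

variable [Module.Finite Z Q] [Module.Finite F2 R2] {jF : Z ⊗[k] Z →ₐ[k] F2}
  {M : Subalgebra F2 R2} {W : Submodule k R2} {F : Type v} [Field F] [IsAlgClosed F] [Algebra k F]
  [Algebra Z F] [IsScalarTower k Z F] [Algebra.IsAlgebraic Z F] [IsAlgClosed Ω]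

/-- the label of `s` which fixes `κ` -/
theorem exists_label (hEQV : SpecEQV.{u, v}) (hLb : Lb jF D M K W) (κ : K →ₐ[k] Ω)
    (wt : F →ₐ[k] Ω) (hw : Star D K κ (rZ Z wt)) (s : Ω ≃ₐ[k] Ω) (hs : ∀ c, s (κ c) = κ c) :
    ∃ n : F ≃ₐ[k] F, ∀ f, s (wt f) = wt (n f) := by
  obtain ⟨e1, -, -, -, -, e6, -, -, e9⟩ := hEQV k Z Q F2 R2 jF D M K W hLb F Ω
  have h1 : tc s κ = κ := AlgHom.ext hs
  have h2 := star_tc hw s
  rw [h1] at h2
  obtain ⟨τ, -, hτ⟩ := e1 _ _ (e6 κ _ _ hw h2) wt (fun a => rfl)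
  obtain ⟨σ, -, hσ⟩ := e9 (cmp wt τ) (tc s wt) (fun a => (hτ a).symm)
  exact ⟨τ * σ, fun f => hσ f⟩

end PL1M

open PL1M in
/-- **PL1**. -/
theorem specPL1 (hEQV : SpecEQV.{u, v}) (hTEX : SpecTEX.{u, v}) : SpecPL1.{u, v} := by
  intro k Z Q F2 R2 _ _ _ _ _ _ _ _ _ _ _ _ _ _ _ _ _ jF D M K W hF hLb F _ _ _ _ _ _ hK Ω _ _ _
    _ _ _ xt yt hPr κ₀ wt hκ hw P p hp hwt
  obtain ⟨i1, i2, a1, a2, -⟩ := hTEX k Z F2 jF hF F Ω xt yt hPr
  refine ⟨fun hx hy t a χ htx hty htw => ?_, fun hy hx t b χ htx hty htw => ?_⟩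
  · obtain ⟨s, hsx, hsy, hsw⟩ := label16 xt yt i1 a1 p hp P hx hy a t htx hty wt χ.toAlgHom
      (AlgHom.id k F) htw hwt
    obtain ⟨n, hn⟩ := exists_label hEQV hLb κ₀ wt hw s (hK.fix Ω xt yt κ₀ hκ s hsx hsy)
    refine ⟨s, n, hsx, hsy, hn, ?_⟩
    ext f
    have h1 : n f = a.symm (χ f) := P.uniq (hwt (n f)) (by rw [← hn f]; exact hsw f)
    show χ f = a (n f)
    rw [h1, AlgEquiv.apply_symm_apply]
  · obtain ⟨s, hsy, hsx, hsw⟩ := label16 yt xt i2 a2 p hp P hy hx b t hty htx wt χ.toAlgHom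
      (AlgHom.id k F) htw hwt
    obtain ⟨n, hn⟩ := exists_label hEQV hLb κ₀ wt hw s (hK.fix Ω xt yt κ₀ hκ s hsx hsy)
    refine ⟨s, n, hsx, hsy, hn, ?_⟩
    ext f
    have h1 : n f = b.symm (χ f) := P.uniq (hwt (n f)) (by rw [← hn f]; exact hsw f)
    show χ f = b (n f)
    rw [h1, AlgEquiv.apply_symm_apply]

end Pool.Agent.Lib.MP_c37a72_al.LP
end

section
/-!
# MP_c37a72_al, block LP: module PL2 (helper24)
-/
set_option autoImplicit false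

open scoped TensorProduct
open Coalgebra HopfAlgebra

namespace Pool.Agent.Lib.MP_c37a72_al.LP

open Pool.Agent.Lib.MP_c37a72_al.LB

universe u v w

namespace PL2M

theorem mu_tc {k : Type u} {A B Ω : Type v} [Field k] [Ring A] [Algebra k A] [Ring B] [Algebra k B]
    [Field Ω] [Algebra k Ω] (t : Ω ≃ₐ[k] Ω) (f : A →ₐ[k] Ω) (g : B →ₐ[k] Ω) (x : A ⊗[k] B) :
    mu k (tc t f) (tc t g) x = t (mu k f g x) := by
  induction x using TensorProduct.induction_on with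
  | zero => simp
  | add a b ha hb => rw [map_add, map_add, map_add, ha, hb]
  | tmul a b => rw [mu_tmul, mu_tmul, map_mul]; rfl

theorem star_tc {k : Type u} {Z Q F2 R2 Ω : Type v} [Field k] [Field Z] [Algebra k Z]
    [DivisionRing Q] [Algebra k Q] [Algebra Z Q] [IsScalarTower k Z Q] [Field F2] [Algebra k F2]
    [Ring R2] [Algebra k R2] [Algebra F2 R2] [IsScalarTower k F2 R2] [Field Ω] [Algebra k Ω]
    {D : Q →ₐ[k] R2} {K : Subalgebra F2 R2} {κ : K →ₐ[k] Ω} {w : Z →ₐ[k] Ω} (t : Ω ≃ₐ[k] Ω)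
    (h : Star D K κ w) : Star D K (tc t κ) (tc t w) := by
  intro x hx
  rw [mu_tc, h x hx, map_zero]

end PL2M

open PL2M

theorem specPL2 (hEQV : SpecEQV.{u, v}) (hTEX : SpecTEX.{u, v}) (hPLL : SpecPLL.{u, v})
    (hPL1 : SpecPL1.{u, v}) (hSTM : LB.SpecSTM.{u, v}) : SpecPL2.{u, v} := by
  intro k H Z Q F2 R2 _ _ _ _ _ _ _ _ _ _ _ _ _ _ _ _ _ _ _ _ ι jF j D M K W hQ h2 hL F _ _ _ _ _ _
    hKP Ω _ _ _ _ _ _ xt yt hξ
  obtain ⟨hTI, hTI', hTA, hTA', hTt⟩ := hTEX k Z F2 jF h2.frc F Ω xt yt hξ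
  obtain ⟨hEa, hEb, hEc, hEd, hEe, hEf, hEg, hEh, hEi⟩ := hEQV k Z Q F2 R2 jF D M K W hL F Ω
  obtain ⟨hS1, hS2, hS3, hS4⟩ := hSTM k Z Q F2 R2 D M K hL.imk Ω
  have hgG : gZ k Z F ≤ G0 F Z D W := fun σ hσ => Subgroup.subset_closure (Or.inr hσ)
  -- right place
  obtain ⟨P, p, w, hp, hPx, hPy, hM, hPw⟩ :=
    ptpR hQ h2 (IsScalarTower.toAlgHom k F2 Ω) xt yt hξ
  obtain ⟨κ₀, hκ₀, hSt₀⟩ := hS2 (IsScalarTower.toAlgHom k F2 Ω) w hM
  obtain ⟨wt, hwt, hPwt⟩ := hPLL k Z F Ω P w hPw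
  have hrw : rZ Z wt = w := AlgHom.ext hwt
  have hSt : Star D K κ₀ (rZ Z wt) := by rw [hrw]; exact hSt₀
  have hPr₀ : Pr jF (kF κ₀) (rZ Z xt) (rZ Z yt) := fun a b => (hκ₀ _).trans (hξ a b)
  refine ⟨κ₀, wt, hκ₀, hSt, ?_, ?_⟩
  · exact (hPL1 k Z Q F2 R2 jF D M K W h2.frc hL F hKP Ω xt yt hξ κ₀ wt hPr₀ hSt P p hp hPwt).1
      hPx hPy
  -- left place
  obtain ⟨P', p', w₁, hp', hP'y, hP'x, hM', hP'w⟩ :=
    ptpL hQ h2 (IsScalarTower.toAlgHom k F2 Ω) xt yt hξ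
  obtain ⟨κ₁, hκ₁, hSt₁⟩ := hS2 (IsScalarTower.toAlgHom k F2 Ω) w₁ hM'
  obtain ⟨w₁t, hw₁t, hP'wt⟩ := hPLL k Z F Ω P' w₁ hP'w
  have hrw₁ : rZ Z w₁t = w₁ := AlgHom.ext hw₁t
  have hSt' : Star D K κ₁ (rZ Z w₁t) := by rw [hrw₁]; exact hSt₁
  have hPr₁ : Pr jF (kF κ₁) (rZ Z xt) (rZ Z yt) := fun a b => (hκ₁ _).trans (hξ a b)
  obtain ⟨σ, hσ, hσt⟩ := hKP.tr1 Ω xt yt κ₁ κ₀ hPr₁ hPr₀
  obtain ⟨t₁, ht₁x, ht₁y⟩ := hTt σ 1
  have ht₁y' : ∀ f, t₁ (yt f) = yt f := ht₁y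
  have ht₁κ : tc t₁ κ₁ = κ₀ := AlgHom.ext fun c => hσt t₁ ht₁x ht₁y' c
  have hSt₂ : Star D K κ₀ (tc t₁ (rZ Z w₁t)) := by
    have h := star_tc t₁ hSt'
    rwa [ht₁κ] at h
  obtain ⟨τ, hτ, hτw⟩ := hEa _ _ (hEf κ₀ _ _ hSt hSt₂) wt (fun a => rfl)
  obtain ⟨σ', hσ', hσ'w⟩ := hEi (cmp wt τ) (tc t₁ w₁t) (fun a => (hτw a).symm)
  have hρ : ∀ f, t₁ (w₁t f) = wt ((τ * σ') f) := hσ'w
  have hρs : ∀ f, t₁.symm (wt f) = w₁t ((τ * σ')⁻¹ f) := fun f => by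
    rw [AlgEquiv.symm_apply_eq, hρ, ← AlgEquiv.mul_apply, mul_inv_cancel]
    rfl
  have hxs : ∀ f, t₁.symm (xt f) = xt (σ⁻¹ f) := fun f => by
    rw [AlgEquiv.symm_apply_eq, ht₁x, ← AlgEquiv.mul_apply, mul_inv_cancel]
    rfl
  have hys : ∀ f, t₁.symm (yt f) = yt f := fun f => by
    rw [AlgEquiv.symm_apply_eq, ht₁y']
  refine ⟨τ * σ', mul_mem hτ (hgG hσ'), fun t b χ htx hty htw => ?_⟩
  obtain ⟨s', n', hs'x, hs'y, hs'w, hn'⟩ :=
    (hPL1 k Z Q F2 R2 jF D M K W h2.frc hL F hKP Ω xt yt hξ κ₁ w₁t hPr₁ hSt' P' p' hp' hP'wt).2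
      hP'y hP'x (t₁.trans (t.trans t₁.symm)) b ((τ * σ')⁻¹ * χ * (τ * σ')) (fun f => by
        show t₁.symm (t (t₁ (xt f))) = xt f
        rw [ht₁x, htx, hxs, ← AlgEquiv.mul_apply, inv_mul_cancel]
        rfl) (fun f => by
        show t₁.symm (t (t₁ (yt f))) = yt (b f)
        rw [ht₁y', hty, hys]) (fun f => by
        show t₁.symm (t (t₁ (w₁t f))) = w₁t (((τ * σ')⁻¹ * χ * (τ * σ')) f)
        rw [hρ, htw, hρs]
        rfl)
  refine ⟨t₁.symm.trans (s'.trans t₁), (τ * σ') * n' * (τ * σ')⁻¹, fun f => ?_, fun f => ?_,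
    fun f => ?_, ?_⟩
  · show t₁ (s' (t₁.symm (xt f))) = xt f
    rw [hxs, hs'x, ht₁x, ← AlgEquiv.mul_apply, mul_inv_cancel]
    rfl
  · show t₁ (s' (t₁.symm (yt f))) = yt f
    rw [hys, hs'y, ht₁y']
  · show t₁ (s' (t₁.symm (wt f))) = wt (((τ * σ') * n' * (τ * σ')⁻¹) f)
    rw [hρs, hs'w, hρ]
    rfl
  · have h1 : χ = (τ * σ') * (b * n') * (τ * σ')⁻¹ := by
      rw [← hn']
      group
    rw [h1]
    group

end Pool.Agent.Lib.MP_c37a72_al.LP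
end

section
/-!
# MP_c37a72_al, block LP, module PLL: a point with residue `id` on `Z` has a lift with residue `id`
-/
set_option autoImplicit false

open scoped TensorProduct
open Coalgebra HopfAlgebra

namespace Pool.Agent.Lib.MP_c37a72_al.LP

open Pool.Agent.Lib.MP_c37a72_al.LB

universe u v w

theorem specPLL : SpecPLL.{u, v} := by
  intro k Z F Ω _ _ _ _ _ _ _ _ _ _ _ _ P w hw
  let algZ : Algebra Z Ω := (w : Z →+* Ω).toAlgebra
  have hcoe : ∀ z, algebraMap Z Ω z = w z := fun _ => rfl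
  have htow : IsScalarTower k Z Ω := IsScalarTower.of_algebraMap_eq fun c => by
    rw [hcoe, AlgHom.commutes]
  let l : F →ₐ[Z] Ω := IsAlgClosed.lift
  have hl : ∀ z, l (algebraMap Z F z) = w z := fun z => l.commutes z
  -- integrality
  have hint : ∀ f : F, ∃ r, P.r (l f) r := by
    intro f
    refine CNJM.int_closed P (w : Z →+* Ω).range ?_ ?_
    · rintro _ ⟨z, rfl⟩
      exact ⟨_, hw z⟩
    · have h1 : IsIntegral Z f := (Algebra.IsAlgebraic.isAlgebraic f).isIntegral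
      obtain ⟨p, hp, hpx⟩ := h1.map l
      refine ⟨p.map (w : Z →+* Ω).rangeRestrict, hp.map _, ?_⟩
      rw [Polynomial.eval₂_map]
      exact hpx
  choose ρ hρ using hint
  let ρ' : F →ₐ[Z] F :=
    { toFun := ρ
      map_one' := by
        have h := hρ 1
        rw [map_one] at h
        exact P.uniq h P.one
      map_mul' := fun a b => by
        have h := hρ (a * b)
        rw [map_mul] at h
        exact P.uniq h (P.mul (hρ a) (hρ b))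
      map_zero' := by
        have h := hρ 0
        rw [map_zero] at h
        exact P.uniq h P.zero
      map_add' := fun a b => by
        have h := hρ (a + b)
        rw [map_add] at h
        exact P.uniq h (P.add (hρ a) (hρ b))
      commutes' := fun z => by
        have h := hρ (algebraMap Z F z)
        rw [hl] at h
        exact P.uniq h (hw z) }
  have hbij : Function.Bijective ρ' := Algebra.IsAlgebraic.algHom_bijective ρ'
  let e : F ≃ₐ[Z] F := AlgEquiv.ofBijective ρ' hbij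
  refine ⟨(l.comp (e.symm : F →ₐ[Z] F)).restrictScalars k, fun z => ?_, fun f => ?_⟩
  · change l (e.symm (algebraMap Z F z)) = w z
    rw [AlgEquiv.commutes, hl]
  · change P.r (l (e.symm f)) f
    have h := hρ (e.symm f)
    have h2 : ρ (e.symm f) = f := e.apply_symm_apply f
    rwa [h2] at h

end Pool.Agent.Lib.MP_c37a72_al.LP
end

section
/-!
# MP_c37a72_al, block LP, module SCH (helper65)
-/
set_option autoImplicit false

open scoped TensorProduct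
open Coalgebra HopfAlgebra

namespace Pool.Agent.Lib.MP_c37a72_al.LP

open Pool.Agent.Lib.MP_c37a72_al.LB

universe u v w

/-- **SCH**. -/
theorem specSCH (hEQV : SpecEQV.{u, v}) (hCKE : SpecCKE.{u, v}) (hFIN : LB.SpecFIN.{u, v})
    (hSTM : LB.SpecSTM.{u, v}) : SpecSCH.{u, v} := by
  classical
  intro k Z Q F2 R2 _ _ _ _ _ _ _ _ _ _ _ _ _ _ _ _ jF D M K W hF hLb F _ _ _ _ _ _ hK
    Ω _ _ _ xt yt κ₀ wt hPr hStar
  obtain ⟨ha, -, -, -, -, -, -, -, hi⟩ := hEQV k Z Q F2 R2 jF D M K W hLb F Ω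
  obtain ⟨hc1, hc2, hc3, hc4, hc5, hc6, -⟩ := hCKE k Z Q F2 R2 jF D M K W hF hLb F Ω
  obtain ⟨hS1, -, -, -⟩ := hSTM k Z Q F2 R2 D M K hLb.imk Ω
  have hinj : Function.Injective wt := wt.toRingHom.injective
  have hgle : gZ k Z F ≤ G0 F Z D W := fun σ hσ => Subgroup.subset_closure (Or.inr hσ)
  -- the homomorphism on elements
  have key : ∀ t : Ω ≃ₐ[k] Ω, Cls F Z D W (tc t κ₀) κ₀ →
      ∃ χ : F ≃ₐ[k] F, χ ∈ G0 F Z D W ∧ ∀ f, t (wt f) = wt (χ f) := by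
    intro t ht
    have h1 : Eqv F Z D W (rZ Z wt) (tc t (rZ Z wt)) :=
      (hc4 κ₀ (tc t κ₀) (rZ Z wt) (tc t (rZ Z wt)) hStar (hc5 κ₀ (rZ Z wt) t hStar)).1
        (hc2 _ _ ht)
    obtain ⟨τ, hτ, hτ2⟩ := ha _ _ h1 wt (fun a => rfl)
    obtain ⟨σ, hσ, hσ2⟩ := hi (cmp wt τ) (tc t wt) (fun a => (hτ2 a).symm)
    exact ⟨τ * σ, mul_mem hτ (hgle hσ), fun f => hσ2 f⟩
  let Stb : Subgroup (GGt (G0 F Z D W) xt yt) :=
    { carrier := {t | Cls F Z D W (tc (pt (G0 F Z D W) xt yt t) κ₀) κ₀}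
      mul_mem' := fun {a b} hA hB => by
        have h1 := hc6 _ _ (pt (G0 F Z D W) xt yt a) hB
        exact hc3 _ _ _ h1 hA
      one_mem' := hc1 κ₀
      inv_mem' := fun {a} hA => by
        have h1 := hc6 _ _ (pt (G0 F Z D W) xt yt a)⁻¹ hA
        have h2 : tc (pt (G0 F Z D W) xt yt a)⁻¹ (tc (pt (G0 F Z D W) xt yt a) κ₀) = κ₀ := by
          ext c
          show (pt (G0 F Z D W) xt yt a).symm ((pt (G0 F Z D W) xt yt a) (κ₀ c)) = κ₀ c
          rw [AlgEquiv.symm_apply_apply]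
        rw [h2] at h1
        exact hc2 _ _ h1 }
  have hmem : ∀ t : Stb, Cls F Z D W (tc (pt (G0 F Z D W) xt yt t) κ₀) κ₀ := fun t => t.2
  choose! c hcG hcw using key
  let ch : Stb →* (F ≃ₐ[k] F) :=
    { toFun := fun t => c (pt (G0 F Z D W) xt yt t)
      map_one' := by
        apply AlgEquiv.ext
        intro f
        apply hinj
        rw [← hcw _ (hmem 1)]
        rfl
      map_mul' := fun t s => by
        apply AlgEquiv.ext
        intro f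
        apply hinj
        rw [← hcw _ (hmem (t * s))]
        show pt (G0 F Z D W) xt yt t (pt (G0 F Z D W) xt yt s (wt f)) = _
        rw [hcw _ (hmem s), hcw _ (hmem t)]
        rfl }
  refine ⟨Stb, ch, fun t => Iff.rfl, fun t => hcG _ (hmem t), fun t f => hcw _ (hmem t) f, ?_⟩
  have hfin : {w : Z →ₐ[k] Ω | Star D K κ₀ w}.Finite :=
    ((hFIN k Z Q F2 R2 D K hLb.imk.fieldK Ω _).1).subset fun w hw => hS1 κ₀ w hw
  refine ⟨hfin.toFinset.image fun w => if h : ∃ χ : F ≃ₐ[k] F, rZ Z (cmp wt χ) = w then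
    Classical.choose h else 1, fun t hta htb => ?_⟩
  have h1 : tc (pt (G0 F Z D W) xt yt t) κ₀ = κ₀ := by
    ext d
    refine hK.fix Ω xt yt κ₀ hPr _ (fun f => ?_) (fun f => ?_) d
    · rw [pt_xt, hta]; rfl
    · rw [pt_yt, htb]; rfl
  have h2 : Star D K κ₀ (tc (pt (G0 F Z D W) xt yt t) (rZ Z wt)) := by
    have h3 := hc5 κ₀ (rZ Z wt) (pt (G0 F Z D W) xt yt t) hStar
    rwa [h1] at h3
  have h4 : rZ Z (cmp wt (ch t)) = tc (pt (G0 F Z D W) xt yt t) (rZ Z wt) := by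
    apply AlgHom.ext
    intro z
    exact (hcw _ (hmem t) (algebraMap Z F z)).symm
  have h5 : ∃ χ : F ≃ₐ[k] F, rZ Z (cmp wt χ) = tc (pt (G0 F Z D W) xt yt t) (rZ Z wt) :=
    ⟨_, h4⟩
  refine ⟨Classical.choose h5, ?_, (Classical.choose h5)⁻¹ * ch t, fun z => ?_, ?_⟩
  · rw [Finset.mem_image]
    refine ⟨tc (pt (G0 F Z D W) xt yt t) (rZ Z wt), hfin.mem_toFinset.2 h2, ?_⟩
    rw [dif_pos h5]
  · have h6 := Classical.choose_spec h5
    have h7 : rZ Z (cmp wt (Classical.choose h5)) = rZ Z (cmp wt (ch t)) := h6.trans h4.symm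
    have h8 : (Classical.choose h5) (algebraMap Z F z) = ch t (algebraMap Z F z) :=
      hinj (DFunLike.congr_fun h7 z)
    show (Classical.choose h5).symm (ch t (algebraMap Z F z)) = _
    rw [← h8, AlgEquiv.symm_apply_apply]
  · rw [mul_inv_cancel_left]

end Pool.Agent.Lib.MP_c37a72_al.LP
end

section
/-!
# MP_c37a72_al, block LP, module TEX: automorphisms of `Ω` with prescribed restriction to `xt(F) yt(F)`
-/
set_option autoImplicit false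

open scoped TensorProduct

namespace Pool.Agent.Lib.MP_c37a72_al.LP

open Pool.Agent.Lib.MP_c37a72_al.LB

universe u v

namespace TEXM

variable {k : Type u} [Field k] {F Ω : Type v} [Field F] [Algebra k F] [Field Ω] [Algebra k Ω]

theorem mm_eq_mu (xt yt : F →ₐ[k] Ω) (t : F ⊗[k] F) : CNJM.mm yt xt t = mu k xt yt t := by
  have h : (CNJM.mm yt xt).toLinearMap = mu k xt yt := by
    apply TensorProduct.ext'
    intro a b
    show CNJM.mm yt xt (a ⊗ₜ b) = mu k xt yt (a ⊗ₜ b)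
    rw [CNJM.mm_tmul, mu_tmul]
  exact congrArg (fun φ : F ⊗[k] F →ₗ[k] Ω => φ t) h

theorem mm_comm (xt yt : F →ₐ[k] Ω) (t : F ⊗[k] F) :
    CNJM.mm xt yt t = CNJM.mm yt xt (Algebra.TensorProduct.comm k F F t) := by
  have h : CNJM.mm xt yt = (CNJM.mm yt xt).comp (Algebra.TensorProduct.comm k F F).toAlgHom := by
    apply Algebra.TensorProduct.ext'
    intro a b
    show CNJM.mm xt yt (a ⊗ₜ b) = CNJM.mm yt xt (Algebra.TensorProduct.comm k F F (a ⊗ₜ b))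
    rw [Algebra.TensorProduct.comm_tmul, CNJM.mm_tmul, CNJM.mm_tmul, mul_comm]
  exact congrArg (fun φ : F ⊗[k] F →ₐ[k] Ω => φ t) h

theorem mm_inj_swap (xt yt : F →ₐ[k] Ω) (h : Function.Injective (CNJM.mm yt xt)) :
    Function.Injective (CNJM.mm xt yt) := by
  intro s t hst
  rw [mm_comm xt yt s, mm_comm xt yt t] at hst
  exact (Algebra.TensorProduct.comm k F F).injective (h hst)

theorem mm_cmp (xt yt : F →ₐ[k] Ω) (a b : F ≃ₐ[k] F) (t : F ⊗[k] F) :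
    CNJM.mm (cmp xt a) (cmp yt b) t = CNJM.mm xt yt (Algebra.TensorProduct.congr b a t) := by
  have h : CNJM.mm (cmp xt a) (cmp yt b) =
      (CNJM.mm xt yt).comp (Algebra.TensorProduct.congr b a).toAlgHom := by
    apply Algebra.TensorProduct.ext'
    intro c d
    show CNJM.mm (cmp xt a) (cmp yt b) (c ⊗ₜ d) =
      CNJM.mm xt yt (Algebra.TensorProduct.congr b a (c ⊗ₜ d))
    rw [Algebra.TensorProduct.congr_apply, Algebra.TensorProduct.map_tmul, CNJM.mm_tmul,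
      CNJM.mm_tmul]
    rfl
  exact congrArg (fun φ : F ⊗[k] F →ₐ[k] Ω => φ t) h

theorem exists_hom [IsAlgClosed Ω] (xt yt : F →ₐ[k] Ω) (hinj : Function.Injective (CNJM.mm xt yt))
    (halg : Algebra.IsAlgebraic (CNJM.EE xt yt) Ω) (a b : F ≃ₐ[k] F) :
    ∃ t : Ω →ₐ[k] Ω, (∀ f, t (xt f) = xt (a f)) ∧ ∀ f, t (yt f) = yt (b f) := by
  have hinj' : Function.Injective (CNJM.mm (cmp xt a) (cmp yt b)) := by
    intro s t hst
    rw [mm_cmp, mm_cmp] at hst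
    exact (Algebra.TensorProduct.congr b a).injective (hinj hst)
  obtain ⟨g, hg⟩ := (CNJM.isFrc_mE xt yt hinj).exists_lift _ hinj'
  obtain ⟨t, ht⟩ := IsAlgClosed.surjective_domRestrict_of_isAlgebraic (K := k)
    (L := CNJM.EE xt yt) (E := Ω) (M := Ω) g
  have ht' : ∀ e : CNJM.EE xt yt, t (e : Ω) = g e := fun e =>
    congrArg (fun φ : CNJM.EE xt yt →ₐ[k] Ω => φ e) ht
  refine ⟨t, fun f => ?_, fun f => ?_⟩
  · have h1 := ht' (CNJM.mE xt yt (1 ⊗ₜ f))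
    have h2 : ((CNJM.mE xt yt (1 ⊗ₜ f) : CNJM.EE xt yt) : Ω) = xt f := by
      show CNJM.mm xt yt (1 ⊗ₜ f) = xt f
      rw [CNJM.mm_tmul, map_one, one_mul]
    rw [h2, hg, CNJM.mm_tmul, map_one, one_mul] at h1
    exact h1
  · have h1 := ht' (CNJM.mE xt yt (f ⊗ₜ 1))
    have h2 : ((CNJM.mE xt yt (f ⊗ₜ 1) : CNJM.EE xt yt) : Ω) = yt f := by
      show CNJM.mm xt yt (f ⊗ₜ 1) = yt f
      rw [CNJM.mm_tmul, map_one, mul_one]
    rw [h2, hg, CNJM.mm_tmul, map_one, mul_one] at h1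
    exact h1

theorem fix_EE (xt yt : F →ₐ[k] Ω) (T : Ω →ₐ[k] Ω) (hx : ∀ f, T (xt f) = xt f)
    (hy : ∀ f, T (yt f) = yt f) : ∀ e ∈ CNJM.EE xt yt, T e = e := by
  intro e he
  refine IntermediateField.adjoin_induction k (p := fun e _ => T e = e) ?_ ?_ ?_ ?_ ?_ he
  · rintro _ (⟨f, rfl⟩ | ⟨f, rfl⟩)
    · exact hx f
    · exact hy f
  · intro c
    exact T.commutes c
  · intro c d _ _ hc hd
    rw [map_add, hc, hd]
  · intro c _ hc
    rw [map_inv₀, hc]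
  · intro c d _ _ hc hd
    rw [map_mul, hc, hd]

theorem exists_equiv [IsAlgClosed Ω] (xt yt : F →ₐ[k] Ω)
    (hinj : Function.Injective (CNJM.mm xt yt))
    (halg : Algebra.IsAlgebraic (CNJM.EE xt yt) Ω) (a b : F ≃ₐ[k] F) :
    ∃ t : Ω ≃ₐ[k] Ω, (∀ f, t (xt f) = xt (a f)) ∧ ∀ f, t (yt f) = yt (b f) := by
  obtain ⟨t, htx, hty⟩ := exists_hom xt yt hinj halg a b
  obtain ⟨s, hsx, hsy⟩ := exists_hom xt yt hinj halg a⁻¹ b⁻¹
  have hfix := fix_EE xt yt (t.comp s) (fun f => by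
    show t (s (xt f)) = xt f
    rw [hsx, htx]
    exact congrArg xt (a.apply_symm_apply f)) (fun f => by
    show t (s (yt f)) = yt f
    rw [hsy, hty]
    exact congrArg yt (b.apply_symm_apply f))
  let T : Ω →ₐ[CNJM.EE xt yt] Ω :=
    { (t.comp s : Ω →ₐ[k] Ω).toRingHom with
      commutes' := fun e => hfix e e.2 }
  have hT : Function.Bijective T := Algebra.IsAlgebraic.algHom_bijective T
  have ht : Function.Surjective t := fun x => by
    obtain ⟨y, hy⟩ := hT.2 x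
    exact ⟨s y, hy⟩
  exact ⟨AlgEquiv.ofBijective t ⟨t.toRingHom.injective, ht⟩, htx, hty⟩

variable {Z F2 : Type v} [Field Z] [Algebra k Z] [Field F2] [Algebra k F2] [Algebra Z F]
  [IsScalarTower k Z F] {jF : Z ⊗[k] Z →ₐ[k] F2}

theorem mem_EE (hF : IsFrc jF) (ξ : F2 →ₐ[k] Ω) (xt yt : F →ₐ[k] Ω)
    (h : Pr jF ξ (rZ Z xt) (rZ Z yt)) (c : F2) : ξ c ∈ CNJM.EE xt yt := by
  have h1 : ∀ t : Z ⊗[k] Z, ξ (jF t) ∈ CNJM.EE xt yt := by
    intro t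
    induction t using TensorProduct.induction_on with
    | zero => rw [map_zero, map_zero]; exact zero_mem _
    | add a b ha hb => rw [map_add, map_add]; exact add_mem ha hb
    | tmul a b =>
      rw [h]
      exact mul_mem (IntermediateField.subset_adjoin k _ (Or.inl ⟨_, rfl⟩))
        (IntermediateField.subset_adjoin k _ (Or.inr ⟨_, rfl⟩))
  obtain ⟨a, b, hb, hab⟩ := hF.surj c
  have h2 : ξ (jF b) ≠ 0 := by
    intro h0
    rw [map_eq_zero] at h0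
    exact hF.ne' hb h0
  have h3 : ξ c = ξ (jF a) / ξ (jF b) := by
    rw [eq_div_iff h2, ← map_mul, hab]
  rw [h3]
  exact div_mem (h1 a) (h1 b)

theorem isAlg (xt yt : F →ₐ[k] Ω) [Algebra F2 Ω] [IsScalarTower k F2 Ω]
    [Algebra.IsAlgebraic F2 Ω] (hmem : ∀ c : F2, algebraMap F2 Ω c ∈ CNJM.EE xt yt) :
    Algebra.IsAlgebraic (CNJM.EE xt yt) Ω := by
  let g : F2 →+* CNJM.EE xt yt := (algebraMap F2 Ω).codRestrict (CNJM.EE xt yt) hmem
  refine ⟨fun x => ?_⟩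
  obtain ⟨p, hp0, hp⟩ := Algebra.IsAlgebraic.isAlgebraic (R := F2) x
  refine ⟨p.map g, ?_, ?_⟩
  · rwa [Ne, Polynomial.map_eq_zero]
  · rw [Polynomial.aeval_def, Polynomial.eval₂_map]
    rw [Polynomial.aeval_def] at hp
    exact hp

end TEXM

open TEXM in
/-- **TEX**. -/
theorem specTEX (hXIP : LB.SpecXIP.{u, v}) : SpecTEX.{u, v} := by
  intro k Z F2 _ _ _ _ _ _ jF hF F _ _ _ _ _ _ Ω _ _ _ _ _ _ xt yt hPr
  have h1 := (hXIP k Z F2 jF hF F Ω (IsScalarTower.toAlgHom k F2 Ω) xt yt hPr).1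
  have hyx : Function.Injective (CNJM.mm yt xt) := by
    intro s t hst
    rw [mm_eq_mu, mm_eq_mu] at hst
    exact h1 hst
  have hxy := mm_inj_swap xt yt hyx
  have ha1 : Algebra.IsAlgebraic (CNJM.EE xt yt) Ω :=
    isAlg (F2 := F2) xt yt (mem_EE hF (IsScalarTower.toAlgHom k F2 Ω) xt yt hPr)
  have hEE : CNJM.EE xt yt = CNJM.EE yt xt := by
    unfold CNJM.EE
    rw [Set.union_comm]
  refine ⟨hxy, hyx, ha1, ?_, exists_equiv xt yt hxy ha1⟩
  exact isAlg (F2 := F2) yt xt (fun c => by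
    rw [← hEE]
    exact mem_EE hF (IsScalarTower.toAlgHom k F2 Ω) xt yt hPr c)

end Pool.Agent.Lib.MP_c37a72_al.LP
end

section
/-!
# MP_c37a72_al, block LP, module TOP: (2.1), `top(κ') - top(κ) = lam(a)`
-/
set_option autoImplicit false

open scoped TensorProduct

namespace Pool.Agent.Lib.MP_c37a72_al.LP

open Pool.Agent.Lib.MP_c37a72_al.LB

universe u v

namespace TOPM

/-- `mu` and composition -/
theorem mu_comp {k : Type u} {A B Ω : Type v} [Field k] [Ring A] [Algebra k A] [Ring B]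
    [Algebra k B] [Field Ω] [Algebra k Ω] (f : A →ₐ[k] Ω) (g : B →ₐ[k] Ω) (s : Ω →ₐ[k] Ω)
    (t : A ⊗[k] B) : mu k (s.comp f) (s.comp g) t = s (mu k f g t) := by
  have h : mu k (s.comp f) (s.comp g) = s.toLinearMap.comp (mu k f g) := by
    apply TensorProduct.ext'
    intro a b
    show mu k (s.comp f) (s.comp g) (a ⊗ₜ b) = s (mu k f g (a ⊗ₜ b))
    rw [mu_tmul, mu_tmul, map_mul]
    rfl
  exact congrArg (fun φ : A ⊗[k] B →ₗ[k] Ω => φ t) h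

section tc

variable {k : Type u} {Ω A : Type v} [Field k] [Field Ω] [Algebra k Ω] [Semiring A] [Algebra k A]

theorem tc_symm (t : Ω ≃ₐ[k] Ω) (φ : A →ₐ[k] Ω) : tc t (tc t.symm φ) = φ :=
  AlgHom.ext fun a => t.apply_symm_apply (φ a)

theorem symm_tc (t : Ω ≃ₐ[k] Ω) (φ : A →ₐ[k] Ω) : tc t.symm (tc t φ) = φ :=
  AlgHom.ext fun a => t.symm_apply_apply (φ a)

end tc

section lam

variable {G : Type v} [Group G] {G0 g : Subgroup G} {lam : G → ℤ}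

theorem lam_one (h : Lam G0 g lam) : lam 1 = 0 := h.gz 1 (one_mem _)

theorem lam_conj (h : Lam G0 g lam) {τ χ : G} (hτ : τ ∈ G0) (hχ : χ ∈ G0) :
    lam (τ⁻¹ * χ * τ) = lam χ := by
  have h1 := h.mul τ⁻¹ (inv_mem hτ) τ hτ
  rw [inv_mul_cancel, lam_one h] at h1
  rw [h.mul _ (mul_mem (inv_mem hτ) hχ) _ hτ, h.mul _ (inv_mem hτ) _ hχ]
  omega

end lam

variable {k : Type u} {Z Q F2 R2 : Type v} [Field k] [Field Z] [Algebra k Z] [DivisionRing Q]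
    [Algebra k Q] [Algebra Z Q] [IsScalarTower k Z Q] [Field F2] [Algebra k F2] [Ring R2]
    [Algebra k R2] [Algebra F2 R2] [IsScalarTower k F2 R2] {D : Q →ₐ[k] R2} {K : Subalgebra F2 R2}
    {Ω : Type v} [Field Ω] [Algebra k Ω]

/-- `*κ` is compatible with automorphisms of `Ω` -/
theorem star_tc {κ : K →ₐ[k] Ω} {w : Z →ₐ[k] Ω} (h : Star D K κ w) (t : Ω ≃ₐ[k] Ω) :
    Star D K (tc t κ) (tc t w) := by
  intro x hx
  have h1 := h x hx
  have h2 := mu_comp κ w (t : Ω →ₐ[k] Ω) x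
  rw [h1, map_zero] at h2
  exact h2

variable [IsAlgClosed k] [Module.Finite Z Q] [Module.Finite F2 R2] {jF : Z ⊗[k] Z →ₐ[k] F2}
  {M : Subalgebra F2 R2} {W : Submodule k R2} {F : Type v} [Field F] [IsAlgClosed F] [Algebra k F]
  [Algebra Z F] [IsScalarTower k Z F] [Algebra.IsAlgebraic Z F] [IsAlgClosed Ω]

/-- step (1): the base point `κ₀` -/
theorem step1 (hEQV : SpecEQV.{u, v}) (hHGT : SpecHGT.{u, v}) (hTPX : SpecTPX.{u, v})
    (hF : IsFrc jF) (hLb : Lb jF D M K W) (hK : KPk F jF K) {lam : (F ≃ₐ[k] F) → ℤ}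
    (hlam : Lam (G0 F Z D W) (gZ k Z F) lam) (xt yt : F →ₐ[k] Ω)
    (hT : ∀ a b : F ≃ₐ[k] F, ∃ t : Ω ≃ₐ[k] Ω, (∀ f, t (xt f) = xt (a f)) ∧ ∀ f, t (yt f) = yt (b f))
    (κ₀ : K →ₐ[k] Ω) (wt : F →ₐ[k] Ω) (hκ : Pr jF (kF κ₀) (rZ Z xt) (rZ Z yt))
    (hw : Star D K κ₀ (rZ Z wt))
    (hL : ∀ (t : Ω ≃ₐ[k] Ω), ∀ a ∈ G0 F Z D W, ∀ χ ∈ G0 F Z D W, (∀ f, t (xt f) = xt (a f)) →
        (∀ f, t (yt f) = yt f) → (∀ f, t (wt f) = wt (χ f)) → lam χ = lam a)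
    (a : F ≃ₐ[k] F) (ha : a ∈ G0 F Z D W) (κ' : K →ₐ[k] Ω) (w₀ w' : Z →ₐ[k] Ω)
    (hκ' : Pr jF (kF κ') (rZ Z (cmp xt a)) (rZ Z yt)) (hw₀ : Top F Z D W lam κ₀ w₀)
    (hw' : Top F Z D W lam κ' w') (he : Eqv F Z D W w₀ w') : Hgt F Z D W lam w' w₀ (lam a) := by
  obtain ⟨e1, -, e3, e4, -, e6, -, -, e9⟩ := hEQV k Z Q F2 R2 jF D M K W hLb F Ω
  obtain ⟨-, -, -, h4, -, -, -⟩ := hHGT k Z Q F2 R2 jF D M K W hLb F lam hlam Ω
  obtain ⟨-, t2, t3⟩ := hTPX k Z Q F2 R2 jF D M K W hF hLb F lam hlam Ω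
  obtain ⟨s, hsx, hsy⟩ := hT a 1
  have hκ'' : Pr jF (kF (tc s.symm κ')) (rZ Z xt) (rZ Z yt) := by
    intro x y
    show s.symm (κ' (algebraMap F2 K (jF (x ⊗ₜ y)))) =
      xt (algebraMap Z F x) * yt (algebraMap Z F y)
    have h1 : κ' (algebraMap F2 K (jF (x ⊗ₜ y))) =
      xt (a (algebraMap Z F x)) * yt (algebraMap Z F y) := hκ' x y
    rw [h1, AlgEquiv.symm_apply_eq, map_mul, hsx, hsy]
    rfl
  obtain ⟨σ, hσ, hσt⟩ := hK.tr1 Ω xt yt κ₀ (tc s.symm κ') hκ hκ''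
  obtain ⟨t₁, ht1x, ht1y⟩ := hT σ 1
  have ht1 := hσt t₁ ht1x ht1y
  -- the composition
  have hTκ : tc (s * t₁) κ₀ = κ' := by
    ext c
    show s (t₁ (κ₀ c)) = κ' c
    rw [ht1 c]
    exact s.apply_symm_apply _
  have hTx : ∀ f, (s * t₁) (xt f) = xt ((a * σ) f) := fun f => by
    show s (t₁ (xt f)) = xt (a (σ f))
    rw [ht1x, hsx]
  have hTy : ∀ f, (s * t₁) (yt f) = yt f := fun f => by
    show s (t₁ (yt f)) = yt f
    rw [ht1y]
    exact hsy _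
  have hσ0 : σ ∈ G0 F Z D W := hlam.gle hσ
  have haσ : a * σ ∈ G0 F Z D W := mul_mem ha hσ0
  -- the label of `s * t₁`
  have hst := star_tc hw (s * t₁)
  rw [hTκ] at hst
  have e10 : Eqv F Z D W (rZ Z wt) w₀ := e6 κ₀ _ _ hw hw₀.1
  have e11 : Eqv F Z D W w' (tc (s * t₁) (rZ Z wt)) := e6 κ' _ _ hw'.1 hst
  have e12 := e4 _ _ _ e10 (e4 _ _ _ he e11)
  obtain ⟨τ₁, hτ₁, hτ₁'⟩ := e1 _ _ e12 wt (fun a => rfl)
  obtain ⟨σ₁, hσ₁, hσ₁'⟩ := e9 (cmp wt τ₁) (tc (s * t₁) wt) (fun a => (hτ₁' a).symm)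
  have hχ : τ₁ * σ₁ ∈ G0 F Z D W := mul_mem hτ₁ (hlam.gle hσ₁)
  have hχ' : ∀ f, (s * t₁) (wt f) = wt ((τ₁ * σ₁) f) := fun f => hσ₁' f
  have hlχ : lam (τ₁ * σ₁) = lam a := by
    rw [hL (s * t₁) (a * σ) haσ (τ₁ * σ₁) hχ hTx hTy hχ', hlam.mul a ha σ hσ0, hlam.gz σ hσ,
      add_zero]
  -- `w₀ = wt τ`
  obtain ⟨τ, hτ, hτ'⟩ := e1 _ _ e10 wt (fun a => rfl)
  have hH : Hgt F Z D W lam (tc (s * t₁) w₀) w₀ (lam a) := by
    refine ⟨cmp wt τ, fun z => (hτ' z).symm, τ⁻¹ * (τ₁ * σ₁) * τ,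
      mul_mem (mul_mem (inv_mem hτ) hχ) hτ, fun z => ?_, ?_⟩
    · show (s * t₁) (w₀ z) = wt (τ (τ.symm ((τ₁ * σ₁) (τ (algebraMap Z F z)))))
      rw [hτ', hχ', AlgEquiv.apply_symm_apply]
    · rw [lam_conj hlam hτ hχ, hlχ]
  have hT0 := t3 κ₀ w₀ (s * t₁) hw₀
  rw [hTκ] at hT0
  have h5 := t2 κ' _ _ hT0 hw'
  have h6 := h4 _ _ _ _ _ hH h5
  rwa [add_zero] at h6

end TOPM

open TOPM in
/-- **TOP**. -/
theorem specTOP (hEQV : SpecEQV.{u, v}) (hHGT : SpecHGT.{u, v}) (hTEX : SpecTEX.{u, v})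
    (hTPX : SpecTPX.{u, v}) : SpecTOP.{u, v} := by
  intro k Z Q F2 R2 _ _ _ _ _ _ _ _ _ _ _ _ _ _ _ _ jF D M K W hF hLb F _ _ _ _ _ _ hK lam hlam
    Ω _ _ _ _ _ _ xt yt hPr κ₀ wt hκ0 hw hL a ha κ κ' w w' hκ hκ' hw1 hw1' he
  obtain ⟨-, -, -, -, hT⟩ := hTEX k Z F2 jF hF F Ω xt yt hPr
  have hκ₀ : Pr jF (kF κ₀) (rZ Z xt) (rZ Z yt) := fun x y => by
    rw [hκ0]
    exact hPr x y
  obtain ⟨-, -, -, -, -, -, e7, -, -⟩ := hEQV k Z Q F2 R2 jF D M K W hLb F Ω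
  obtain ⟨-, -, -, -, -, -, h7⟩ := hHGT k Z Q F2 R2 jF D M K W hLb F lam hlam Ω
  obtain ⟨-, -, t3⟩ := hTPX k Z Q F2 R2 jF D M K W hF hLb F lam hlam Ω
  obtain ⟨σ, hσ, hσt⟩ := hK.tr2 Ω xt yt κ₀ κ hκ₀ hκ
  obtain ⟨t₀, htx, hty⟩ := hT 1 σ
  have htx' : ∀ f, t₀ (xt f) = xt f := htx
  have ht := hσt t₀ htx' hty
  have hκe : tc t₀ κ₀ = κ := AlgHom.ext ht
  have hκs : tc t₀.symm κ = κ₀ := by rw [← hκe, symm_tc]
  have hκ'' : Pr jF (kF (tc t₀.symm κ')) (rZ Z (cmp xt a)) (rZ Z yt) := by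
    intro x y
    show t₀.symm (κ' (algebraMap F2 K (jF (x ⊗ₜ y)))) =
      xt (a (algebraMap Z F x)) * yt (algebraMap Z F y)
    have h1 : κ' (algebraMap F2 K (jF (x ⊗ₜ y))) =
      xt (a (algebraMap Z F x)) * yt (algebraMap Z F y) := hκ' x y
    rw [h1, AlgEquiv.symm_apply_eq, map_mul, htx', hty, hσ y]
  have hw2 := t3 κ w t₀.symm hw1
  rw [hκs] at hw2
  have h8 := step1 hEQV hHGT hTPX hF hLb hK hlam xt yt hT κ₀ wt hκ₀ hw hL a ha (tc t₀.symm κ')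
    (tc t₀.symm w) (tc t₀.symm w') hκ'' hw2 (t3 κ' w' t₀.symm hw1') (e7 _ _ t₀.symm he)
  have h9 := h7 _ _ _ t₀ h8
  rwa [tc_symm, tc_symm] at h9

end Pool.Agent.Lib.MP_c37a72_al.LP
end

section
/-!
# MP_c37a72_al, block LP, module TPX (helper41)
-/
set_option autoImplicit false

open scoped TensorProduct
open Coalgebra HopfAlgebra

namespace Pool.Agent.Lib.MP_c37a72_al.LP

open Pool.Agent.Lib.MP_c37a72_al.LB

universe u v w

/-- **TPX**. -/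
theorem specTPX (hEQV : SpecEQV.{u, v}) (hHGT : SpecHGT.{u, v}) (hCKE : SpecCKE.{u, v})
    (hFIN : LB.SpecFIN.{u, v}) (hSTM : LB.SpecSTM.{u, v}) : SpecTPX.{u, v} := by
  intro k Z Q F2 R2 _ _ _ _ _ _ _ _ _ _ _ _ _ _ _ _ jF D M K W hF hLb F _ _ _ _ _ _ lam hlam
    Ω _ _ _
  obtain ⟨-, -, -, -, -, he, -, -, -⟩ := hEQV k Z Q F2 R2 jF D M K W hLb F Ω
  obtain ⟨-, huniq, hrefl, htrans, hsymm, heqv, ht⟩ :=
    hHGT k Z Q F2 R2 jF D M K W hLb F lam hlam Ω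
  obtain ⟨-, -, -, -, hst, -, -⟩ := hCKE k Z Q F2 R2 jF D M K W hF hLb F Ω
  obtain ⟨hS1, -, hS3, -⟩ := hSTM k Z Q F2 R2 D M K hLb.imk Ω
  refine ⟨fun κ => ?_, ?_, ?_⟩
  · have hfin : {w : Z →ₐ[k] Ω | Star D K κ w}.Finite :=
      ((hFIN k Z Q F2 R2 D K hLb.imk.fieldK Ω _).1).subset fun w hw => hS1 κ w hw
    obtain ⟨w0, hw0⟩ := hS3 κ
    have hex : ∀ v : Z →ₐ[k] Ω, Star D K κ v → ∃ n, Hgt F Z D W lam v w0 n := fun v hv =>
      (heqv w0 v).1 (he κ w0 v hw0 hv)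
    choose! ht' hht using hex
    obtain ⟨w, hw, hmax⟩ := hfin.exists_maximalFor ht' _ ⟨w0, hw0⟩
    refine ⟨w, hw, fun v n hv hn => ?_⟩
    have h1 := htrans w0 w v _ _ (hht w hw) hn
    have h2 := huniq v w0 _ _ (hht v hv) h1
    by_contra hcon
    have h3 : ht' w ≤ ht' v := by omega
    have h4 := hmax hv h3
    omega
  · rintro κ w w' ⟨hw, hwt⟩ ⟨hw', hwt'⟩
    obtain ⟨n, hn⟩ := (heqv w w').1 (he κ w w' hw hw')
    have h1 := hwt w' n hw' hn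
    have h2 := hwt' w (-n) hw (hsymm w w' n hn)
    have h3 : n = 0 := by omega
    rwa [h3] at hn
  · rintro κ w t ⟨hw, hwt⟩
    refine ⟨hst κ w t hw, fun v n hv hn => ?_⟩
    have h1 : tc t.symm (tc t κ) = κ := by
      ext a
      simp
    have h2 : tc t.symm (tc t w) = w := by
      ext a
      simp
    have h3 := hst (tc t κ) v t.symm hv
    rw [h1] at h3
    have h4 := ht (tc t w) v n t.symm hn
    rw [h2] at h4
    exact hwt _ n h3 h4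

end Pool.Agent.Lib.MP_c37a72_al.LP
end
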