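import Pool.Agent.Lib.MP_c37a72_al.LP.Base

/-!
# MP_c37a72_al, block LP (labels, part 2): Specs

Text: `/team-store/MP_c37a72_labels.md`, (1.4) - (3.4). Result of the block (`SpecLP`): for `K2` a field,
`C(K2) = M2` and the input `KPk` from constancy (REDUCED CASE) there are a field `E ≤ Z`, `[Z : E] < ∞`, and
`δ : E → K2` such that `D f - δ f` is nilpotent for `f ∈ E`.

Module `XXX` is the file `Pool/Agent/Lib/MP_c37a72_al/LP/XXX.lean`, which imports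
`Pool.Agent.Lib.MP_c37a72_al.LP.Spec`, with `theorem specXXX (hYYY : SpecYYY) .. : SpecXXX` in the namespace
`Pool.Agent.Lib.MP_c37a72_al.LP`; every Spec of this file and every Spec of `LB/Spec.lean` (`LB.SpecYYY`; all
of them are proved: `LB/All.lean`, theorems `LB.All.hYYY`) may be taken as a hypothesis; own lemmas in the
namespace `Pool.Agent.Lib.MP_c37a72_al.LP.XXXM`.

Notation: `g = gZ k Z F`, `G0 = G0 F Z D W`, `a|Z` the restriction to `Z`, `w ∈ *κ` is `Star D K κ w`, `κ` lies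
over `(x, y)` if `Pr jF (kF κ) x y`; homomorphisms out of `F2` are determined by their values on
`jF (a ⊗ 1)`, `jF (1 ⊗ b)` (`IsFrc.surj`), so `κ, κ'` over the same pair have `kF κ = kF κ'`.
-/

set_option autoImplicit false

open scoped TensorProduct
open Coalgebra HopfAlgebra

namespace Pool.Agent.Lib.MP_c37a72_al.LP

open Pool.Agent.Lib.MP_c37a72_al.LB

universe u v w

/-! ## Part A: abstract modules -/

/-- **GRP** (300 lines). Group theory of (1.4) - (1.6) and section 2.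

PROOF. `Ker := {t : p1 t = 1, p2 t = 1}`, normal in `GG`, `≤ Stb` (`ker`). `ff := ch(Ker) ≤ G0`, a subgroup,
normalised by `ch(Stb)`. `AAx := {a ∈ G0 : every t with p1 t = a, p2 t = 1 lies in Stb}` (one such `t` is
enough: two of them differ by `Ker`), `AAy` the same with `p1 t = 1, p2 t = b`: subgroups of `G0`.
(1) `AAx` is normalised by `G0`: let `t` have `(p1, p2) = (a, 1)`, `a ∈ AAx`, and `b ∈ G0`, `u` with
`(b, 1)` (`surj`). `tr2` for `u⁻¹`: `s` with `p1 s = 1` and `v := s u⁻¹ ∈ Stb`. `u t u⁻¹ = v⁻¹ (s t s⁻¹) v`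
and `s t s⁻¹` has `(a, 1)`, so it is in `Stb`: `u t u⁻¹ ∈ Stb`, it has `(b a b⁻¹, 1)`. The same for `AAy` (`tr1`).
(2) `G0 = AAx g`: `z ∈ G0`, `t` with `(z, 1)`; `tr1` for `t⁻¹`: `s` with `(σ, 1)`, `σ ∈ g`, `s t⁻¹ ∈ Stb`; so
`t s⁻¹ ∈ Stb` has `(z σ⁻¹, 1)`: `z σ⁻¹ ∈ AAx`. The same `G0 = AAy g` (`tr2`).
(3) `AA := AAx ⊓ AAy`; `G0 = AA g`: `z = a σ = b τ`, `a ∈ AAx`, `b ∈ AAy`; by `red` `σ = σ₁ σ₂`, `τ = τ₁ τ₂` with
`σ₁, τ₁ ∈ AAx ⊓ g`, `σ₂, τ₂ ∈ AAy ⊓ g`. With `π := τ₁ σ₂ ∈ g`: `z π⁻¹ ∈ AAx` (modulo the normal subgroup `AAx`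
of `G0`: `z = σ₂ = π`) and `z π⁻¹ ∈ AAy` (`z = τ₁ = π` modulo `AAy`).
(4) For `a ∈ AAx` there is `t ∈ Stb` with `(a, 1)` and `ch t = a` (`pl1`: `ch t₀ = a ch s`; `t := t₀ s⁻¹`).
For `b ∈ AAy` there is `t' ∈ Stb` with `(1, b)` and `ch t' = ρ b ρ⁻¹` (`pl2`).
(5) `[t, t'] ∈ Ker`, so `[a, ρ b ρ⁻¹] ∈ ff` for `a ∈ AAx, b ∈ AAy`; `AAy` is normal in `G0`, `ρ ∈ G0`: `[a, b] ∈ ff`
for all `a ∈ AAx, b ∈ AAy`. `AAx, AAy ≤ ch(Stb)` normalise `ff`.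
(6) For `σ = σ₁ σ₂ ∈ g` (`σ₁ ∈ AAx, σ₂ ∈ AAy`) and `a ∈ AA`: `[σ, a] = σ₁ [σ₂, a] σ₁⁻¹ [σ₁, a] ∈ ff ⊓ AA`
(with `[x, y] = x y x⁻¹ y⁻¹`). Also `[AA, AA] ≤ ff ⊓ AA`.
(7) `N := (ff ⊓ AA)(g ⊓ AA)`, a normal subgroup of `AA` with `AA / N` abelian. `μ : G0 → AA / N`,
`μ(a σ) := a N` (`a ∈ AA, σ ∈ g`), is well defined and a homomorphism:
`(a σ)(a' σ') = a [σ, a'] a' σ σ'`. `μ(g) = 1`. By `fg` `AA / N` is generated by `μ(S)`: a finitely generated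
abelian group.
(8) If `AA / N` is finite, with representatives `a_1, .., a_r`, then `G0 = ⋃ a_i N g = ⋃ a_i (ff ⊓ AA) g` and
`ff ⊆ ⋃ φ g` (`ch_fin`), `G0 ⊆ ⋃ a_i φ g`: first alternative.
(9) Otherwise there is a homomorphism `f : AA / N → ℤ`, `f ≠ 0` (structure of finitely generated abelian
groups). `lam z := f(μ z)` for `z ∈ G0`. On `ff`: `lam` has finitely many values (`ch_fin`:
`lam(φ σ) = lam φ`), so `lam(ff)`, a finite subgroup of `ℤ`, is `0`. By `pl1` for `p2 t = 1`: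
`lam(ch t) = lam(p1 t) + lam(ch s) = lam(p1 t)`. -/
def SpecGRP : Prop :=
  ∀ (G GG : Type v) [Group G] [Group GG] (G0 g : Subgroup G) (p1 p2 : GG →* G) (Stb : Subgroup GG)
    (ch : Stb →* G), GD G0 g p1 p2 Stb ch →
    (∃ Φ : Finset G, ∀ z ∈ G0, ∃ φ ∈ Φ, ∃ σ ∈ g, z = φ * σ) ∨
    ∃ lam : G → ℤ, Lam G0 g lam ∧ (∃ a ∈ G0, lam a ≠ 0) ∧
      ∀ t : Stb, p2 t = 1 → lam (ch t) = lam (p1 t)

/-- **AAB** (150 lines). Points of two commutative subalgebras.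

PROOF. `T := A ⊗_E B` (commutative) acts on `R`: `(x ⊗ y) r = x r y`. `I := {t : t (a b) = 0}`, a proper
ideal (`a b ≠ 0`); `T / I → R`, `t ↦ t (a b)`, is injective and `E`-linear, so `T / I` is finite over `E`. Let
`π : T / I → Ω` be a homomorphism over `ξ` (a maximal ideal of `T / I`, `IsAlgClosed.lift`; or LB.SpecEXT).
`α x := π(x ⊗ 1)`, `β y := π(1 ⊗ y)`. For `c ∈ A ∩ B`: `(c ⊗ 1 - 1 ⊗ c)(a b) = c a b - a b c = a c b - a c b = 0`.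
`(a ⊗ 1)(a b) = a b = (1 ⊗ b)(a b)`. -/
def SpecAAB : Prop :=
  ∀ (E R Ω : Type v) [Field E] [Ring R] [Algebra E R] [Module.Finite E R] [Field Ω] [IsAlgClosed Ω]
    (ξ : E →+* Ω) (A B : Subalgebra E R), (∀ x ∈ A, ∀ y ∈ A, x * y = y * x) →
    (∀ x ∈ B, ∀ y ∈ B, x * y = y * x) → ∀ a ∈ A, ∀ b ∈ B, a * a = a → b * b = b → a * b ≠ 0 →
    ∃ (α : A →+* Ω) (β : B →+* Ω), (∀ c : E, α (algebraMap E A c) = ξ c) ∧
      (∀ c : E, β (algebraMap E B c) = ξ c) ∧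
      (∀ (c : R) (h : c ∈ A) (h' : c ∈ B), α ⟨c, h⟩ = β ⟨c, h'⟩) ∧
      (∀ h : a ∈ A, α ⟨a, h⟩ = 1) ∧ ∀ h : b ∈ B, β ⟨b, h⟩ = 1

/-- **IDM** (200 lines). Idempotents with prescribed values; an element without nonzero value is nilpotent.

PROOF. `P` is a commutative ring, finite over `E`, so artinian. Every maximal ideal of `P` is the kernel of a
homomorphism `P → Ω` over `E` (`IsAlgClosed.lift`), and two homomorphisms with the same kernel differ by an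
`E`-automorphism of `Ω` (`Ω` is an algebraic closure of the image of `P / m`). So `S` is the set of
all `φ` with `ker φ ∈ 𝒮` for a set `𝒮` of maximal ideals. Chinese remainder theorem: `x ∈ P` with
`x = 1` modulo `m ∈ 𝒮` and `x = 0` modulo the other maximal ideals; `x² - x` is in the Jacobson radical, which
is nilpotent: lift to an idempotent `e`, `e - x` nilpotent. Second statement: `x` is in all maximal
ideals. -/
def SpecIDM : Prop :=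
  ∀ (E R Ω : Type v) [Field E] [Ring R] [Algebra E R] [Module.Finite E R] [Field Ω] [IsAlgClosed Ω]
    [Algebra E Ω] [Algebra.IsAlgebraic E Ω] (P : Subalgebra E R), (∀ x ∈ P, ∀ y ∈ P, x * y = y * x) →
    (∀ S : Set (P →ₐ[E] Ω), (∀ φ ∈ S, ∀ s : Ω ≃ₐ[E] Ω, (s : Ω →ₐ[E] Ω).comp φ ∈ S) →
      ∃ e : P, e * e = e ∧ (∀ φ ∈ S, φ e = 1) ∧ ∀ φ, φ ∉ S → φ e = 0) ∧
    ∀ x : P, (∀ φ : P →ₐ[E] Ω, φ x = 0) → IsNilpotent x

/-- **BDG** (80 lines). Bounded degree implies finite, characteristic `0`.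

PROOF. `Z / E` is algebraic. Choose `z₀` with `[E(z₀) : E]` maximal (bounded by `B`). For `z ∈ Z` the
extension `E(z₀, z) / E` is finite separable, so `E(z₀, z) = E(z₁)` (`Field.exists_primitive_element`), and
`[E(z₁) : E] ≤ [E(z₀) : E]`: `z ∈ E(z₀)`. So `Z = E(z₀)`. -/
def SpecBDG : Prop :=
  ∀ (E Z : Type v) [Field E] [CharZero E] [Field Z] [Algebra E Z] (B : ℕ),
    (∀ z : Z, ∃ p : Polynomial E, p.Monic ∧ p.natDegree ≤ B ∧ Polynomial.aeval z p = 0) →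
    Module.Finite E Z

/-- **EFN** (150 lines). The field `E = Z^{G0}` for `[G0 : g] < ∞`.

PROOF (BDG). `E := {f ∈ Z : τ f = f for τ ∈ G}`, closed under inverses. For `z ∈ Z` the set
`O := {τ z : τ ∈ G}` is contained in `{φ z : φ ∈ Φ}` (`σ z = z` for `σ ∈ g`); `∏_{o ∈ O} (X - o)` is a monic
polynomial of degree `≤ |Φ|` with root `z`, and its coefficients are fixed by `G` (every `τ ∈ G` permutes
`O`). An element of `F` fixed by `g` is in `Z` (`F / Z` is Galois: algebraic closure, characteristic `0`).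
So the coefficients are in `E`. -/
def SpecEFN : Prop :=
  ∀ (k : Type u) (Z F : Type v) [Field k] [CharZero k] [Field Z] [Algebra k Z] [Field F]
    [IsAlgClosed F] [Algebra k F] [Algebra Z F] [IsScalarTower k Z F] [Algebra.IsAlgebraic Z F]
    (G : Subgroup (F ≃ₐ[k] F)), gZ k Z F ≤ G →
    (∃ Φ : Finset (F ≃ₐ[k] F), ∀ z ∈ G, ∃ φ ∈ Φ, ∃ σ ∈ gZ k Z F, z = φ * σ) →
    ∃ E : Subalgebra k Z, IsField E ∧ Module.Finite E Z ∧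
      ∀ f : Z, f ∈ E ↔ ∀ τ ∈ G, τ (algebraMap Z F f) = algebraMap Z F f

/-! ## Part B: classes -/

/-- **EQV** (200 lines). The relation `~` on points.

PROOF. (i) two lifts `wt, wt'` of a point have the same image (the algebraic closure of `w(Z)` in `Ω`), so
`wt' = wt ∘ σ` with an automorphism `σ` of `F`, which is the identity on `Z`: `σ ∈ g`. (h)
`IsAlgClosed.lift`. (a) `Eqv w w'` with the lift `wt' = wt ∘ σ`: `w' = wt ∘ (σ τ)|Z`. (b) `τ = 1`. (c)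
`w' = wt ∘ τ|Z`: `wt ∘ τ` is a lift of `w'`, `w = (wt ∘ τ) ∘ τ⁻¹|Z`. (d) with (a). (e) LAB; `Lab ⊆ G0`.
(f) R11 and (e). (g) `t ∘ wt` is a lift of `t ∘ w`. -/
def SpecEQV : Prop :=
  ∀ (k : Type u) (Z Q F2 R2 : Type v) [Field k] [Field Z] [Algebra k Z] [DivisionRing Q]
    [Algebra k Q] [Algebra Z Q] [IsScalarTower k Z Q] [Field F2] [Algebra k F2] [Ring R2]
    [Algebra k R2] [Algebra F2 R2] [IsScalarTower k F2 R2] [Module.Finite Z Q] [Module.Finite F2 R2]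
    (jF : Z ⊗[k] Z →ₐ[k] F2) (D : Q →ₐ[k] R2) (M K : Subalgebra F2 R2) (W : Submodule k R2),
    Lb jF D M K W → ∀ (F : Type v) [Field F] [IsAlgClosed F] [Algebra k F] [Algebra Z F]
    [IsScalarTower k Z F] [Algebra.IsAlgebraic Z F] (Ω : Type v) [Field Ω] [IsAlgClosed Ω]
    [Algebra k Ω],
    (∀ w w' : Z →ₐ[k] Ω, Eqv F Z D W w w' → ∀ wt : F →ₐ[k] Ω, (∀ a, wt (algebraMap Z F a) = w a) →
      ∃ τ ∈ G0 F Z D W, ∀ a, w' a = wt (τ (algebraMap Z F a))) ∧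
    (∀ w : Z →ₐ[k] Ω, Eqv F Z D W w w) ∧
    (∀ w w' : Z →ₐ[k] Ω, Eqv F Z D W w w' → Eqv F Z D W w' w) ∧
    (∀ w w' w'' : Z →ₐ[k] Ω, Eqv F Z D W w w' → Eqv F Z D W w' w'' → Eqv F Z D W w w'') ∧
    (∀ w w' : Z →ₐ[k] Ω, Rel D W w' w → Eqv F Z D W w w') ∧
    (∀ (κ : K →ₐ[k] Ω) (w w' : Z →ₐ[k] Ω), Star D K κ w → Star D K κ w' → Eqv F Z D W w w') ∧
    (∀ (w w' : Z →ₐ[k] Ω) (t : Ω ≃ₐ[k] Ω), Eqv F Z D W w w' → Eqv F Z D W (tc t w) (tc t w')) ∧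
    (∀ w : Z →ₐ[k] Ω, ∃ wt : F →ₐ[k] Ω, ∀ a, wt (algebraMap Z F a) = w a) ∧
    ∀ wt wt' : F →ₐ[k] Ω, (∀ a : Z, wt (algebraMap Z F a) = wt' (algebraMap Z F a)) →
      ∃ σ ∈ gZ k Z F, ∀ f, wt' f = wt (σ f)

/-- **HGT** (150 lines). Heights.

PROOF (EQV, part (i)). If `w' = wt ∘ τ|Z = wt ∘ τ'|Z` then `τ⁻¹ τ' ∈ g`, so `lam τ = lam τ'`; with another lift
`wt ∘ σ`: `w' = (wt ∘ σ) ∘ (σ⁻¹ τ)|Z`. This is (1) and the first line. (3): `wt ∘ τ` is a lift of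
`w' = wt ∘ τ|Z`; `w'' = (wt ∘ τ) ∘ τ'|Z`, `lam(τ τ') = lam τ + lam τ'`. `lam 1 = 0`, `lam τ⁻¹ = - lam τ`. -/
def SpecHGT : Prop :=
  ∀ (k : Type u) (Z Q F2 R2 : Type v) [Field k] [Field Z] [Algebra k Z] [DivisionRing Q]
    [Algebra k Q] [Algebra Z Q] [IsScalarTower k Z Q] [Field F2] [Algebra k F2] [Ring R2]
    [Algebra k R2] [Algebra F2 R2] [IsScalarTower k F2 R2] [Module.Finite Z Q] [Module.Finite F2 R2]
    (jF : Z ⊗[k] Z →ₐ[k] F2) (D : Q →ₐ[k] R2) (M K : Subalgebra F2 R2) (W : Submodule k R2),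
    Lb jF D M K W → ∀ (F : Type v) [Field F] [IsAlgClosed F] [Algebra k F] [Algebra Z F]
    [IsScalarTower k Z F] [Algebra.IsAlgebraic Z F] (lam : (F ≃ₐ[k] F) → ℤ),
    Lam (G0 F Z D W) (gZ k Z F) lam → ∀ (Ω : Type v) [Field Ω] [IsAlgClosed Ω] [Algebra k Ω],
    (∀ (w' w : Z →ₐ[k] Ω) (n : ℤ), Hgt F Z D W lam w' w n → ∀ wt : F →ₐ[k] Ω,
      (∀ a, wt (algebraMap Z F a) = w a) →
      ∃ τ ∈ G0 F Z D W, (∀ a, w' a = wt (τ (algebraMap Z F a))) ∧ lam τ = n) ∧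
    (∀ (w' w : Z →ₐ[k] Ω) (n m : ℤ), Hgt F Z D W lam w' w n → Hgt F Z D W lam w' w m → n = m) ∧
    (∀ w : Z →ₐ[k] Ω, Hgt F Z D W lam w w 0) ∧
    (∀ (w w' w'' : Z →ₐ[k] Ω) (n m : ℤ), Hgt F Z D W lam w' w n → Hgt F Z D W lam w'' w' m →
      Hgt F Z D W lam w'' w (n + m)) ∧
    (∀ (w w' : Z →ₐ[k] Ω) (n : ℤ), Hgt F Z D W lam w' w n → Hgt F Z D W lam w w' (-n)) ∧
    (∀ w w' : Z →ₐ[k] Ω, Eqv F Z D W w w' ↔ ∃ n, Hgt F Z D W lam w' w n) ∧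
    ∀ (w w' : Z →ₐ[k] Ω) (n : ℤ) (t : Ω ≃ₐ[k] Ω), Hgt F Z D W lam w' w n →
      Hgt F Z D W lam (tc t w') (tc t w) n

/-- **TEX** (150 lines). Automorphisms of `Ω` with prescribed restriction to `xt(F) yt(F)`.

PROOF. (1) `mm xt yt` is injective: LB.SpecXIP gives it for `mu k xt yt`; flip. (2) `F2` is the fraction
field of the image of `Z ⊗ Z`, so its image in `Ω` is contained in `EE xt yt`, and `Ω` is algebraic over `F2`,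
so over `EE xt yt`. The same for `yt, xt`. (3) `EE xt yt` is the fraction field of `F ⊗ F`
(`CNJM.isFrc_mE`); `mm (xt ∘ a) (yt ∘ b)` is injective too, so it extends to a homomorphism
`EE xt yt → Ω` (`IsFrc.exists_lift`), and this one extends to a homomorphism `t : Ω → Ω` (`Ω` is algebraic over
`EE`, `IsAlgClosed.lift`). It is surjective: the image contains `xt(a F) = xt(F)` and `yt(F)`, so `EE`, is
algebraically closed, and `Ω` is algebraic over `EE`. -/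
def SpecTEX : Prop :=
  ∀ (k : Type u) (Z F2 : Type v) [Field k] [IsAlgClosed k] [Field Z] [Algebra k Z] [Field F2]
    [Algebra k F2] (jF : Z ⊗[k] Z →ₐ[k] F2), IsFrc jF → ∀ (F : Type v) [Field F] [IsAlgClosed F]
    [Algebra k F] [Algebra Z F] [IsScalarTower k Z F] [Algebra.IsAlgebraic Z F] (Ω : Type v)
    [Field Ω] [IsAlgClosed Ω] [Algebra k Ω] [Algebra F2 Ω] [IsScalarTower k F2 Ω]
    [Algebra.IsAlgebraic F2 Ω] (xt yt : F →ₐ[k] Ω),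
    Pr jF (IsScalarTower.toAlgHom k F2 Ω) (rZ Z xt) (rZ Z yt) →
    Function.Injective (CNJM.mm xt yt) ∧ Function.Injective (CNJM.mm yt xt) ∧
    Algebra.IsAlgebraic (CNJM.EE xt yt) Ω ∧ Algebra.IsAlgebraic (CNJM.EE yt xt) Ω ∧
    ∀ a b : F ≃ₐ[k] F, ∃ t : Ω ≃ₐ[k] Ω, (∀ f, t (xt f) = xt (a f)) ∧ ∀ f, t (yt f) = yt (b f)

/-- **CLS** (200 lines). (1.3) iterated: every point of `(xt a) * (yt b)`, `a, b ∈ G0`, is equivalent to a point of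
`xt * yt`.

PROOF. First `b = 1`, all `(xt, yt)`, induction on `a` (`Subgroup.closure_induction_right`):
let `v ∈ (xt a τ) * yt`. `τ ∈ g`: `a τ = a` on `Z`. `τ ∈ Lab`: `Rel D W (rs Z τ) (rs Z 1)`, compose with
`xt ∘ a`: `Rel D W (xt a τ|Z) (xt a|Z)`; `r1l` (`ξ''` over `(xt a, yt)` exists: LB.SpecXIP) gives
`v₀ ∈ (xt a) * yt` with `Rel D W v v₀`, so `Eqv v₀ v` (EQV), and the induction hypothesis for `v₀`. For `τ⁻¹`:
`Rel D W (xt a τ⁻¹|Z) (xt a|Z)` is `symm` of the relation for `xt a τ⁻¹` and `τ`. Then the induction on `b`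
with `r1r` (for `(xt a, yt b τ)`). -/
def SpecCLS : Prop :=
  ∀ (k : Type u) (Z Q F2 R2 : Type v) [Field k] [IsAlgClosed k] [Field Z] [Algebra k Z]
    [DivisionRing Q] [Algebra k Q] [Algebra Z Q] [IsScalarTower k Z Q] [Field F2] [Algebra k F2]
    [Ring R2] [Algebra k R2] [Algebra F2 R2] [IsScalarTower k F2 R2] [Module.Finite Z Q]
    [Module.Finite F2 R2] (jF : Z ⊗[k] Z →ₐ[k] F2) (D : Q →ₐ[k] R2) (M K : Subalgebra F2 R2)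
    (W : Submodule k R2), IsFrc jF → Lb jF D M K W → ∀ (F : Type v) [Field F] [IsAlgClosed F]
    [Algebra k F] [Algebra Z F] [IsScalarTower k Z F] [Algebra.IsAlgebraic Z F] (Ω : Type v)
    [Field Ω] [IsAlgClosed Ω] [Algebra k Ω] (xt yt : F →ₐ[k] Ω) (ξ : F2 →ₐ[k] Ω),
    Pr jF ξ (rZ Z xt) (rZ Z yt) → ∀ a ∈ G0 F Z D W, ∀ b ∈ G0 F Z D W, ∀ ξ' : F2 →ₐ[k] Ω,
    Pr jF ξ' (rZ Z (cmp xt a)) (rZ Z (cmp yt b)) → ∀ v : Z →ₐ[k] Ω, Mul D ξ' v →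
    ∃ w : Z →ₐ[k] Ω, Mul D ξ w ∧ Eqv F Z D W w v

/-- **CKE** (150 lines). The relation `~` on the points of `K`.

PROOF (EQV, CLS, LB.SpecSTM). `*κ` is not empty, all its points are equivalent (EQV (f)); this gives the
first four statements. `tc t w ∈ *(tc t κ)` for `w ∈ *κ`. Last: let `v ∈ *κ'` (STM (3)), so
`Mul D (kF κ') v` (STM (1)); CLS: `w` with `Mul D ξ w`, `Eqv w v`; STM (2): `κ` over `ξ` with `w ∈ *κ`. -/
def SpecCKE : Prop :=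
  ∀ (k : Type u) (Z Q F2 R2 : Type v) [Field k] [IsAlgClosed k] [Field Z] [Algebra k Z]
    [DivisionRing Q] [Algebra k Q] [Algebra Z Q] [IsScalarTower k Z Q] [Field F2] [Algebra k F2]
    [Ring R2] [Algebra k R2] [Algebra F2 R2] [IsScalarTower k F2 R2] [Module.Finite Z Q]
    [Module.Finite F2 R2] (jF : Z ⊗[k] Z →ₐ[k] F2) (D : Q →ₐ[k] R2) (M K : Subalgebra F2 R2)
    (W : Submodule k R2), IsFrc jF → Lb jF D M K W → ∀ (F : Type v) [Field F] [IsAlgClosed F]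
    [Algebra k F] [Algebra Z F] [IsScalarTower k Z F] [Algebra.IsAlgebraic Z F] (Ω : Type v)
    [Field Ω] [IsAlgClosed Ω] [Algebra k Ω],
    (∀ κ : K →ₐ[k] Ω, Cls F Z D W κ κ) ∧
    (∀ κ κ' : K →ₐ[k] Ω, Cls F Z D W κ κ' → Cls F Z D W κ' κ) ∧
    (∀ κ κ' κ'' : K →ₐ[k] Ω, Cls F Z D W κ κ' → Cls F Z D W κ' κ'' → Cls F Z D W κ κ'') ∧
    (∀ (κ κ' : K →ₐ[k] Ω) (w w' : Z →ₐ[k] Ω), Star D K κ w → Star D K κ' w' →
      (Cls F Z D W κ κ' ↔ Eqv F Z D W w w')) ∧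
    (∀ (κ : K →ₐ[k] Ω) (w : Z →ₐ[k] Ω) (t : Ω ≃ₐ[k] Ω), Star D K κ w →
      Star D K (tc t κ) (tc t w)) ∧
    (∀ (κ κ' : K →ₐ[k] Ω) (t : Ω ≃ₐ[k] Ω), Cls F Z D W κ κ' →
      Cls F Z D W (tc t κ) (tc t κ')) ∧
    ∀ (xt yt : F →ₐ[k] Ω) (ξ : F2 →ₐ[k] Ω), Pr jF ξ (rZ Z xt) (rZ Z yt) → ∀ a ∈ G0 F Z D W,
      ∀ b ∈ G0 F Z D W, ∀ κ' : K →ₐ[k] Ω,
      Pr jF (kF κ') (rZ Z (cmp xt a)) (rZ Z (cmp yt b)) →
      ∃ κ : K →ₐ[k] Ω, (∀ c, kF κ c = ξ c) ∧ Cls F Z D W κ κ'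

/-- **SCH** (200 lines). The stabiliser and the homomorphism `χ` of (1.5).

PROOF (EQV, CKE). `Stb := {t : Cls (t κ₀) κ₀}`, a subgroup by CKE. For `t ∈ Stb`: `t ∘ wt|Z ∈ *(t κ₀)`, so
`Eqv (wt|Z) (t ∘ wt|Z)` (CKE (4)); by EQV (a), (i) `t ∘ wt = wt ∘ χ` with `χ ∈ G0`, unique as `wt` is injective;
multiplicative. Last statement: if `p1 t = p2 t = 1` then `t κ₀ = κ₀` by `KPk.fix`, `t ∘ wt|Z ∈ *κ₀`, a finite
set (LB.SpecFIN, STM (1)); `wt ∘ χ|Z = wt ∘ χ'|Z` implies `χ⁻¹ χ' ∈ g`. -/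
def SpecSCH : Prop :=
  ∀ (k : Type u) (Z Q F2 R2 : Type v) [Field k] [IsAlgClosed k] [Field Z] [Algebra k Z]
    [DivisionRing Q] [Algebra k Q] [Algebra Z Q] [IsScalarTower k Z Q] [Field F2] [Algebra k F2]
    [Ring R2] [Algebra k R2] [Algebra F2 R2] [IsScalarTower k F2 R2] [Module.Finite Z Q]
    [Module.Finite F2 R2] (jF : Z ⊗[k] Z →ₐ[k] F2) (D : Q →ₐ[k] R2) (M K : Subalgebra F2 R2)
    (W : Submodule k R2), IsFrc jF → Lb jF D M K W → ∀ (F : Type v) [Field F] [IsAlgClosed F]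
    [Algebra k F] [Algebra Z F] [IsScalarTower k Z F] [Algebra.IsAlgebraic Z F], KPk F jF K →
    ∀ (Ω : Type v) [Field Ω] [IsAlgClosed Ω] [Algebra k Ω] (xt yt : F →ₐ[k] Ω) (κ₀ : K →ₐ[k] Ω)
      (wt : F →ₐ[k] Ω), Pr jF (kF κ₀) (rZ Z xt) (rZ Z yt) → Star D K κ₀ (rZ Z wt) →
    ∃ (Stb : Subgroup (GGt (G0 F Z D W) xt yt)) (ch : Stb →* (F ≃ₐ[k] F)),
      (∀ t, t ∈ Stb ↔ Cls F Z D W (tc (pt (G0 F Z D W) xt yt t) κ₀) κ₀) ∧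
      (∀ t, ch t ∈ G0 F Z D W) ∧
      (∀ (t : Stb) (f : F), pt (G0 F Z D W) xt yt t (wt f) = wt (ch t f)) ∧
      ∃ Φ : Finset (F ≃ₐ[k] F), ∀ t : Stb, pa (G0 F Z D W) xt yt t = 1 →
        pb (G0 F Z D W) xt yt t = 1 → ∃ φ ∈ Φ, ∃ σ ∈ gZ k Z F, ch t = φ * σ

/-! ## Part C: places -/

/-- **PLL** (120 lines). A point with residue `id` on `Z` has a lift with residue `id`.

PROOF. Let `wt₀` be a lift of `w` (`IsAlgClosed.lift`). `wt₀ f` is integral over the field `w(Z)`, on which `P`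
is finite, so `P` is finite at `wt₀ f` (`int_closed`, CNJ.lean): `P.r (wt₀ f) (ρ f)`. `ρ : F → F` is a
homomorphism (`P.uniq`), the identity on `Z`, so an automorphism (`F / Z` algebraic:
`Algebra.IsAlgebraic.algHom_bijective`), `ρ ∈ g`. `wt := wt₀ ∘ ρ⁻¹`. -/
def SpecPLL : Prop :=
  ∀ (k : Type u) (Z F Ω : Type v) [Field k] [Field Z] [Algebra k Z] [Field F] [IsAlgClosed F]
    [Algebra k F] [Algebra Z F] [IsScalarTower k Z F] [Algebra.IsAlgebraic Z F] [Field Ω]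
    [IsAlgClosed Ω] [Algebra k Ω] (P : Pl Ω F) (w : Z →ₐ[k] Ω),
    (∀ z, P.r (w z) (algebraMap Z F z)) →
    ∃ wt : F →ₐ[k] Ω, (∀ z, wt (algebraMap Z F z) = w z) ∧ ∀ f, P.r (wt f) f

/-- **PL1** (200 lines). (1.6): `χ_w(t)` for `t = (a, 1)` and a point `w` with a place.

PROOF (EQV, TEX). `label16` (CNJ.lean) with `τ = id`: `s` with `s xt = xt`, `s yt = yt` and
`P.r (s (wt f)) (a⁻¹ (χ f))`. `KPk.fix`: `s κ₀ = κ₀`, so `s ∘ wt|Z ∈ *κ₀` is equivalent to `wt|Z` (EQV (f)) and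
`s ∘ wt = wt ∘ n`, `n ∈ G0` (EQV (a), (i)). `P.r (wt (n f)) (n f)` and uniqueness of residues: `n f = a⁻¹ (χ f)`.
The second statement is `label16` with `xt` and `yt` exchanged. -/
def SpecPL1 : Prop :=
  ∀ (k : Type u) (Z Q F2 R2 : Type v) [Field k] [IsAlgClosed k] [CharZero k] [Field Z] [Algebra k Z]
    [DivisionRing Q] [Algebra k Q] [Algebra Z Q] [IsScalarTower k Z Q] [Field F2] [Algebra k F2]
    [Ring R2] [Algebra k R2] [Algebra F2 R2] [IsScalarTower k F2 R2] [Module.Finite Z Q]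
    [Module.Finite F2 R2] (jF : Z ⊗[k] Z →ₐ[k] F2) (D : Q →ₐ[k] R2) (M K : Subalgebra F2 R2)
    (W : Submodule k R2), IsFrc jF → Lb jF D M K W → ∀ (F : Type v) [Field F] [IsAlgClosed F]
    [Algebra k F] [Algebra Z F] [IsScalarTower k Z F] [Algebra.IsAlgebraic Z F], KPk F jF K →
    ∀ (Ω : Type v) [Field Ω] [IsAlgClosed Ω] [Algebra k Ω] [Algebra F2 Ω] [IsScalarTower k F2 Ω]
      [Algebra.IsAlgebraic F2 Ω] (xt yt : F →ₐ[k] Ω),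
      Pr jF (IsScalarTower.toAlgHom k F2 Ω) (rZ Z xt) (rZ Z yt) →
      ∀ (κ₀ : K →ₐ[k] Ω) (wt : F →ₐ[k] Ω), Pr jF (kF κ₀) (rZ Z xt) (rZ Z yt) →
      Star D K κ₀ (rZ Z wt) → ∀ (P : Pl Ω F) (p : Pl F k), p.Over k → (∀ f, P.r (wt f) f) →
      ((∀ f, P.r (xt f) f) → (∀ f c, p.r f c → P.r (yt f) (algebraMap k F c)) →
        ∀ (t : Ω ≃ₐ[k] Ω) (a χ : F ≃ₐ[k] F), (∀ f, t (xt f) = xt (a f)) →
        (∀ f, t (yt f) = yt f) → (∀ f, t (wt f) = wt (χ f)) →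
        ∃ (s : Ω ≃ₐ[k] Ω) (n : F ≃ₐ[k] F), (∀ f, s (xt f) = xt f) ∧ (∀ f, s (yt f) = yt f) ∧
          (∀ f, s (wt f) = wt (n f)) ∧ χ = a * n) ∧
      ((∀ f, P.r (yt f) f) → (∀ f c, p.r f c → P.r (xt f) (algebraMap k F c)) →
        ∀ (t : Ω ≃ₐ[k] Ω) (b χ : F ≃ₐ[k] F), (∀ f, t (xt f) = xt f) →
        (∀ f, t (yt f) = yt (b f)) → (∀ f, t (wt f) = wt (χ f)) →
        ∃ (s : Ω ≃ₐ[k] Ω) (n : F ≃ₐ[k] F), (∀ f, s (xt f) = xt f) ∧ (∀ f, s (yt f) = yt f) ∧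
          (∀ f, s (wt f) = wt (n f)) ∧ χ = b * n)

/-- **PL2** (250 lines). The base point `κ₀` and both sides of (1.6) for it.

PROOF (EQV, TEX, PLL, PL1, LB.SpecSTM). `ptpR` (PTP.lean): `P, p, w`; STM (2): `κ₀` over `ξ` with `w ∈ *κ₀`; PLL: `wt`.
First statement: PL1. `ptpL`: `P', p', w₁`, `κ₁` over `ξ`, `w₁t`. `KPk.tr1`: `σ ∈ g`; TEX: `t₁` with
`t₁ xt = xt σ`, `t₁ yt = yt`, so `t₁ κ₁ = κ₀`; `t₁ ∘ w₁t|Z ∈ *κ₀`, so `t₁ ∘ w₁t = wt ∘ ρ`, `ρ ∈ G0` (EQV). For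
`t xt = xt`, `t yt = yt b`, `t wt = wt χ` put `t' := t₁⁻¹ t t₁`: `t' xt = xt`, `t' yt = yt b`,
`t' w₁t = w₁t ρ⁻¹ χ ρ`; PL1 (second part): `s', n'` with `ρ⁻¹ χ ρ = b n'`. `s := t₁ s' t₁⁻¹`:
`s xt = t₁ s' xt σ⁻¹ = t₁ xt σ⁻¹ = xt`, `s yt = yt`, `s wt = t₁ s' w₁t ρ⁻¹ = t₁ w₁t n' ρ⁻¹ = wt ρ n' ρ⁻¹`;
`n := ρ n' ρ⁻¹`, `χ = ρ b n' ρ⁻¹ = ρ b ρ⁻¹ n`. -/
def SpecPL2 : Prop :=
  ∀ (k : Type u) (H Z Q F2 R2 : Type v) [Field k] [IsAlgClosed k] [CharZero k] [Ring H] [IsDomain H]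
    [HopfAlgebra k H] [Field Z] [Algebra k Z]
    [DivisionRing Q] [Algebra k Q] [Algebra Z Q] [IsScalarTower k Z Q] [Field F2] [Algebra k F2]
    [Ring R2] [Algebra k R2] [Algebra F2 R2] [IsScalarTower k F2 R2] [Module.Finite Z Q]
    [Module.Finite F2 R2] (ι : H →ₐ[k] Q) (jF : Z ⊗[k] Z →ₐ[k] F2) (j : Q ⊗[k] Q →ₐ[k] R2)
    (D : Q →ₐ[k] R2) (M K : Subalgebra F2 R2) (W : Submodule k R2), IsCQ k H Z Q ι →
    IsR2 ι jF j D → Lb jF D M K W → ∀ (F : Type v) [Field F] [IsAlgClosed F]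
    [Algebra k F] [Algebra Z F] [IsScalarTower k Z F] [Algebra.IsAlgebraic Z F], KPk F jF K →
    ∀ (Ω : Type v) [Field Ω] [IsAlgClosed Ω] [Algebra k Ω] [Algebra F2 Ω] [IsScalarTower k F2 Ω]
      [Algebra.IsAlgebraic F2 Ω] (xt yt : F →ₐ[k] Ω),
      Pr jF (IsScalarTower.toAlgHom k F2 Ω) (rZ Z xt) (rZ Z yt) →
      ∃ (κ₀ : K →ₐ[k] Ω) (wt : F →ₐ[k] Ω), (∀ c, kF κ₀ c = algebraMap F2 Ω c) ∧
      Star D K κ₀ (rZ Z wt) ∧
      (∀ (t : Ω ≃ₐ[k] Ω) (a χ : F ≃ₐ[k] F), (∀ f, t (xt f) = xt (a f)) →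
        (∀ f, t (yt f) = yt f) → (∀ f, t (wt f) = wt (χ f)) →
        ∃ (s : Ω ≃ₐ[k] Ω) (n : F ≃ₐ[k] F), (∀ f, s (xt f) = xt f) ∧ (∀ f, s (yt f) = yt f) ∧
          (∀ f, s (wt f) = wt (n f)) ∧ χ = a * n) ∧
      ∃ ρ ∈ G0 F Z D W, ∀ (t : Ω ≃ₐ[k] Ω) (b χ : F ≃ₐ[k] F), (∀ f, t (xt f) = xt f) →
        (∀ f, t (yt f) = yt (b f)) → (∀ f, t (wt f) = wt (χ f)) →
        ∃ (s : Ω ≃ₐ[k] Ω) (n : F ≃ₐ[k] F), (∀ f, s (xt f) = xt f) ∧ (∀ f, s (yt f) = yt f) ∧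
          (∀ f, s (wt f) = wt (n f)) ∧ χ = ρ * b * ρ⁻¹ * n

/-- **LAM** (250 lines). Finite index, or the function `lam`.

PROOF (GRP, TEX, CKE, SCH, PL2). `κ₀, wt` from PL2, `Stb, ch` from SCH; `GD` for `GG = GGt G0 xt yt`,
`p1 = pa`, `p2 = pb`: `fg`: LB.SpecLCL (every label is `s σ`, `s ∈ S` a finite set of labels); `mem1`, `mem2`:
definition; `surj`: TEX; `ker`: `KPk.fix`, CKE (1); `tr1`: for `t = (t, a, b)` the point `t κ₀` lies over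
`(xt a, yt b)`; CKE (7): `κ` over `ξ` with `Cls κ (t κ₀)`; `KPk.tr1` and TEX: `s = (s, σ, 1)` with `s κ = κ₀`; so
`Cls (s t κ₀) κ₀`; `tr2` the same; `ch_mem`, `ch_fin`: SCH; `pl1`, `pl2`: PL2, the triple `(s, 1, 1)` is in
`GG`, in `Stb` by `ker`, and `ch s = n` (`wt` is injective); `red`: `KPk.red`. Then GRP. Last statement: the
triple `(t, a, 1)` is in `GG`; `t ∘ wt|Z = wt ∘ χ|Z` is equivalent to `wt|Z`, so it is in `Stb` (CKE (4), (5));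
`ch t = χ`. -/
def SpecLAM : Prop :=
  ∀ (k : Type u) (H Z Q F2 R2 : Type v) [Field k] [IsAlgClosed k] [CharZero k] [Ring H] [IsDomain H]
    [HopfAlgebra k H] [Field Z] [Algebra k Z]
    [DivisionRing Q] [Algebra k Q] [Algebra Z Q] [IsScalarTower k Z Q] [Field F2] [Algebra k F2]
    [Ring R2] [Algebra k R2] [Algebra F2 R2] [IsScalarTower k F2 R2] [Module.Finite Z Q]
    [Module.Finite F2 R2] (ι : H →ₐ[k] Q) (jF : Z ⊗[k] Z →ₐ[k] F2) (j : Q ⊗[k] Q →ₐ[k] R2)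
    (D : Q →ₐ[k] R2) (M K : Subalgebra F2 R2) (W : Submodule k R2), IsCQ k H Z Q ι →
    IsR2 ι jF j D → Lb jF D M K W → ∀ (F : Type v) [Field F] [IsAlgClosed F]
    [Algebra k F] [Algebra Z F] [IsScalarTower k Z F] [Algebra.IsAlgebraic Z F], KPk F jF K →
    ∀ (Ω : Type v) [Field Ω] [IsAlgClosed Ω] [Algebra k Ω] [Algebra F2 Ω] [IsScalarTower k F2 Ω]
      [Algebra.IsAlgebraic F2 Ω] (xt yt : F →ₐ[k] Ω),
      Pr jF (IsScalarTower.toAlgHom k F2 Ω) (rZ Z xt) (rZ Z yt) →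
      (∃ Φ : Finset (F ≃ₐ[k] F), ∀ z ∈ G0 F Z D W, ∃ φ ∈ Φ, ∃ σ ∈ gZ k Z F, z = φ * σ) ∨
      ∃ (lam : (F ≃ₐ[k] F) → ℤ) (κ₀ : K →ₐ[k] Ω) (wt : F →ₐ[k] Ω),
        Lam (G0 F Z D W) (gZ k Z F) lam ∧ (∃ a ∈ G0 F Z D W, lam a ≠ 0) ∧
        (∀ c, kF κ₀ c = algebraMap F2 Ω c) ∧ Star D K κ₀ (rZ Z wt) ∧
        ∀ (t : Ω ≃ₐ[k] Ω), ∀ a ∈ G0 F Z D W, ∀ χ ∈ G0 F Z D W, (∀ f, t (xt f) = xt (a f)) →
          (∀ f, t (yt f) = yt f) → (∀ f, t (wt f) = wt (χ f)) → lam χ = lam a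

/-! ## Part D: heights, idempotents, purity -/

/-- **TPX** (100 lines). Highest points exist; two of them have the same height; `Top` is invariant.

PROOF (EQV, HGT, CKE). `*κ` is finite (LB.SpecFIN) and not empty (LB.SpecSTM), all its points are equivalent;
take a point of maximal height over a fixed one. Two highest points: `n ≤ 0` and `-n ≤ 0`. -/
def SpecTPX : Prop :=
  ∀ (k : Type u) (Z Q F2 R2 : Type v) [Field k] [IsAlgClosed k] [Field Z] [Algebra k Z]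
    [DivisionRing Q] [Algebra k Q] [Algebra Z Q] [IsScalarTower k Z Q] [Field F2] [Algebra k F2]
    [Ring R2] [Algebra k R2] [Algebra F2 R2] [IsScalarTower k F2 R2] [Module.Finite Z Q]
    [Module.Finite F2 R2] (jF : Z ⊗[k] Z →ₐ[k] F2) (D : Q →ₐ[k] R2) (M K : Subalgebra F2 R2)
    (W : Submodule k R2), IsFrc jF → Lb jF D M K W → ∀ (F : Type v) [Field F] [IsAlgClosed F]
    [Algebra k F] [Algebra Z F] [IsScalarTower k Z F] [Algebra.IsAlgebraic Z F]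
    (lam : (F ≃ₐ[k] F) → ℤ), Lam (G0 F Z D W) (gZ k Z F) lam →
    ∀ (Ω : Type v) [Field Ω] [IsAlgClosed Ω] [Algebra k Ω],
    (∀ κ : K →ₐ[k] Ω, ∃ w, Top F Z D W lam κ w) ∧
    (∀ (κ : K →ₐ[k] Ω) (w w' : Z →ₐ[k] Ω), Top F Z D W lam κ w → Top F Z D W lam κ w' →
      Hgt F Z D W lam w' w 0) ∧
    ∀ (κ : K →ₐ[k] Ω) (w : Z →ₐ[k] Ω) (t : Ω ≃ₐ[k] Ω), Top F Z D W lam κ w →
      Top F Z D W lam (tc t κ) (tc t w)

/-- text: (2.1). -/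
def P21 {k : Type u} {Q R2 F2 : Type v} [Field k] [DivisionRing Q] [Algebra k Q] [Ring R2]
    [Algebra k R2] [Field F2] [Algebra k F2] [Algebra F2 R2] [IsScalarTower k F2 R2] (F Z : Type v)
    [Field F] [Algebra k F] [Field Z] [Algebra k Z] [Algebra Z F] [IsScalarTower k Z F]
    [Algebra Z Q] [IsScalarTower k Z Q] (jF : Z ⊗[k] Z →ₐ[k] F2) (D : Q →ₐ[k] R2)
    (W : Submodule k R2) (K : Subalgebra F2 R2) (lam : (F ≃ₐ[k] F) → ℤ) {Ω : Type v} [Field Ω]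
    [Algebra k Ω] (xt yt : F →ₐ[k] Ω) : Prop :=
  ∀ a ∈ G0 F Z D W, ∀ (κ κ' : K →ₐ[k] Ω) (w w' : Z →ₐ[k] Ω), Pr jF (kF κ) (rZ Z xt) (rZ Z yt) →
    Pr jF (kF κ') (rZ Z (cmp xt a)) (rZ Z yt) → Top F Z D W lam κ w → Top F Z D W lam κ' w' →
    Eqv F Z D W w w' → Hgt F Z D W lam w' w (lam a)

/-- **TOP** (200 lines). (2.1): `top(κ') - top(κ) = lam(a)`.

PROOF (EQV, HGT, TEX, CKE, TPX). (1) `κ = κ₀`, `w = w₀` top. TEX: `s` with `s xt = xt a`, `s yt = yt`; `s⁻¹ κ'` lies over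
`(xt, yt)`; `KPk.tr1` and TEX: `t₁` with `t₁ xt = xt σ`, `t₁ yt = yt`, `σ ∈ g` and `t₁ κ₀ = s⁻¹ κ'`. So
`κ' = t κ₀`, `t := s t₁`, `t xt = xt (a σ)`, `t yt = yt`. `Cls κ' κ₀`, so `t wt = wt χ`, `χ ∈ G0` (CKE, EQV), and
`lam χ = lam(a σ) = lam a` by hypothesis. `w₀ = wt ∘ τ|Z`, `τ ∈ G0`; `t w₀ = wt χ τ|Z = (wt τ)(τ⁻¹ χ τ)|Z`:
`Hgt (t w₀) w₀ (lam a)`. `t w₀` is top in `*κ'` (TPX), so `Hgt w' w₀ (lam a)`. (2) General `κ`: `KPk.tr2`, TEX: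
`t₀` with `t₀ xt = xt`, `t₀ yt = yt σ`, `t₀ κ₀ = κ`. `t₀⁻¹ κ'` lies over `(xt a, yt σ⁻¹)|Z = (xt a, yt)|Z`,
`t₀⁻¹ w` is top in `*κ₀`, `t₀⁻¹ w'` in `*(t₀⁻¹ κ')`; by (1) `Hgt (t₀⁻¹ w') (t₀⁻¹ w) (lam a)`; apply `t₀`. -/
def SpecTOP : Prop :=
  ∀ (k : Type u) (Z Q F2 R2 : Type v) [Field k] [IsAlgClosed k] [Field Z] [Algebra k Z]
    [DivisionRing Q] [Algebra k Q] [Algebra Z Q] [IsScalarTower k Z Q] [Field F2] [Algebra k F2]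
    [Ring R2] [Algebra k R2] [Algebra F2 R2] [IsScalarTower k F2 R2] [Module.Finite Z Q]
    [Module.Finite F2 R2] (jF : Z ⊗[k] Z →ₐ[k] F2) (D : Q →ₐ[k] R2) (M K : Subalgebra F2 R2)
    (W : Submodule k R2), IsFrc jF → Lb jF D M K W → ∀ (F : Type v) [Field F] [IsAlgClosed F]
    [Algebra k F] [Algebra Z F] [IsScalarTower k Z F] [Algebra.IsAlgebraic Z F], KPk F jF K →
    ∀ (lam : (F ≃ₐ[k] F) → ℤ), Lam (G0 F Z D W) (gZ k Z F) lam →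
    ∀ (Ω : Type v) [Field Ω] [IsAlgClosed Ω] [Algebra k Ω] [Algebra F2 Ω] [IsScalarTower k F2 Ω]
      [Algebra.IsAlgebraic F2 Ω] (xt yt : F →ₐ[k] Ω),
      Pr jF (IsScalarTower.toAlgHom k F2 Ω) (rZ Z xt) (rZ Z yt) →
      ∀ (κ₀ : K →ₐ[k] Ω) (wt : F →ₐ[k] Ω), (∀ c, kF κ₀ c = algebraMap F2 Ω c) →
      Star D K κ₀ (rZ Z wt) →
      (∀ (t : Ω ≃ₐ[k] Ω), ∀ a ∈ G0 F Z D W, ∀ χ ∈ G0 F Z D W, (∀ f, t (xt f) = xt (a f)) →
        (∀ f, t (yt f) = yt f) → (∀ f, t (wt f) = wt (χ f)) → lam χ = lam a) →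
      P21 F Z jF D W K lam xt yt

/-- **MXL** (80 lines). The maximal label.

PROOF. `Lab` is finite modulo `g` (LB.SpecLCL) and contains `1`: the maximum `Mx` exists. `Lab⁻¹ = Lab`: `symm`
for `(rs Z τ, rs Z 1)`, composed with `τ⁻¹`. If `lam = 0` on `Lab` then `lam = 0` on `G0 = ⟨Lab, g⟩`. So
`lam` has a nonzero value on `Lab`, hence a positive one. -/
def SpecMXL : Prop :=
  ∀ (k : Type u) (Z Q F2 R2 : Type v) [Field k] [Field Z] [Algebra k Z] [DivisionRing Q]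
    [Algebra k Q] [Algebra Z Q] [IsScalarTower k Z Q] [Field F2] [Algebra k F2] [Ring R2]
    [Algebra k R2] [Algebra F2 R2] [IsScalarTower k F2 R2] [Module.Finite Z Q] [Module.Finite F2 R2]
    (jF : Z ⊗[k] Z →ₐ[k] F2) (D : Q →ₐ[k] R2) (M K : Subalgebra F2 R2) (W : Submodule k R2),
    Lb jF D M K W → ∀ (F : Type v) [Field F] [IsAlgClosed F] [Algebra k F] [Algebra Z F]
    [IsScalarTower k Z F] [Algebra.IsAlgebraic Z F] (lam : (F ≃ₐ[k] F) → ℤ),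
    Lam (G0 F Z D W) (gZ k Z F) lam → (∃ a ∈ G0 F Z D W, lam a ≠ 0) →
    1 ∈ Lab F Z D W ∧ ∃ Mx : ℤ, 0 < Mx ∧ (∃ τ ∈ Lab F Z D W, lam τ = Mx) ∧
      ∀ τ ∈ Lab F Z D W, lam τ ≤ Mx

/-- **PIX** (200 lines). The idempotent `p ∈ Z[T(Z)] ⊆ M_n(Q)` with prescribed values at the labels.

PROOF (IDM). `E = Z`, `R = M_n(Q)`, `Ω = F`, `P := ` the image of `mu k T (Z → M_n(Q))`, a commutative
`Z`-subalgebra (scalar matrices from `Z` are central). A homomorphism `φ : P → F` over `Z` gives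
`z := φ ∘ T : Z → F` with `RelT T z (rs Z 1)`, so (`hT`, LB.SpecLAB for `Ω = F`, `xt = id`) `z = rs Z τ` with a label
`τ`; conversely every label gives a `φ`. `S' := {φ : z = rs Z τ, τ ∈ S}`; it is stable under `s ∈ Gal(F / Z)`:
`s ∘ φ` belongs to `s τ`. `P ∋ e = mu k T (..) (P₀)`. (`τ ∈ S` depends only on `τ|Z` by `hS'`.) -/
def SpecPIX : Prop :=
  ∀ (k : Type u) (Z Q F2 R2 : Type v) [Field k] [Field Z] [Algebra k Z] [DivisionRing Q]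
    [Algebra k Q] [Algebra Z Q] [IsScalarTower k Z Q] [Field F2] [Algebra k F2] [Ring R2]
    [Algebra k R2] [Algebra F2 R2] [IsScalarTower k F2 R2] [Module.Finite Z Q] [Module.Finite F2 R2]
    (D : Q →ₐ[k] R2) (W : Submodule k R2), Bif D W → ∀ (F : Type v) [Field F] [IsAlgClosed F]
    [Algebra k F] [Algebra Z F] [IsScalarTower k Z F] [Algebra.IsAlgebraic Z F] (n : ℕ)
    (T : Q →ₐ[k] Matrix (Fin n) (Fin n) Q),
    (∀ z x : Z →ₐ[k] F, RelT T z x ↔ Rel D W z x) → ∀ S : Set (F ≃ₐ[k] F),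
    (∀ σ ∈ gZ k Z F, ∀ τ ∈ S, σ * τ ∈ S ∧ τ * σ ∈ S) → ∃ P₀ : Z ⊗[k] Z,
      mu k (T.comp (zQ k Z Q)) (IsScalarTower.toAlgHom k Z (Matrix (Fin n) (Fin n) Q)) P₀ *
        mu k (T.comp (zQ k Z Q)) (IsScalarTower.toAlgHom k Z (Matrix (Fin n) (Fin n) Q)) P₀ =
        mu k (T.comp (zQ k Z Q)) (IsScalarTower.toAlgHom k Z (Matrix (Fin n) (Fin n) Q)) P₀ ∧
      (∀ τ ∈ Lab F Z D W, τ ∈ S → mu k (rs Z τ) (rs Z 1) P₀ = 1) ∧
      ∀ τ ∈ Lab F Z D W, τ ∉ S → mu k (rs Z τ) (rs Z 1) P₀ = 0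

/-- **EIX** (200 lines). The idempotent `e ∈ K[D(Z)]`: value `1` at `(κ, w)` iff `w` is top in `*κ`.

PROOF (IDM, TPX). `E = F2`, `R = R2`, `P := ` the image of `mu k K.val (DZ D Z)`, a commutative `F2`-subalgebra (`K` is
central in `M ⊇ D(Q)`). A homomorphism `φ : P → Ω` over `F2` gives `κ := φ|K`, `w := φ ∘ D` with `w ∈ *κ`, and
conversely. `S := {φ : Top κ w}`; stable under `s ∈ Gal(Ω / F2)` (TPX (3)). There is a `κ` over `ξ`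
(LB.SpecSTM (4)) and a top point (TPX (1)): `e ≠ 0`, because the value of `e` there is `1`. -/
def SpecEIX : Prop :=
  ∀ (k : Type u) (Z Q F2 R2 : Type v) [Field k] [IsAlgClosed k] [Field Z] [Algebra k Z]
    [DivisionRing Q] [Algebra k Q] [Algebra Z Q] [IsScalarTower k Z Q] [Field F2] [Algebra k F2]
    [Ring R2] [Algebra k R2] [Algebra F2 R2] [IsScalarTower k F2 R2] [Module.Finite Z Q]
    [Module.Finite F2 R2] (jF : Z ⊗[k] Z →ₐ[k] F2) (D : Q →ₐ[k] R2) (M K : Subalgebra F2 R2)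
    (W : Submodule k R2), IsFrc jF → Lb jF D M K W → ∀ (F : Type v) [Field F] [IsAlgClosed F]
    [Algebra k F] [Algebra Z F] [IsScalarTower k Z F] [Algebra.IsAlgebraic Z F]
    (lam : (F ≃ₐ[k] F) → ℤ), Lam (G0 F Z D W) (gZ k Z F) lam →
    ∀ (Ω : Type v) [Field Ω] [IsAlgClosed Ω] [Algebra k Ω] [Algebra F2 Ω] [IsScalarTower k F2 Ω]
      [Algebra.IsAlgebraic F2 Ω], ∃ E₀ : K ⊗[k] Z,
      mu k (K.val.restrictScalars k) (DZ D Z) E₀ * mu k (K.val.restrictScalars k) (DZ D Z) E₀ =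
        mu k (K.val.restrictScalars k) (DZ D Z) E₀ ∧
      mu k (K.val.restrictScalars k) (DZ D Z) E₀ ≠ 0 ∧
      ∀ (κ : K →ₐ[k] Ω) (w : Z →ₐ[k] Ω), (∀ c, kF κ c = algebraMap F2 Ω c) → Star D K κ w →
        (Top F Z D W lam κ w → mu k κ w E₀ = 1) ∧ (¬ Top F Z D W lam κ w → mu k κ w E₀ = 0)

/-- **P31** (350 lines). (3.1): `(p ⊗ 1) D(p) e = D(p) e` in `M_n(R2)`.

PROOF (AAB, EQV, HGT, CKE, TPX, LB.SpecLAB). `R := M_n(R2)`, an `F2`-algebra, finite; `sc r` the scalar matrix. `A := ` the subalgebra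
generated by `τ(K)`, `τ(D Z)`; `B := ` the one generated by `sc(K)`, `sc(D Z)`, `τ(D Z)`. Both are
commutative: `K` commutes with `D(Q)` (`IsMK.comm`), `τ(D z)` has entries in `D(Q)`, `D(Z)` is central in `D(Q)`.
`p = ∑ T(z'_i) z_i` (`P₀ = ∑ z'_i ⊗ z_i`), `p ⊗ 1 = ∑ τ(j(z'_i ⊗ 1)) sc(j(z_i ⊗ 1)) ∈ A` (`j(z ⊗ 1) ∈ F2 ⊆ K`),
`D(p) = ∑ τ(D z'_i) sc(D z_i) ∈ B`, `sc(e) ∈ B`. `a := 1 - p ⊗ 1`, `b := D(p) sc(e)`, idempotents. Suppose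
`a b ≠ 0`. AAB (`ξ = F2 → Ω`): `α, β`. Put `ξ' := α ∘ τ` on `F2`, `κ' := α ∘ τ` on `K`, `v := α ∘ τ ∘ D` on `Z`,
`κ := β ∘ sc` on `K`, `w := β ∘ sc ∘ D` on `Z`, `z(c) := α(τ(j(c ⊗ 1)))`, `x = rZ xt`, `y = rZ yt`. Then
`τ(j(1 ⊗ c)) = sc(j(1 ⊗ c))`, so `ξ'` lies over `(z, y)`; `v ∈ *κ'`, `w ∈ *κ`; `v = β ∘ τ ∘ D` (`τ(D Z) ⊆ A ∩ B`).
`RelT T z x`: if `∑ T(z'_i) z_i = 0` then `∑ τ(j(z'_i ⊗ 1)) sc(j(z_i ⊗ 1)) = 0`, apply `α`. `RelT T v w`: if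
`∑ T(z'_i) z_i = 0` then `∑ τ(D z'_i) sc(D z_i) = 0`, apply `β`. By `hT` and LAB (lifts `xt` of `x`, `wt` of `w`)
`z = xt ∘ τ₁|Z`, `v = wt ∘ τ₂|Z` with labels `τ₁, τ₂`, so `mu z x P₀ = xt(mu (rs τ₁) (rs 1) P₀)` and
`mu v w P₀ = wt(mu (rs τ₂) (rs 1) P₀)`. `α(a) = 1`: `mu z x P₀ = 0`, so `lam τ₁ ≠ Mx`, `lam τ₁ < Mx`.
`β(b) = 1 = (mu v w P₀)(mu κ w E₀)`: `lam τ₂ = Mx` and `w` is top in `*κ`. Let `v'` be top in `*κ'` (TPX);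
`κ'` lies over `(xt τ₁, yt)`, `Eqv w v'`: `P21` gives `Hgt v' w (lam τ₁)`; `Hgt v v' m` with `m ≤ 0`, and
`Hgt v w Mx`: `Mx = m + lam τ₁ < Mx`. Contradiction. -/
def SpecP31 : Prop :=
  ∀ (k : Type u) (Z Q F2 R2 : Type v) [Field k] [IsAlgClosed k] [Field Z] [Algebra k Z]
    [DivisionRing Q] [Algebra k Q] [Algebra Z Q] [IsScalarTower k Z Q] [Field F2] [Algebra k F2]
    [Ring R2] [Algebra k R2] [Algebra F2 R2] [IsScalarTower k F2 R2] [Module.Finite Z Q]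
    [Module.Finite F2 R2] (jF : Z ⊗[k] Z →ₐ[k] F2) (j : Q ⊗[k] Q →ₐ[k] R2) (D : Q →ₐ[k] R2)
    (M K : Subalgebra F2 R2) (W : Submodule k R2), IsFrc jF → IsCL (iZ k Z Z Q Q) jF j →
    Lb jF D M K W → ∀ (F : Type v) [Field F] [IsAlgClosed F]
    [Algebra k F] [Algebra Z F] [IsScalarTower k Z F] [Algebra.IsAlgebraic Z F]
    (lam : (F ≃ₐ[k] F) → ℤ), Lam (G0 F Z D W) (gZ k Z F) lam →
    ∀ (Ω : Type v) [Field Ω] [IsAlgClosed Ω] [Algebra k Ω] [Algebra F2 Ω] [IsScalarTower k F2 Ω]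
      [Algebra.IsAlgebraic F2 Ω] (xt yt : F →ₐ[k] Ω),
      Pr jF (IsScalarTower.toAlgHom k F2 Ω) (rZ Z xt) (rZ Z yt) →
      P21 F Z jF D W K lam xt yt →
      ∀ (n : ℕ) (T : Q →ₐ[k] Matrix (Fin n) (Fin n) Q) (τ : R2 →ₐ[k] Matrix (Fin n) (Fin n) R2),
      (∀ z x : Z →ₐ[k] Ω, RelT T z x ↔ Rel D W z x) →
      (∀ a b p l, τ (j (a ⊗ₜ b)) p l = j (T a p l ⊗ₜ b)) → (∀ q p l, τ (D q) p l = D (T q p l)) →
      ∀ (Mx : ℤ), (∀ t ∈ Lab F Z D W, lam t ≤ Mx) → ∀ (P₀ : Z ⊗[k] Z) (E₀ : K ⊗[k] Z)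
        (p : Matrix (Fin n) (Fin n) Q) (e : R2),
        p = mu k (T.comp (zQ k Z Q)) (IsScalarTower.toAlgHom k Z (Matrix (Fin n) (Fin n) Q)) P₀ →
        e = mu k (K.val.restrictScalars k) (DZ D Z) E₀ → p * p = p → e * e = e →
        (∀ t ∈ Lab F Z D W, lam t = Mx → mu k (rs Z t) (rs Z 1) P₀ = 1) →
        (∀ t ∈ Lab F Z D W, lam t ≠ Mx → mu k (rs Z t) (rs Z 1) P₀ = 0) →
        (∀ (κ : K →ₐ[k] Ω) (w : Z →ₐ[k] Ω), (∀ c, kF κ c = algebraMap F2 Ω c) → Star D K κ w →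
          ¬ Top F Z D W lam κ w → mu k κ w E₀ = 0) →
        (p.map fun q => j (q ⊗ₜ[k] (1 : Q))) * p.map D * Matrix.scalar (Fin n) e =
          p.map D * Matrix.scalar (Fin n) e

/-- **PUC** (150 lines). Purity gives the contradiction.

PROOF. `T' := p Q^n`, a right `Q`-subspace (`{u : p u = u}`). For `u ∈ T'` and a row `φ` with `φ T' = 0`, i.e.
`φ p = 0`: `∑ (φ_i ⊗ 1) e D(u_i)` is `(φ ⊗ 1) e D(p) D(u) = (φ ⊗ 1) D(p) e D(u)` (`e` commutes with `D(Q)`)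
`= (φ ⊗ 1)(p ⊗ 1) D(p) e D(u) = 0` (`h31`). `pur_R2` (PUR.lean; `W = e ≠ 0`): `T'` is the right `Q`-span of its
vectors with entries in `k`. `p ≠ 0`, so `T' ≠ 0` and there is `0 ≠ u ∈ T'` with `u_i ∈ k`. `m(v) := ∑ b_i v_i`:
`m(u) ≠ 0` as the `b_i` are `k`-independent; `m(T(q) v) = q m(v)` (`hb`) and `m(v z) = m(v) z`. So
`m(u) = m(p u) = ∑ z'_i m(u) z_i = (∑ z'_i z_i) m(u) = (mu id id P₀) m(u) = 0`. -/
def SpecPUC : Prop :=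
  ∀ (k : Type u) (H Z Q F2 R2 : Type v) [Field k] [IsAlgClosed k] [Ring H] [IsDomain H]
    [HopfAlgebra k H] [Field Z] [Algebra k Z]
    [DivisionRing Q] [Algebra k Q] [Algebra Z Q] [IsScalarTower k Z Q] [Field F2] [Algebra k F2]
    [Ring R2] [Algebra k R2] [Algebra F2 R2] [IsScalarTower k F2 R2] (ι : H →ₐ[k] Q)
    (jF : Z ⊗[k] Z →ₐ[k] F2) (j : Q ⊗[k] Q →ₐ[k] R2) (D : Q →ₐ[k] R2), IsCQ k H Z Q ι →
    IsR2 ι jF j D → ∀ (n : ℕ) (T : Q →ₐ[k] Matrix (Fin n) (Fin n) Q) (b : Fin n → Q),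
    LinearIndependent k b → (∀ q i, q * b i = ∑ l, b l * T q l i) → ∀ (P₀ : Z ⊗[k] Z)
      (p : Matrix (Fin n) (Fin n) Q) (e : R2),
      p = mu k (T.comp (zQ k Z Q)) (IsScalarTower.toAlgHom k Z (Matrix (Fin n) (Fin n) Q)) P₀ →
      p * p = p → p ≠ 0 → e ≠ 0 → (∀ q, e * D q = D q * e) →
      (p.map fun q => j (q ⊗ₜ[k] (1 : Q))) * p.map D * Matrix.scalar (Fin n) e =
        p.map D * Matrix.scalar (Fin n) e →
      mu k (AlgHom.id k Z) (AlgHom.id k Z) P₀ = 0 → False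

/-- **ETQ** (100 lines). `q b_i = ∑ b_l T(q)_li`.

PROOF. For `q = ι h`: `h b_i = (h₁ ▷ b_i) h₂ = ∑ b_l f(h₁)_li h₂` (EG.SpecADA / ADB: `h q = (h₁ ▷ q) h₂`;
`h₁ q S(h₂) h₃ = h q`). For `q = c⁻¹ h`, `c` central, `X` the row of the `b_i`: `c X = X T(c)`, so
`c⁻¹ X = X T(c)⁻¹`. Compare RTL (LB/RTL.lean). -/
def SpecETQ : Prop :=
  ∀ (k : Type u) (H Z Q : Type v) [Field k] [Ring H] [IsDomain H] [HopfAlgebra k H] [Field Z]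
    [Algebra k Z] [DivisionRing Q] [Algebra k Q] [Algebra Z Q] [IsScalarTower k Z Q]
    (ι : H →ₐ[k] Q), IsCQ k H Z Q ι → ∀ (n : ℕ) (f : H →ₐ[k] Matrix (Fin n) (Fin n) k)
    (T : Q →ₐ[k] Matrix (Fin n) (Fin n) Q), IsTl ι f T → ∀ b : Fin n → Q,
    (∀ h i, EG.adlQ k Z ι h (b i) = ∑ l, f h l i • b l) →
    ∀ q i, q * b i = ∑ l, b l * T q l i

/-- **LBX** (150 lines). The abstract data from `H`.

PROOF. LB.SpecE0X: `El, Er`. `b` a `k`-basis of `El`, `f` the matrix of `▷` on `El` (a homomorphism by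
EG.SpecADA), `T` from LB.SpecTEL, `τ` from LB.SpecTAL, `RelT ↔ Rel` from LB.SpecRTL, `hb` from ETQ. `Lb` for
`W = embL j El`: `imk`: LB.SpecMK; `bf`: BIF; `gen`: M2D; `le`: `El ⊆ O_l`; `one`: `1 ∈ El`; `symm`: SYM (`W' = W`);
`r1l`: R1L; `r1r`: R1R for `Er`, and SYM turns `Rel D (embL j El)` into `Rel D (embR j Er)` and back. -/
def SpecLBX : Prop :=
  ∀ (k : Type u) (H Z Q F2 R2 : Type v) [Field k] [Ring H] [IsDomain H]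
    [HopfAlgebra k H] [Field Z] [Algebra k Z]
    [DivisionRing Q] [Algebra k Q] [Algebra Z Q] [IsScalarTower k Z Q] [Field F2] [Algebra k F2]
    [Ring R2] [Algebra k R2] [Algebra F2 R2] [IsScalarTower k F2 R2] [Module.Finite F2 R2]
    (ι : H →ₐ[k] Q) (jF : Z ⊗[k] Z →ₐ[k] F2) (j : Q ⊗[k] Q →ₐ[k] R2) (D : Q →ₐ[k] R2),
    IsCQ k H Z Q ι → IsR2 ι jF j D → Function.Bijective (antipode k (A := H)) →
    IsField (K2 Z F2 ι j D) →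
    (∀ c : R2, (∀ x ∈ K2 Z F2 ι j D, x * c = c * x) → c ∈ M2 Z F2 ι j D) →
    ∃ (n : ℕ) (b : Fin n → Q) (T : Q →ₐ[k] Matrix (Fin n) (Fin n) Q)
      (τ : R2 →ₐ[k] Matrix (Fin n) (Fin n) R2),
      Lb jF D (M2 Z F2 ι j D) (K2 Z F2 ι j D) (embL j (Submodule.span k (Set.range b))) ∧
      LinearIndependent k b ∧ (∀ q i, q * b i = ∑ l, b l * T q l i) ∧
      (∀ a b p l, τ (j (a ⊗ₜ b)) p l = j (T a p l ⊗ₜ b)) ∧ (∀ q p l, τ (D q) p l = D (T q p l)) ∧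
      ∀ (Ω : Type v) [Field Ω] [Algebra k Ω] (z x : Z →ₐ[k] Ω),
        RelT T z x ↔ Rel D (embL j (Submodule.span k (Set.range b))) z x

/-- **DEL** (250 lines). `δ : E → K` with `D f - δ f` nilpotent.

PROOF (IDM second part, EQV, CKE). `Ω := AlgebraicClosure F2`, `κ₀` over the inclusion (LB.SpecSTM), `w₀ ∈ *κ₀`, `wt₀` a
lift. (1) If `w ~ w'` then `w f = w' f` for `f ∈ E`: `w' f = wt(τ f) = wt(f) = w f`. (2) `w₀(f) ∈ κ₀(K)` for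
`f ∈ E`: `Ω / κ₀(K)` is Galois (characteristic `0`, algebraic, `F2 ⊆ κ₀(K)`); for `s ∈ Gal(Ω / κ₀(K))`
`s ∘ w₀ ∈ *(s κ₀) = *κ₀`, so `s(w₀ f) = w₀ f` by (1). `δ := κ₀⁻¹ ∘ w₀` on `E`. (3) `P := ` the image of
`mu k K.val (DZ D Z)` (as in EIX), `x := D f - δ f ∈ P`. Let `φ : P → Ω` be a homomorphism over `F2`, `κ := φ|K`,
`w := φ ∘ D ∈ *κ`. `κ = s ∘ κ₀` for some `s ∈ Gal(Ω / F2)` (`K` is a field, finite over `F2`; `Ω` is normal over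
`F2`). `s ∘ w₀ ∈ *κ`, so `w f = s(w₀ f) = s κ₀(δ f) = κ(δ f)`: `φ(x) = 0`. By IDM `x` is nilpotent. -/
def SpecDEL : Prop :=
  ∀ (k : Type u) (Z Q F2 R2 : Type v) [Field k] [IsAlgClosed k] [CharZero k] [Field Z] [Algebra k Z]
    [DivisionRing Q] [Algebra k Q] [Algebra Z Q] [IsScalarTower k Z Q] [Field F2] [Algebra k F2]
    [Ring R2] [Algebra k R2] [Algebra F2 R2] [IsScalarTower k F2 R2] [Module.Finite Z Q]
    [Module.Finite F2 R2] (jF : Z ⊗[k] Z →ₐ[k] F2) (D : Q →ₐ[k] R2) (M K : Subalgebra F2 R2)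
    (W : Submodule k R2), IsFrc jF → Lb jF D M K W → ∀ (F : Type v) [Field F] [IsAlgClosed F]
    [Algebra k F] [Algebra Z F] [IsScalarTower k Z F] [Algebra.IsAlgebraic Z F]
    (E : Subalgebra k Z),
    (∀ f ∈ E, ∀ τ ∈ G0 F Z D W, τ (algebraMap Z F f) = algebraMap Z F f) →
    ∃ δ : E →ₐ[k] K, ∀ f : E, IsNilpotent (D (algebraMap Z Q f) - (δ f : R2))

/-- **LP** (150 lines; helper72). Assembly: labels part 2.

PROOF. LBX; `F := AlgebraicClosure Z`, `Ω := AlgebraicClosure F2`, `xt, yt` lifts (EQV (h)). LAM. First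
alternative: EFN, DEL. Second alternative: TOP, MXL, PIX (`S = {lam = Mx}`), EIX, P31, PUC: contradiction. -/
def SpecLP : Prop :=
  ∀ (k : Type u) (H Z Q F2 R2 : Type v) [Field k] [IsAlgClosed k] [CharZero k] [Ring H] [IsDomain H]
    [HopfAlgebra k H] [Field Z] [Algebra k Z]
    [DivisionRing Q] [Algebra k Q] [Algebra Z Q] [IsScalarTower k Z Q] [Field F2] [Algebra k F2]
    [Ring R2] [Algebra k R2] [Algebra F2 R2] [IsScalarTower k F2 R2] (ι : H →ₐ[k] Q)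
    (jF : Z ⊗[k] Z →ₐ[k] F2) (j : Q ⊗[k] Q →ₐ[k] R2) (D : Q →ₐ[k] R2), IsCQ k H Z Q ι →
    IsR2 ι jF j D → Function.Bijective (antipode k (A := H)) → IsField (K2 Z F2 ι j D) →
    (∀ c : R2, (∀ x ∈ K2 Z F2 ι j D, x * c = c * x) → c ∈ M2 Z F2 ι j D) →
    (∃ (F : Type v) (_ : Field F) (_ : IsAlgClosed F) (_ : Algebra k F) (_ : Algebra Z F)
      (_ : IsScalarTower k Z F), Algebra.IsAlgebraic Z F ∧ KPk F jF (K2 Z F2 ι j D)) →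
    ∃ E : Subalgebra k Z, IsField E ∧ Module.Finite E Z ∧ ∃ δ : E →ₐ[k] K2 Z F2 ι j D,
      ∀ f : E, IsNilpotent (D (algebraMap Z Q f) - (δ f : R2))

end Pool.Agent.Lib.MP_c37a72_al.LP
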