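import Pool.Agent.Lib.MP_c37a72_al.LP.Spec
import Pool.Agent.Lib.MP_c37a72_al.PU.Spec

/-!
# MP_c37a72_al, block LP (labels, part 2): Specs, second file

Section 3 of the text (purity) is block PU. Here: `LBY` (the abstract data from `H`) and the bridge `H2X` from
`P21` (for one field `Ω`, algebraic over `F2`) to `PU.H21` (for all algebraically closed fields). Module `XXX`
is the file `Pool/Agent/Lib/MP_c37a72_al/LP/XXX.lean`, which imports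
`Pool.Agent.Lib.MP_c37a72_al.LP.SpecB`; Specs of LP, PU, LB, EG may be taken as hypotheses.
-/

set_option autoImplicit false

open scoped TensorProduct
open Coalgebra HopfAlgebra

namespace Pool.Agent.Lib.MP_c37a72_al.LP

open Pool.Agent.Lib.MP_c37a72_al.LB

universe u v w

/-- **LBY** (120 lines). The abstract data from `H`.

PROOF. LB.SpecE0X: `El, Er`. `Lb` for `W = embL j El`: `imk`: LB.SpecMK; `bf`: LB.SpecBIF; `gen`: LB.SpecM2D; `le`: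
`El ⊆ O_l`, `M2` is generated by `O_l ⊗ 1` and `D(Q)`; `one`: `1 ∈ El`; `symm`: LB.SpecSYM (`W' = W`); `r1l`:
LB.SpecR1L; `r1r`: LB.SpecR1R for `Er`; LB.SpecSYM turns `Rel D (embL j El) z y` into `Rel D (embR j Er) z y` and
back (`embR j Er ⊆ M2` and its span: LB.SpecM2D, LB.SpecBIF). `Module.Finite Z Q` is `IsCQ.fin`. -/
def SpecLBY : Prop :=
  ∀ (k : Type u) (H Z Q F2 R2 : Type v) [Field k] [Ring H] [IsDomain H]
    [HopfAlgebra k H] [Field Z] [Algebra k Z]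
    [DivisionRing Q] [Algebra k Q] [Algebra Z Q] [IsScalarTower k Z Q] [Field F2] [Algebra k F2]
    [Ring R2] [Algebra k R2] [Algebra F2 R2] [IsScalarTower k F2 R2]
    (ι : H →ₐ[k] Q) (jF : Z ⊗[k] Z →ₐ[k] F2) (j : Q ⊗[k] Q →ₐ[k] R2) (D : Q →ₐ[k] R2),
    IsCQ k H Z Q ι → IsR2 ι jF j D → Function.Bijective (antipode k (A := H)) →
    IsField (K2 Z F2 ι j D) →
    (∀ c : R2, (∀ x ∈ K2 Z F2 ι j D, x * c = c * x) → c ∈ M2 Z F2 ι j D) →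
    ∃ E : Submodule k Q, IsEl Z ι E ∧ Lb jF D (M2 Z F2 ι j D) (K2 Z F2 ι j D) (embL j E)

/-- **H2X** (250 lines). From `P21` for one `Ω` to `PU.H21`.

PROOF (EQV, HGT, CKE, TPX of LP; ALF, INV of PU). `Hgt lam v w n` means `∃ τ ∈ G0, Via τ v w ∧ lam τ = n`, and `PU.IsTop`
is `Top`. (1) Let `Ω'`, `x, y, z, ξ, ξ', κ, κ', a, w, v, b` be as in `H21`. `Ω` is algebraic over `F2` and `Ω'` is
algebraically closed, so there is `φ : Ω →ₐ[k] Ω'` with `φ ∘ (F2 → Ω) = ξ` (`IsAlgClosed.lift`). `φ(Ω)` is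
algebraically closed in `Ω'`. `x = φ ∘ rZ xt`, `y = φ ∘ rZ yt` (values of `ξ` on `jF(c ⊗ 1)`, `jF(1 ⊗ c)`).
`κ = φ ∘ κ₁` (`K` is finite over `F2`). The lift `xt'` of `x` in `Via a z x` is `φ ∘ xt₁`, `xt₁` a lift of `rZ xt`
(PU.ALF (1)); `z = φ ∘ z₁`, `z₁ = xt₁ ∘ a|Z`. `ξ' = φ ∘ ξ'₁` (`F2` is the fraction field of `Z ⊗ Z`, `φ(Ω)` a
field), `κ' = φ ∘ κ'₁`. `w = φ ∘ w₁`, `v = φ ∘ v₁` (PU.ALF (2)), `IsTop κ₁ w₁`, `Via b v₁ w₁`, `Star D K κ'₁ v₁`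
(PU.INV). (2) In `Ω`: `xt₁ = xt ∘ σ`, `σ ∈ g` (EQV (i)), `z₁ = xt ∘ (σ a)|Z`, so `κ'₁` lies over
`(cmp xt (σ a), yt)`. `v'` top in `*κ'₁` (TPX); `Eqv w₁ v₁`, `Eqv v₁ v'`. `P21`: `Hgt v' w₁ (lam (σ a))`,
`lam (σ a) = lam a`. `Hgt v₁ v' m`, `m ≤ 0`; `Hgt v₁ w₁ (lam b)`; so `lam b = m + lam a`. -/
def SpecH2X : Prop :=
  ∀ (k : Type u) (Z Q F2 R2 : Type v) [Field k] [IsAlgClosed k] [Field Z] [Algebra k Z]
    [DivisionRing Q] [Algebra k Q] [Algebra Z Q] [IsScalarTower k Z Q] [Field F2] [Algebra k F2]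
    [Ring R2] [Algebra k R2] [Algebra F2 R2] [IsScalarTower k F2 R2] [Module.Finite Z Q]
    [Module.Finite F2 R2] (jF : Z ⊗[k] Z →ₐ[k] F2) (D : Q →ₐ[k] R2) (M K : Subalgebra F2 R2)
    (W : Submodule k R2), IsFrc jF → Lb jF D M K W → ∀ (F : Type v) [Field F] [IsAlgClosed F]
    [Algebra k F] [Algebra Z F] [IsScalarTower k Z F] [Algebra.IsAlgebraic Z F]
    (lam : (F ≃ₐ[k] F) → ℤ), Lam (G0 F Z D W) (gZ k Z F) lam →
    ∀ (Ω : Type v) [Field Ω] [IsAlgClosed Ω] [Algebra k Ω] [Algebra F2 Ω] [IsScalarTower k F2 Ω]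
      [Algebra.IsAlgebraic F2 Ω] (xt yt : F →ₐ[k] Ω),
      Pr jF (IsScalarTower.toAlgHom k F2 Ω) (rZ Z xt) (rZ Z yt) →
      P21 F Z jF D W K lam xt yt → PU.H21 F jF D K W lam

end Pool.Agent.Lib.MP_c37a72_al.LP
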